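import Mathlib

/-!
Project MP_e5a1a5_T2, row AV: local counting.

`B` is a finite abelian group of odd order acting on `V` (no 2-torsion), `D` a finite 2-group acting on `V`,
`Zd ≤ B` consists of elements whose action commutes with that of `D`.  For `b ≠ 0` we look for `x = ± ρ ζ b`, `ζ ∈ Zd`,
avoiding two `D`-orbits and one vector `ex q` for each `q ∈ Q`, where `Q` is a nonempty finite set of odd primes and every
`q ∈ Q` has `ζ ∈ Zd` of `q`-power order with `ρ ζ b ≠ b`.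

Proof.  Let `X⁺ = {ρ ζ b | ζ ∈ Zd}` and `X⁻ = -X⁺`, finite sets with the same number `m` of elements.
(1) `X⁺ ∩ X⁻ = ∅`: if `ρ ζ b = - ρ ζ' b` then `ρ (ζ'⁻¹ ζ) b = -b`; with `ξ = ζ'⁻¹ ζ` of odd order `o`,
    `b = ρ (ξ^o) b = (-1)^o b = -b`, so `2 b = 0`, `b = 0`.
(2) a `D`-orbit `{τ g w}` meets `X⁺` in at most one element, and also `X⁻`: if `ρ ζ b = τ g w`, `ρ ζ' b = τ g' w`, then with
    `h = g' g⁻¹`, `ρ ζ' b = τ h (ρ ζ b)`, so `ρ ξ b = τ h b` with `ξ = ζ' ζ⁻¹` (the action of `Zd` commutes with `τ h`).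
    Iterating, `ρ (ξ^n) b = τ (h^n) b` for all `n`.  Take `n = Nat.card D`: `ρ (ξ^n) b = b`.  `n` is a power of 2, hence
    coprime to the odd order of `ξ`, so `ξ` is a power of `ξ^n` and `ρ ξ b = b`, i.e. `ρ ζ b = ρ ζ' b`.  For `X⁻` replace
    `w` by `-w`.
(3) every `q ∈ Q` divides `m`: `m` is the index of the stabiliser of `b` in `Zd`.  If `q ∤ m` then the `q`-element `ζ`
    (`ζ^(q^n) = 1`) lies in the stabiliser: its image in the quotient of `Zd` by the stabiliser has order dividing `q^n`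
    and `m`.  (The stabiliser `T` is a subgroup of the abelian group `Zd`; `X⁺` is in bijection with `Zd ⧸ T`.)
    Therefore `∏_{q ∈ Q} q ∣ m` (`Finset.prod_primes_dvd`), so `3 ^ Q.card ≤ m` (all `q ≥ 3`; `m > 0`).
(4) `3 ^ k ≥ 2 k + 1` for all `k`, so `2 m ≥ 2 * 3 ^ k ≥ 4 k + 2 > k + 4` for `k = Q.card ≥ 1` (for `k = 1`: `6 > 5`).
(5) Among the `2 m` elements of `X⁺ ∪ X⁻` at most `4` lie in the orbits of `w₁`, `w₂` and at most `k` are of the form
    `ex q`; so one is left.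
-/

set_option autoImplicit false

namespace Pool.H45.S2

theorem av_orbit {F V B D : Type*} [Field F] [AddCommGroup V] [Module F V]
    [CommGroup B] [Finite B] (hB : Odd (Nat.card B)) (ρ : B →* Module.End F V)
    [Group D] [Finite D] (hD : IsPGroup 2 D) (τ : D →* Module.End F V) (Zd : Subgroup B)
    (hcom : ∀ (g : D), ∀ ζ ∈ Zd, ∀ v : V, τ g (ρ ζ v) = ρ ζ (τ g v))
    (b w : V) (ζ ζ' : B) (hζ : ζ ∈ Zd) (hζ' : ζ' ∈ Zd) (g g' : D) (h1 : ρ ζ b = τ g w)
    (h2 : ρ ζ' b = τ g' w) : ρ ζ b = ρ ζ' b := by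
  have e1 : ∀ (a c : B) (v : V), ρ a (ρ c v) = ρ (a * c) v := by
    intro a c v
    rw [map_mul, Module.End.mul_apply]
  have e2 : ∀ (a c : D) (v : V), τ a (τ c v) = τ (a * c) v := by
    intro a c v
    rw [map_mul, Module.End.mul_apply]
  set h := g' * g⁻¹ with hh
  set ξ := ζ' * ζ⁻¹ with hξ
  have hξZ : ξ ∈ Zd := Zd.mul_mem hζ' (Zd.inv_mem hζ)
  have h3 : τ h (ρ ζ b) = ρ ζ' b := by
    rw [h1, h2, e2, hh, inv_mul_cancel_right]
  have h4 : τ h b = ρ ξ b := by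
    have h5 : τ h (ρ ζ⁻¹ (ρ ζ b)) = ρ ζ⁻¹ (ρ ζ' b) := by
      rw [hcom h ζ⁻¹ (Zd.inv_mem hζ), h3]
    rw [e1, e1, inv_mul_cancel, map_one, Module.End.one_apply] at h5
    rw [h5, hξ, mul_comm]
  have h5 : ∀ n : ℕ, τ (h ^ n) b = ρ (ξ ^ n) b := by
    intro n
    induction n with
    | zero => rw [pow_zero, pow_zero, map_one, map_one]
    | succ n ih =>
      rw [pow_succ, ← e2, h4, hcom (h ^ n) ξ hξZ, ih, e1, pow_succ']
  have h6 := h5 (Nat.card D)
  rw [pow_card_eq_one', map_one, Module.End.one_apply] at h6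
  have h7 : (Nat.card D).Coprime (orderOf ξ) := by
    obtain ⟨m, hm⟩ := IsPGroup.iff_card.1 hD
    rw [hm]
    apply Nat.Coprime.pow_left
    have h8 : Odd (orderOf ξ) := Odd.of_dvd_nat hB (orderOf_dvd_natCard ξ)
    exact (Nat.coprime_two_left).2 h8
  obtain ⟨k, hk⟩ := exists_pow_eq_self_of_coprime h7
  have h8 : ∀ j : ℕ, ρ ((ξ ^ Nat.card D) ^ j) b = b := by
    intro j
    induction j with
    | zero => rw [pow_zero, map_one, Module.End.one_apply]
    | succ j ih => rw [pow_succ, ← e1, ← h6, ih]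
  have h9 := h8 k
  rw [hk] at h9
  have h10 : ρ ζ (ρ ξ b) = ρ ζ b := by rw [h9]
  rw [e1, hξ] at h10
  rw [← h10]
  congr 2
  rw [mul_comm ζ' ζ⁻¹, mul_inv_cancel_left]

theorem av_pm {F V B : Type*} [Field F] [AddCommGroup V] [Module F V] (h2 : (2 : F) ≠ 0)
    [CommGroup B] [Finite B] (hB : Odd (Nat.card B)) (ρ : B →* Module.End F V)
    (b : V) (hb : b ≠ 0) (ζ ζ' : B) (h : ρ ζ b = -(ρ ζ' b)) : False := by
  have e1 : ∀ (a c : B) (v : V), ρ a (ρ c v) = ρ (a * c) v := by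
    intro a c v
    rw [map_mul, Module.End.mul_apply]
  set ξ := ζ'⁻¹ * ζ with hξ
  have h3 : ρ ξ b = -b := by
    rw [hξ, ← e1, h, map_neg, e1, inv_mul_cancel, map_one, Module.End.one_apply]
  have h4 : ∀ n : ℕ, ρ (ξ ^ n) b = (-1 : F) ^ n • b := by
    intro n
    induction n with
    | zero => rw [pow_zero, map_one, Module.End.one_apply, pow_zero, one_smul]
    | succ n ih => rw [pow_succ, ← e1, h3, map_neg, ih, pow_succ, mul_neg, mul_one, neg_smul]
  have h5 := h4 (Nat.card B)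
  rw [pow_card_eq_one', map_one, Module.End.one_apply, hB.neg_one_pow, neg_smul, one_smul] at h5
  have h6 : (2 : F) • b = 0 := by
    rw [two_smul]
    nth_rewrite 1 [h5]
    exact neg_add_cancel b
  rcases smul_eq_zero.1 h6 with h7 | h7
  · exact h2 h7
  · exact hb h7

theorem avoid {F V B D : Type*} [Field F] [AddCommGroup V] [Module F V] (h2 : (2 : F) ≠ 0)
    [CommGroup B] [Finite B] (hB : Odd (Nat.card B)) (ρ : B →* Module.End F V)
    [Group D] [Finite D] (hD : IsPGroup 2 D) (τ : D →* Module.End F V) (Zd : Subgroup B)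
    (hcom : ∀ (g : D), ∀ ζ ∈ Zd, ∀ v : V, τ g (ρ ζ v) = ρ ζ (τ g v))
    (b : V) (hb : b ≠ 0) (Q : Finset ℕ) (hQ : Q.Nonempty)
    (hQ' : ∀ q ∈ Q, q.Prime ∧ q ≠ 2 ∧ ∃ ζ ∈ Zd, (∃ n : ℕ, ζ ^ q ^ n = 1) ∧ ρ ζ b ≠ b)
    (ex : ℕ → V) (w₁ w₂ : V) :
    ∃ x : V, (∃ ζ ∈ Zd, x = ρ ζ b ∨ x = -(ρ ζ b)) ∧ (∀ q ∈ Q, x ≠ ex q) ∧
      (∀ g : D, x ≠ τ g w₁) ∧ ∀ g : D, x ≠ τ g w₂ := by
  classical
  have e1 : ∀ (a c : B) (v : V), ρ a (ρ c v) = ρ (a * c) v := by
    intro a c v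
    rw [map_mul, Module.End.mul_apply]
  have := Fintype.ofFinite Zd
  let act : MulAction Zd V :=
    { smul := fun ζ v => ρ (ζ : B) v
      one_smul := by
        intro v
        change ρ ((1 : Zd) : B) v = v
        rw [OneMemClass.coe_one, map_one, Module.End.one_apply]
      mul_smul := by
        intro a c v
        change ρ ((a * c : Zd) : B) v = ρ (a : B) (ρ (c : B) v)
        rw [e1]
        rfl }
  have hact : ∀ (ζ : Zd) (v : V), ζ • v = ρ (ζ : B) v := fun _ _ => rfl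
  let Xp : Finset V := Finset.univ.image (fun ζ : Zd => ρ (ζ : B) b)
  let Xm : Finset V := Finset.univ.image (fun ζ : Zd => -(ρ (ζ : B) b))
  have hXp : ∀ x, x ∈ Xp ↔ ∃ ζ ∈ Zd, ρ ζ b = x := by
    intro x
    simp [Xp]
  have hXm : ∀ x, x ∈ Xm ↔ ∃ ζ ∈ Zd, -(ρ ζ b) = x := by
    intro x
    simp [Xm]
  have hcard : Xm.card = Xp.card := by
    have : Xm = Xp.image (fun v => -v) := by
      simp only [Xm, Xp, Finset.image_image]
      rfl
    rw [this]
    exact Finset.card_image_of_injective _ neg_injective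
  have hdisj : Disjoint Xp Xm := by
    rw [Finset.disjoint_left]
    intro x hx hx'
    obtain ⟨ζ, -, h3⟩ := (hXp x).1 hx
    obtain ⟨ζ', -, h4⟩ := (hXm x).1 hx'
    exact av_pm h2 hB ρ b hb ζ ζ' (by rw [h3, h4])
  have hidx : (MulAction.stabilizer Zd b).index = Xp.card := by
    rw [MulAction.index_stabilizer]
    have : MulAction.orbit Zd b = (Xp : Set V) := by
      ext x
      rw [MulAction.mem_orbit_iff]
      simp [Xp, hact]
    rw [this, Set.ncard_coe_finset]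
  have hdvd : ∀ q ∈ Q, q ∣ Xp.card := by
    intro q hq
    obtain ⟨hqp, -, ζ, hζ, ⟨n, hn⟩, hne⟩ := hQ' q hq
    by_contra hnd
    apply hne
    have h3 : (⟨ζ, hζ⟩ : Zd) ∈ MulAction.stabilizer Zd b := by
      rw [← QuotientGroup.eq_one_iff (N := MulAction.stabilizer Zd b)]
      have h4 : orderOf ((⟨ζ, hζ⟩ : Zd) : Zd ⧸ MulAction.stabilizer Zd b) ∣ q ^ n := by
        apply orderOf_dvd_of_pow_eq_one
        rw [← QuotientGroup.mk_pow]
        have : (⟨ζ, hζ⟩ : Zd) ^ q ^ n = 1 := Subtype.ext hn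
        rw [this]
        rfl
      have h5 : orderOf ((⟨ζ, hζ⟩ : Zd) : Zd ⧸ MulAction.stabilizer Zd b) ∣ Xp.card := by
        apply orderOf_dvd_of_pow_eq_one
        rw [← QuotientGroup.mk_pow, QuotientGroup.eq_one_iff, ← hidx]
        exact Subgroup.pow_index_mem _ _
      have h6 : Nat.Coprime Xp.card (q ^ n) :=
        Nat.Coprime.pow_right n ((Nat.Prime.coprime_iff_not_dvd hqp).2 hnd).symm
      exact orderOf_eq_one_iff.1 (Nat.eq_one_of_dvd_coprimes h6 h5 h4)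
    exact h3
  have hXpos : 0 < Xp.card := by
    apply Finset.card_pos.2
    exact ⟨ρ 1 b, (hXp _).2 ⟨1, Zd.one_mem, rfl⟩⟩
  have hprod : 3 ^ Q.card ≤ Xp.card := by
    have h3 : ∏ q ∈ Q, q ∣ Xp.card :=
      Finset.prod_primes_dvd _ (fun q hq => (hQ' q hq).1.prime) hdvd
    have h4 : 3 ^ Q.card ≤ ∏ q ∈ Q, q := by
      apply Finset.pow_card_le_prod
      intro q hq
      have h5 := (hQ' q hq).1.two_le
      have h6 := (hQ' q hq).2.1
      omega
    exact h4.trans (Nat.le_of_dvd hXpos h3)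
  have hk : ∀ k : ℕ, 1 ≤ k → k + 4 < 2 * 3 ^ k := by
    intro k hk
    induction k, hk using Nat.le_induction with
    | base => norm_num
    | succ k hk ih =>
      rw [pow_succ]
      omega
  have hkk := hk Q.card (Finset.card_pos.2 hQ)
  have horb : ∀ w : V, (Xp.filter (fun x => ∃ g : D, x = τ g w)).card ≤ 1 ∧
      (Xm.filter (fun x => ∃ g : D, x = τ g w)).card ≤ 1 := by
    intro w
    constructor
    · rw [Finset.card_le_one]
      intro x hx x' hx'
      obtain ⟨hx1, g, hg⟩ := Finset.mem_filter.1 hx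
      obtain ⟨hx2, g', hg'⟩ := Finset.mem_filter.1 hx'
      obtain ⟨ζ, hζ, h3⟩ := (hXp x).1 hx1
      obtain ⟨ζ', hζ', h4⟩ := (hXp x').1 hx2
      rw [← h3, ← h4]
      exact av_orbit hB ρ hD τ Zd hcom b w ζ ζ' hζ hζ' g g' (by rw [h3, hg]) (by rw [h4, hg'])
    · rw [Finset.card_le_one]
      intro x hx x' hx'
      obtain ⟨hx1, g, hg⟩ := Finset.mem_filter.1 hx
      obtain ⟨hx2, g', hg'⟩ := Finset.mem_filter.1 hx'
      obtain ⟨ζ, hζ, h3⟩ := (hXm x).1 hx1
      obtain ⟨ζ', hζ', h4⟩ := (hXm x').1 hx2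
      have h5 := av_orbit hB ρ hD τ Zd hcom b (-w) ζ ζ' hζ hζ' g g'
        (by rw [map_neg, ← hg, ← h3, neg_neg]) (by rw [map_neg, ← hg', ← h4, neg_neg])
      rw [← h3, ← h4, h5]
  let Bad : Finset V := Q.image ex ∪
    (Xp.filter (fun x => ∃ g : D, x = τ g w₁) ∪ Xm.filter (fun x => ∃ g : D, x = τ g w₁)) ∪
    (Xp.filter (fun x => ∃ g : D, x = τ g w₂) ∪ Xm.filter (fun x => ∃ g : D, x = τ g w₂))
  have hBad : Bad.card ≤ Q.card + 4 := by
    have a1 : (Q.image ex).card ≤ Q.card := Finset.card_image_le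
    have a2 := horb w₁
    have a3 := horb w₂
    have a4 := Finset.card_union_le (Q.image ex ∪
      (Xp.filter (fun x => ∃ g : D, x = τ g w₁) ∪ Xm.filter (fun x => ∃ g : D, x = τ g w₁)))
      (Xp.filter (fun x => ∃ g : D, x = τ g w₂) ∪ Xm.filter (fun x => ∃ g : D, x = τ g w₂))
    have a5 := Finset.card_union_le (Q.image ex)
      (Xp.filter (fun x => ∃ g : D, x = τ g w₁) ∪ Xm.filter (fun x => ∃ g : D, x = τ g w₁))
    have a6 := Finset.card_union_le (Xp.filter (fun x => ∃ g : D, x = τ g w₁))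
      (Xm.filter (fun x => ∃ g : D, x = τ g w₁))
    have a7 := Finset.card_union_le (Xp.filter (fun x => ∃ g : D, x = τ g w₂))
      (Xm.filter (fun x => ∃ g : D, x = τ g w₂))
    change (_ ∪ _ : Finset V).card ≤ _
    omega
  have hlt : Bad.card < (Xp ∪ Xm).card := by
    rw [Finset.card_union_of_disjoint hdisj, hcard]
    omega
  obtain ⟨x, hx, hxB⟩ := Finset.exists_mem_notMem_of_card_lt_card hlt
  refine ⟨x, ?_, ?_, ?_, ?_⟩
  · rcases Finset.mem_union.1 hx with h3 | h3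
    · obtain ⟨ζ, hζ, h4⟩ := (hXp x).1 h3
      exact ⟨ζ, hζ, Or.inl h4.symm⟩
    · obtain ⟨ζ, hζ, h4⟩ := (hXm x).1 h3
      exact ⟨ζ, hζ, Or.inr h4.symm⟩
  · intro q hq hc
    apply hxB
    simp only [Bad, Finset.mem_union, Finset.mem_image]
    exact Or.inl (Or.inl ⟨q, hq, hc.symm⟩)
  · intro g hc
    apply hxB
    simp only [Bad, Finset.mem_union, Finset.mem_filter]
    rcases Finset.mem_union.1 hx with h3 | h3
    · exact Or.inl (Or.inr (Or.inl ⟨h3, g, hc⟩))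
    · exact Or.inl (Or.inr (Or.inr ⟨h3, g, hc⟩))
  · intro g hc
    apply hxB
    simp only [Bad, Finset.mem_union, Finset.mem_filter]
    rcases Finset.mem_union.1 hx with h3 | h3
    · exact Or.inr (Or.inl ⟨h3, g, hc⟩)
    · exact Or.inr (Or.inr ⟨h3, g, hc⟩)

end Pool.H45.S2
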