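import Mathlib

/-!
Project MP_e5a1a5_T2, row HQ: the condition on the odd part, and the abelian normal subgroup `A`.

`HQ F` (for a subgroup `F` of `G`): for every odd prime `q` and all normal subgroups `N ≥ F`, `L` of `G` such that `L N / N`
is a `q`-group, elements of order dividing `q` in `L N / N` commute.

Proofs.
* `HQ_map`: take preimages `N.comap π`, `L.comap π`; lift `a`, `b` along the surjection `π`.
* `HQ_of_sylow`: let `N, L, a, b` be given, `S` a Sylow `q`-subgroup of `G`.  `N ⊔ L` is normal, every element of it has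
  a `q`-power in `N`; hence `L ≤ S N` (for instance: `S.map π` for `π = QuotientGroup.mk' N` is a Sylow
  `q`-subgroup (`Sylow.mapSurjective`) of `G ⧸ N`, and it contains the normal `q`-subgroup `L.map π`, see
  `IsPGroup.le_sylow_of_normal`).  So `π a = π s`, `π b = π s'` with `s, s' ∈ S`; `s`, `s'` commute modulo `F` by
  hypothesis (i.e. `(s' s)⁻¹ (s s') ∈ F ≤ N`), hence so do `a`, `b` modulo `N`.
* `GA`: let `X` be the set of all `x` for which there is a prime `q ≠ 2`, `q ≠ r` with `x^q = 1` and such that all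
  conjugates of `x` lie in some Sylow `q`-subgroup `S` (hence `x` lies in every Sylow `q`-subgroup, they are all conjugate:
  `MulAction.exists_smul_eq`).  Let `A = Subgroup.closure X`.
  - `X` is invariant under conjugation, so `A` is normal (`Subgroup.closure_induction`).
  - Two elements `x, x'` of `X` (for `q`, `q'`) commute.  For a prime `q` let `O q` be the set of elements lying in every
    Sylow `q`-subgroup: a normal subgroup (`⨅ S : Sylow q K, S`, or `Subgroup.normalCore S`), a `q`-group.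
    If `q = q'`: `HQ ⊥` with `N = ⊥`, `L = O q`.  If `q ≠ q'`: `O q` and `O q'` are normal and disjoint
    (`IsPGroup.disjoint_of_ne`), so `Subgroup.commute_of_normal_of_disjoint`.
  - Hence `A` is commutative (`Subgroup.closure_induction₂`, or twice `Subgroup.closure_induction`).
  - Every `a ∈ A` satisfies `a^m = 1` for some `m` coprime to `2 * r`: true for generators (`m = q`), products
    (`Commute.mul_pow`, take the product of the exponents) and inverses.  So by Cauchy (`exists_prime_orderOf_dvd_card'`)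
    neither `2` nor `r` divides `Nat.card A`.
  - If `g` commutes with the elements of prime order of `A`, it commutes with `X`, so with `A` (`Subgroup.closure_induction`).
-/

set_option autoImplicit false

namespace Pool.H45.S2

/-- elements of order `q` commute in the normal `q`-subgroups of the quotients of `G ⧸ F`, for odd `q` -/
def HQ {G : Type*} [Group G] (F : Subgroup G) : Prop :=
  ∀ q : ℕ, q.Prime → q ≠ 2 → ∀ N L : Subgroup G, N.Normal → L.Normal → F ≤ N →
    (∀ a ∈ L, ∃ n : ℕ, a ^ q ^ n ∈ N) → ∀ a ∈ L, ∀ b ∈ L, a ^ q ∈ N → b ^ q ∈ N →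
      (b * a)⁻¹ * (a * b) ∈ N

theorem HQ_map {G M : Type*} [Group G] [Group M] (F : Subgroup G) (hF : HQ F) (π : G →* M)
    (hπ : Function.Surjective π) (F' : Subgroup M) (hF' : F ≤ F'.comap π) : HQ F' := by
  intro q hq hq2 N L hN hL hFN hL' a ha b hb haN hbN
  obtain ⟨a', rfl⟩ := hπ a
  obtain ⟨b', rfl⟩ := hπ b
  have h := hF q hq hq2 (N.comap π) (L.comap π) (hN.comap π) (hL.comap π)
    (hF'.trans (Subgroup.comap_mono hFN)) (by
      intro c hc
      obtain ⟨n, hn⟩ := hL' (π c) hc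
      refine ⟨n, ?_⟩
      rw [Subgroup.mem_comap, map_pow]
      exact hn) a' ha b' hb (by
      rw [Subgroup.mem_comap, map_pow]
      exact haN) (by
      rw [Subgroup.mem_comap, map_pow]
      exact hbN)
  rw [Subgroup.mem_comap] at h
  simpa only [map_mul, map_inv] using h

theorem HQ_of_sylow {G : Type*} [Group G] [Finite G] (F : Subgroup G)
    (h : ∀ q : ℕ, q.Prime → q ≠ 2 → ∃ S : Sylow q G, ∀ a ∈ S, ∀ b ∈ S, (b * a)⁻¹ * (a * b) ∈ F) :
    HQ F := by
  intro q hq hq2 N L hN hL hFN hL' a ha b hb _ _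
  have := Fact.mk hq
  obtain ⟨S, hS⟩ := h q hq hq2
  have hsurj : Function.Surjective (QuotientGroup.mk' N) := QuotientGroup.mk'_surjective N
  set π : G →* G ⧸ N := QuotientGroup.mk' N with hπ
  have hker : ∀ g : G, π g = 1 ↔ g ∈ N := by
    intro g
    rw [hπ, QuotientGroup.mk'_apply]
    exact QuotientGroup.eq_one_iff g
  have hLp : IsPGroup q (L.map π) := by
    rintro ⟨x, hx⟩
    obtain ⟨c, hc, rfl⟩ := Subgroup.mem_map.1 hx
    obtain ⟨n, hn⟩ := hL' c hc
    refine ⟨n, ?_⟩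
    apply Subtype.ext
    change (π c) ^ q ^ n = 1
    rw [← map_pow, hker]
    exact hn
  have hLn : (L.map π).Normal := hL.map π hsurj
  have hle : L.map π ≤ ((S.mapSurjective hsurj : Sylow q (G ⧸ N)) : Subgroup (G ⧸ N)) :=
    hLp.le_sylow_of_normal _
  have hcoe : ((S.mapSurjective hsurj : Sylow q (G ⧸ N)) : Subgroup (G ⧸ N)) =
      (S : Subgroup G).map π := Sylow.coe_mapSurjective hsurj S
  rw [hcoe] at hle
  obtain ⟨s, hs, hsa⟩ := Subgroup.mem_map.1 (hle (Subgroup.mem_map_of_mem π ha))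
  obtain ⟨s', hs', hsb⟩ := Subgroup.mem_map.1 (hle (Subgroup.mem_map_of_mem π hb))
  have h1 := (hker _).2 (hFN (hS s hs s' hs'))
  rw [← hker]
  simp only [map_mul, map_inv] at h1 ⊢
  rw [← hsa, ← hsb]
  exact h1

/-- membership in all Sylow subgroups -/
theorem mem_all {K : Type*} [Group K] [Finite K] {q : ℕ} (hq : q.Prime) (x : K)
    (hx : ∃ S : Sylow q K, ∀ g : K, g * x * g⁻¹ ∈ S) (S : Sylow q K) (g : K) : g * x * g⁻¹ ∈ S := by
  have := Fact.mk hq
  obtain ⟨T, hT⟩ := hx
  obtain ⟨k, hk⟩ := MulAction.exists_smul_eq K T S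
  have h1 := hT (k⁻¹ * g)
  have h2 : k * (k⁻¹ * g * x * (k⁻¹ * g)⁻¹) * k⁻¹ ∈ ((k • T : Sylow q K) : Subgroup K) := by
    rw [Sylow.coe_subgroup_smul, Subgroup.mem_pointwise_smul_iff_inv_smul_mem]
    have : (MulAut.conj k)⁻¹ • (k * (k⁻¹ * g * x * (k⁻¹ * g)⁻¹) * k⁻¹) =
        k⁻¹ * g * x * (k⁻¹ * g)⁻¹ := by
      rw [← map_inv, MulAut.smul_def, MulAut.conj_apply]
      group
    rw [this]
    exact h1
  rw [hk] at h2
  have e : k * (k⁻¹ * g * x * (k⁻¹ * g)⁻¹) * k⁻¹ = g * x * g⁻¹ := by group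
  rw [e] at h2
  exact h2

/-- the largest normal `q`-subgroup -/
theorem exists_core {K : Type*} [Group K] [Finite K] {q : ℕ} (hq : q.Prime) :
    ∃ L : Subgroup K, L.Normal ∧ IsPGroup q L ∧
      ∀ x : K, (∃ S : Sylow q K, ∀ g : K, g * x * g⁻¹ ∈ S) → x ∈ L := by
  obtain ⟨S⟩ : Nonempty (Sylow q K) := inferInstance
  refine ⟨(S : Subgroup K).normalCore, inferInstance, S.isPGroup'.to_le (Subgroup.normalCore_le _), ?_⟩
  intro x hx
  intro g
  exact mem_all hq x hx S g

/-- elements of the largest normal subgroups for different primes commute -/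
theorem core_commute {K : Type*} [Group K] [Finite K] {p q : ℕ} (hp : p.Prime) (hq : q.Prime)
    (hne : p ≠ q) (x y : K) (hx : ∃ S : Sylow p K, ∀ g : K, g * x * g⁻¹ ∈ S)
    (hy : ∃ S : Sylow q K, ∀ g : K, g * y * g⁻¹ ∈ S) : x * y = y * x := by
  have := Fact.mk hp
  have := Fact.mk hq
  obtain ⟨L, hL, hLp, hLx⟩ := exists_core (K := K) hp
  obtain ⟨M, hM, hMp, hMy⟩ := exists_core (K := K) hq
  have hdis : Disjoint L M := IsPGroup.disjoint_of_ne p q hne L M hLp hMp
  exact Subgroup.commute_of_normal_of_disjoint L M hL hM hdis x y (hLx x hx) (hMy y hy)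

theorem GA {K : Type*} [Group K] [Finite K] (hK : HQ (⊥ : Subgroup K)) (r : ℕ) (hr : r.Prime) :
    ∃ A : Subgroup K, A.Normal ∧ (∀ a ∈ A, ∀ b ∈ A, a * b = b * a) ∧ Odd (Nat.card A) ∧
      ¬ r ∣ Nat.card A ∧
      (∀ q : ℕ, q.Prime → q ≠ 2 → q ≠ r → ∀ x : K,
        (∃ S : Sylow q K, ∀ g : K, g * x * g⁻¹ ∈ S) → x ^ q = 1 → x ∈ A) ∧
      ∀ g : K, (∀ q : ℕ, q.Prime → ∀ a ∈ A, a ^ q = 1 → g * a = a * g) → ∀ a ∈ A, g * a = a * g := by
  let X : Set K := {x | ∃ q : ℕ, q.Prime ∧ q ≠ 2 ∧ q ≠ r ∧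
    (∃ S : Sylow q K, ∀ g : K, g * x * g⁻¹ ∈ S) ∧ x ^ q = 1}
  have hXm : ∀ x, x ∈ X ↔ ∃ q : ℕ, q.Prime ∧ q ≠ 2 ∧ q ≠ r ∧
    (∃ S : Sylow q K, ∀ g : K, g * x * g⁻¹ ∈ S) ∧ x ^ q = 1 := fun x => Iff.rfl
  have hXcomm : ∀ x ∈ X, ∀ y ∈ X, x * y = y * x := by
    intro x hx y hy
    obtain ⟨q, hq, hq2, -, hxS, hxq⟩ := (hXm x).1 hx
    obtain ⟨q', hq', hq2', -, hyS, hyq⟩ := (hXm y).1 hy
    by_cases hne : q = q'
    · subst hne
      obtain ⟨L, hL, hLp, hLx⟩ := exists_core (K := K) hq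
      have h := hK q hq hq2 ⊥ L inferInstance hL le_rfl (by
        intro a ha
        obtain ⟨n, hn⟩ := hLp ⟨a, ha⟩
        refine ⟨n, ?_⟩
        rw [Subgroup.mem_bot]
        exact congrArg Subtype.val hn) x (hLx x hxS) y (hLx y hyS) (by
        rw [Subgroup.mem_bot]
        exact hxq) (by
        rw [Subgroup.mem_bot]
        exact hyq)
      rw [Subgroup.mem_bot, inv_mul_eq_one] at h
      exact h.symm
    · exact core_commute hq hq' hne x y hxS hyS
  have hXconj : ∀ x ∈ X, ∀ k : K, k * x * k⁻¹ ∈ X := by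
    intro x hx k
    obtain ⟨q, hq, hq2, hqr, ⟨S, hS⟩, hxq⟩ := (hXm x).1 hx
    refine (hXm _).2 ⟨q, hq, hq2, hqr, ⟨S, ?_⟩, ?_⟩
    · intro g
      have := hS (g * k)
      have e : g * k * x * (g * k)⁻¹ = g * (k * x * k⁻¹) * g⁻¹ := by group
      rwa [e] at this
    · rw [conj_pow, hxq, mul_one, mul_inv_cancel]
  have hcommX : ∀ g : K, (∀ x ∈ X, g * x = x * g) → ∀ a ∈ Subgroup.closure X, g * a = a * g := by
    intro g hg a ha
    have h1 : Subgroup.closure X ≤ Subgroup.centralizer {g} := by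
      rw [Subgroup.closure_le]
      intro x hx
      rw [SetLike.mem_coe, Subgroup.mem_centralizer_singleton_iff]
      exact (hg x hx).symm
    have h2 := h1 ha
    rw [Subgroup.mem_centralizer_singleton_iff] at h2
    exact h2.symm
  have hAcomm : ∀ a ∈ Subgroup.closure X, ∀ b ∈ Subgroup.closure X, a * b = b * a := by
    intro a ha b hb
    apply hcommX a _ b hb
    intro x hx
    exact (hcommX x (fun y hy => hXcomm x hx y hy) a ha).symm
  have hexp : ∀ a ∈ Subgroup.closure X, ∃ m : ℕ, Nat.Coprime m (2 * r) ∧ a ^ m = 1 := by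
    intro a ha
    induction ha using Subgroup.closure_induction with
    | mem x hx =>
      obtain ⟨q, hq, hq2, hqr, -, hxq⟩ := (hXm x).1 hx
      refine ⟨q, ?_, hxq⟩
      apply Nat.Coprime.mul_right
      · exact (Nat.coprime_primes hq Nat.prime_two).2 hq2
      · exact (Nat.coprime_primes hq hr).2 hqr
    | one => exact ⟨1, Nat.coprime_one_left _, one_pow 1⟩
    | mul x y hx hy ihx ihy =>
      obtain ⟨m, hm, hxm⟩ := ihx
      obtain ⟨n, hn, hyn⟩ := ihy
      refine ⟨m * n, Nat.Coprime.mul_left hm hn, ?_⟩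
      have : Commute x y := hAcomm x hx y hy
      rw [this.mul_pow, pow_mul, hxm, one_pow, mul_comm m n, pow_mul, hyn, one_pow, one_mul]
    | inv x hx ihx =>
      obtain ⟨m, hm, hxm⟩ := ihx
      exact ⟨m, hm, by rw [inv_pow, hxm, inv_one]⟩
  have hnd : ∀ p : ℕ, p.Prime → p ∣ 2 * r → ¬ p ∣ Nat.card (Subgroup.closure X) := by
    intro p hp hpr hd
    have := Fact.mk hp
    obtain ⟨a, ha⟩ := exists_prime_orderOf_dvd_card' p hd
    obtain ⟨m, hm, ham⟩ := hexp a a.2
    have h1 : a ^ m = 1 := Subtype.ext (by exact_mod_cast ham)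
    have h2 : p ∣ m := by
      rw [← ha]
      exact orderOf_dvd_of_pow_eq_one h1
    have h3 := Nat.dvd_gcd h2 hpr
    rw [hm] at h3
    exact hp.one_lt.ne' (Nat.dvd_one.1 h3)
  refine ⟨Subgroup.closure X, ?_, hAcomm, ?_, ?_, ?_, ?_⟩
  · constructor
    intro a ha g
    have h1 : Subgroup.closure X ≤ (Subgroup.closure X).comap (MulAut.conj g).toMonoidHom := by
      rw [Subgroup.closure_le]
      intro x hx
      exact Subgroup.subset_closure (hXconj x hx g)
    exact h1 ha
  · rw [← Nat.not_even_iff_odd, even_iff_two_dvd]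
    exact hnd 2 Nat.prime_two (dvd_mul_right 2 r)
  · exact hnd r hr (dvd_mul_left r 2)
  · intro q hq hq2 hqr x hx hxq
    exact Subgroup.subset_closure ((hXm x).2 ⟨q, hq, hq2, hqr, hx, hxq⟩)
  · intro g hg a ha
    apply hcommX g _ a ha
    intro x hx
    obtain ⟨q, hq, -, -, -, hxq⟩ := (hXm x).1 hx
    exact hg q hq x (Subgroup.subset_closure hx) hxq

end Pool.H45.S2
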