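import Pool.Agent.H45.S2.LC
import Pool.Agent.H45.S2.HQ
import Pool.Agent.H45.SY.GR1

/-!
Project MP_e5a1a5_T2, row CAB: the module lemma in the form needed in the induction, `r = 2` (`CA`) and `r` odd (`CB`).

Proofs.
* `CA`: this is `Pool.H45.SY.lemmaA_conj` (file Pool/Agent/H45/SY/GR1.lean) for the index type
  `ι = {q // q ∈ (Nat.card G).primeFactors.erase 2}` exactly as it is used in the proof of `Pool.H45.SY.step`.  Its `hcomm`:
  for `p ≠ q` both odd, `a ∈ D p`, `b ∈ D q`, the elements `φ a`, `φ b` lie in every Sylow `p`-, resp. `q`-subgroup of `K`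
  (all Sylow subgroups are conjugate), so in the normal subgroups `Subgroup.normalCore S`, which are disjoint for `p ≠ q`
  (`IsPGroup.disjoint_of_ne`), so they commute (`Subgroup.commute_of_normal_of_disjoint`); hence
  `φ ((b * a)⁻¹ * (a * b)) = 1` and `hker` applies.
* `CB`: apply `LLconj` with `D := D ⟨2, Nat.prime_two⟩`, `s := s 2`, `t := t 2`,
  `σ q = if hq : q.Prime then s ⟨q, hq⟩ else 1`.  It gives `f`.
  For `(p : ℕ) = 2`: the first part gives the claim, the commuting with `A` by `hAcent`.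
  For `p ≠ 2`, `p ≠ r` let `g ∈ D p` commute with `s p * f`; we claim `φ g = 1` (then `g` commutes with all of `Z` by
  `hψφ`: `ψ 1 n = n`, so `g * n * g⁻¹ = n`, in particular with `t p`).  `g^(p^m) = 1` for some `m`; if `φ g ≠ 1`
  there is `n` with `φ (g^(p^n)) ≠ 1`, `(φ (g^(p^n)))^p = 1`.  `g' = g^(p^n) ∈ D p` commutes with `s p * f`, `φ g' ∈ A` by
  `hDO` and `hAq`, so the second part of `LLconj` gives `φ g' = 1`, a contradiction.
-/

set_option autoImplicit false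

namespace Pool.H45.S2

open Pool.H45.SY

universe u

theorem CA {G : Type u} [Group G] [Finite G] (Z : Subgroup G) [Z.Normal]
    (hZc : ∀ a ∈ Z, ∀ b ∈ Z, a * b = b * a) (hZr : ∀ a ∈ Z, a ^ 2 = 1)
    {K : Type u} [Group K] [Finite K] (φ : G →* K) (hker : ∀ g, φ g = 1 → ∀ n ∈ Z, g * n = n * g)
    (D : Nat.Primes → Subgroup G) (hD : ∀ p : Nat.Primes, IsPGroup (p : ℕ) (D p))
    (hDO : ∀ p : Nat.Primes, (p : ℕ) ≠ 2 → ∀ a ∈ D p,
      ∃ S : Sylow (p : ℕ) K, ∀ g : K, g * φ a * g⁻¹ ∈ S)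
    (s t : Nat.Primes → G) (hs : ∀ p, s p ∈ Z) (ht : ∀ p, t p ∈ Z) :
    ∃ f ∈ Z, ∀ p : Nat.Primes, (p : ℕ) ≠ 2 → (p : ℕ) ∣ Nat.card G → ∀ g ∈ D p,
      g * (s p * f) = (s p * f) * g → g * t p = t p * g := by
  classical
  let ι : Type := {q // q ∈ (Nat.card G).primeFactors.erase 2}
  have hq : ∀ i : ι, i.1.Prime ∧ i.1 ∣ Nat.card G ∧ i.1 ≠ 2 := by
    intro i
    have h := i.2
    rw [Finset.mem_erase, Nat.mem_primeFactors] at h
    exact ⟨h.2.1, h.2.2.1, h.1⟩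
  let P : ι → Nat.Primes := fun i => ⟨i.1, (hq i).1⟩
  obtain ⟨f, hfZ, hf⟩ := lemmaA_conj Nat.prime_two Z hZc hZr (fun i : ι => i.1) (fun i => (hq i).1)
    (fun i => (hq i).2.2) Subtype.val_injective (fun i => D (P i)) (fun i => hD (P i)) (by
      intro i j hij a ha b hb
      apply hker
      have hne : (i.1 : ℕ) ≠ j.1 := fun h => hij (Subtype.ext h)
      have h1 := core_commute (hq i).1 (hq j).1 hne (φ a) (φ b) (hDO (P i) (hq i).2.2 a ha)
        (hDO (P j) (hq j).2.2 b hb)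
      rw [map_mul, map_inv, map_mul, map_mul, h1, inv_mul_cancel]) (fun i => s (P i))
      (fun i => t (P i)) (fun i => hs _) (fun i => ht _)
  refine ⟨f, hfZ, ?_⟩
  intro p hp2 hpd g hg hc
  have hpι : (p : ℕ) ∈ (Nat.card G).primeFactors.erase 2 := by
    rw [Finset.mem_erase, Nat.mem_primeFactors]
    exact ⟨hp2, p.2, hpd, Nat.card_pos.ne'⟩
  exact hf ⟨p, hpι⟩ g hg hc

theorem CB {G : Type u} [Group G] [Finite G] {r : ℕ} (hr : r.Prime) (hr2 : r ≠ 2)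
    (Z : Subgroup G) [Z.Normal]
    (hZc : ∀ a ∈ Z, ∀ b ∈ Z, a * b = b * a) (hZr : ∀ a ∈ Z, a ^ r = 1)
    {K : Type u} [Group K] [Finite K] (φ : G →* K) (ψ : K →* MulAut Z)
    (hψφ : ∀ (g : G) (n : Z), ((ψ (φ g) n : Z) : G) = g * n * g⁻¹)
    (A : Subgroup K) [A.Normal] (hAc : ∀ a ∈ A, ∀ b ∈ A, a * b = b * a)
    (hAodd : Odd (Nat.card A)) (hAr : ¬ r ∣ Nat.card A)
    (hAq : ∀ q : ℕ, q.Prime → q ≠ 2 → q ≠ r → ∀ x : K,
      (∃ S : Sylow q K, ∀ g : K, g * x * g⁻¹ ∈ S) → x ^ q = 1 → x ∈ A)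
    (hAcent : ∀ g : K, (∀ q : ℕ, q.Prime → ∀ a ∈ A, a ^ q = 1 → g * a = a * g) →
      ∀ a ∈ A, g * a = a * g)
    (z : K) (hz : z ∈ A) (hgood : GoodK ψ A z)
    (D : Nat.Primes → Subgroup G) (hD : ∀ p : Nat.Primes, IsPGroup (p : ℕ) (D p))
    (hDO : ∀ p : Nat.Primes, (p : ℕ) ≠ 2 → (p : ℕ) ≠ r → ∀ a ∈ D p,
      ∃ S : Sylow (p : ℕ) K, ∀ g : K, g * φ a * g⁻¹ ∈ S)
    (hD2 : ∀ p : Nat.Primes, (p : ℕ) = 2 → ∀ g ∈ D p, φ g * z = z * φ g)
    (s t : Nat.Primes → G) (hs : ∀ p, s p ∈ Z) (ht : ∀ p, t p ∈ Z) :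
    ∃ f ∈ Z, ∀ p : Nat.Primes, (p : ℕ) ≠ r → ∀ g ∈ D p,
      g * (s p * f) = (s p * f) * g →
        g * t p = t p * g ∧ ((p : ℕ) = 2 → ∀ a ∈ A, φ g * a = a * φ g) := by
  classical
  let two : Nat.Primes := ⟨2, Nat.prime_two⟩
  let σ : ℕ → G := fun q => if hq : q.Prime then s ⟨q, hq⟩ else 1
  have hσ : ∀ p : Nat.Primes, σ (p : ℕ) = s p := by
    intro p
    exact dif_pos p.2
  have hσZ : ∀ q, σ q ∈ Z := by
    intro q
    by_cases hq : q.Prime
    · have : σ q = s ⟨q, hq⟩ := dif_pos hq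
      rw [this]
      exact hs _
    · have : σ q = 1 := dif_neg hq
      rw [this]
      exact Z.one_mem
  obtain ⟨f, hfZ, hf1, hf2⟩ := LLconj hr hr2 Z hZc hZr φ ψ hψφ A hAc hAodd hAr z hz hgood (D two)
    (hD two) (hD2 two rfl) (s two) (t two) (hs two) (ht two) σ hσZ
  refine ⟨f, hfZ, ?_⟩
  intro p hpr g hg hc
  by_cases hp2 : (p : ℕ) = 2
  · have hp : p = two := Subtype.ext hp2
    rw [hp] at hg hc ⊢
    obtain ⟨h1, h2⟩ := hf1 g hg hc
    exact ⟨h1, fun _ => hAcent (φ g) h2⟩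
  · have h1 : φ g = 1 := by
      by_contra hne
      obtain ⟨n, hn⟩ := hD p ⟨g, hg⟩
      have hex : ∃ n : ℕ, (φ g) ^ (p : ℕ) ^ n = 1 := by
        refine ⟨n, ?_⟩
        have h3 : g ^ (p : ℕ) ^ n = 1 := congrArg Subtype.val hn
        rw [← map_pow, h3, map_one]
      obtain ⟨i, hi⟩ : ∃ i, Nat.find hex = i + 1 := by
        rcases Nat.eq_zero_or_eq_succ_pred (Nat.find hex) with h | h
        · exfalso
          have := Nat.find_spec hex
          rw [h, pow_zero, pow_one] at this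
          exact hne this
        · exact ⟨_, h⟩
      have hi1 : (φ g) ^ (p : ℕ) ^ i ≠ 1 := Nat.find_min hex (by omega)
      have hi2 : (φ g) ^ (p : ℕ) ^ (i + 1) = 1 := by
        rw [← hi]
        exact Nat.find_spec hex
      have hgD : g ^ (p : ℕ) ^ i ∈ D p := (D p).pow_mem hg _
      have hgp : (φ (g ^ (p : ℕ) ^ i)) ^ (p : ℕ) = 1 := by
        rw [map_pow, ← pow_mul, ← pow_succ]
        exact hi2
      have hgA : φ (g ^ (p : ℕ) ^ i) ∈ A :=
        hAq p p.2 hp2 hpr _ (hDO p hp2 hpr _ hgD) hgp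
      apply hi1
      rw [← map_pow]
      apply hf2 p p.2 _ hgA hgp
      rw [hσ]
      have h4 : Commute g (s p * f) := hc
      exact (h4.pow_left _).eq
    have h2 : g * t p = t p * g := by
      have h3 := hψφ g ⟨t p, ht p⟩
      rw [h1, map_one] at h3
      change t p = g * t p * g⁻¹ at h3
      rw [eq_mul_inv_iff_mul_eq] at h3
      exact h3.symm
    exact ⟨h2, fun h => absurd h hp2⟩

end Pool.H45.S2
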