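import Mathlib

/-!
Project MP_e5a1a5_T2, row DE1: the idempotents of a finite abelian group of invertible order.

`eg a` is the averaging idempotent of `a` in the group algebra, `pg S` is the product of `eg a` (`a` in `S`)
and `1 - eg a` (`a` not in `S`), `pj ρ S` is the corresponding operator on `V`.

Proofs.
* `of_mul_eg`: `of a * Σ_{k<N} of (a^k) = Σ_{k<N} of (a^(k+1))` and `a^N = 1` (`N = Nat.card B`,
  `pow_card_eq_one'`), so the sum is only shifted (`Finset.sum_range_succ'` / `Finset.sum_range_succ`).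
* `eg_idem`: `of (a^k) * eg a = eg a` by `of_mul_eg` and induction on `k`, so
  `eg a * eg a = N⁻¹ • Σ_k eg a = eg a` (here `(N : F) ≠ 0`).
* `sum_pg`: `Fintype.prod_add` (or `Finset.prod_add`) applied to `eg a + (1 - eg a) = 1`.
* `eg_mul_pg_mem`: for `a ∈ S` pull the factor `eg a` out of the first product (`Finset.mul_prod_erase`) and use
  `eg_idem`.  `eg_mul_pg_not_mem`: for `a ∉ S` pull the factor `1 - eg a` out of the second product;
  `eg a * (1 - eg a) = 0`.
* `pg_orth`: for `S ≠ T` choose `a` in exactly one of them; if `a ∈ T`, `a ∉ S`: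
  `pg S * pg T = pg S * (eg a * pg T) = (eg a * pg S) * pg T = 0`, the other case is symmetric.
* `pg_idem`: multiply `sum_pg` by `pg S` and use `pg_orth`.
* The operator versions follow by applying the algebra homomorphism `MonoidAlgebra.lift`.
* `pj_mem`: `of a * pg S = of a * eg a * pg S = eg a * pg S = pg S` for `a ∈ S`.
* `pj_not_mem`: if `a ∉ S` and `w = pj ρ S v` satisfies `ρ a w = w`, then `ρ (a^k) w = w` for all `k`, so the
  operator of `eg a` fixes `w` (`N` equal summands, `(N : F) ≠ 0`); but it kills `w` by `eg_mul_pg_not_mem`.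
* `pj_equiv`: for a fixed linear `T` with `T ∘ ρ a = ρ (θ a) ∘ T` consider the algebra map
  `M := MonoidAlgebra.mapDomainAlgHom` of `θ`; `T ∘ lift ρ x = lift ρ (M x) ∘ T` for all `x` in the group algebra
  (both sides are linear in `x`; check it on `single a c`, e.g. with `MonoidAlgebra.induction_on` or
  `Finsupp.induction_linear`).  And `M (eg a) = eg (θ a)`, `M (pg S) = pg (S.map θ)` (`Finset.prod_map`, and
  `(S.map θ)ᶜ = Sᶜ.map θ`).
-/

set_option autoImplicit false

namespace Pool.H45.S2

open Finset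

variable (F : Type*) [Field F] {B : Type*} [CommGroup B]

/-- the averaging idempotent of `a` -/
noncomputable def eg (a : B) : MonoidAlgebra F B :=
  ((Nat.card B : F)⁻¹) • ∑ k ∈ range (Nat.card B), MonoidAlgebra.of F B (a ^ k)

/-- the idempotent of a set `S` of group elements -/
noncomputable def pg [Fintype B] [DecidableEq B] (S : Finset B) : MonoidAlgebra F B :=
  (∏ a ∈ S, eg F a) * ∏ a ∈ Sᶜ, (1 - eg F a)

theorem of_mul_eg [Finite B] (a : B) : MonoidAlgebra.of F B a * eg F a = eg F a := by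
  unfold eg
  rw [mul_smul_comm]
  congr 1
  rw [Finset.mul_sum]
  have h1 : ∀ k ∈ range (Nat.card B), MonoidAlgebra.of F B a * MonoidAlgebra.of F B (a ^ k) =
      MonoidAlgebra.of F B (a ^ (k + 1)) := by
    intro k _
    rw [← map_mul, pow_succ']
  rw [Finset.sum_congr rfl h1]
  have h2 := Finset.sum_range_succ' (fun k => MonoidAlgebra.of F B (a ^ k)) (Nat.card B)
  have h3 := Finset.sum_range_succ (fun k => MonoidAlgebra.of F B (a ^ k)) (Nat.card B)
  rw [h2] at h3
  have h4 : a ^ Nat.card B = 1 := pow_card_eq_one'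
  rw [h4, pow_zero] at h3
  exact add_right_cancel h3

theorem of_pow_mul_eg [Finite B] (a : B) (k : ℕ) : MonoidAlgebra.of F B (a ^ k) * eg F a = eg F a := by
  induction k with
  | zero => rw [pow_zero, map_one, one_mul]
  | succ k ih => rw [pow_succ, map_mul, mul_assoc, of_mul_eg, ih]

theorem eg_idem [Finite B] (hN : (Nat.card B : F) ≠ 0) (a : B) : eg F a * eg F a = eg F a := by
  conv_lhs => enter [1]; unfold eg
  rw [smul_mul_assoc, Finset.sum_mul, Finset.sum_congr rfl (fun k _ => of_pow_mul_eg F a k),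
    Finset.sum_const, card_range, ← Nat.cast_smul_eq_nsmul F, smul_smul, inv_mul_cancel₀ hN, one_smul]

theorem sum_pg [Fintype B] [DecidableEq B] : ∑ S : Finset B, pg F S = 1 := by
  have h := Finset.prod_add (fun a : B => eg F a) (fun a : B => 1 - eg F a) Finset.univ
  simp only [add_sub_cancel] at h
  rw [Finset.prod_const_one, Finset.powerset_univ] at h
  rw [h]
  refine Finset.sum_congr rfl fun S _ => ?_
  unfold pg
  rw [Finset.compl_eq_univ_sdiff]

theorem eg_mul_pg_mem [Fintype B] [DecidableEq B] (hN : (Nat.card B : F) ≠ 0) (a : B) (S : Finset B)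
    (h : a ∈ S) : eg F a * pg F S = pg F S := by
  unfold pg
  rw [← Finset.mul_prod_erase S _ h, ← mul_assoc, ← mul_assoc, eg_idem F hN]

theorem eg_mul_pg_not_mem [Fintype B] [DecidableEq B] (hN : (Nat.card B : F) ≠ 0) (a : B) (S : Finset B)
    (h : a ∉ S) : eg F a * pg F S = 0 := by
  unfold pg
  have h' : a ∈ Sᶜ := Finset.mem_compl.2 h
  rw [← Finset.mul_prod_erase Sᶜ _ h']
  have e : eg F a * ((∏ a ∈ S, eg F a) * ((1 - eg F a) * ∏ x ∈ Sᶜ.erase a, (1 - eg F x))) =
      (eg F a * (1 - eg F a)) * ((∏ a ∈ S, eg F a) * ∏ x ∈ Sᶜ.erase a, (1 - eg F x)) := by ring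
  rw [e, mul_sub, mul_one, eg_idem F hN, sub_self, zero_mul]

theorem pg_orth [Fintype B] [DecidableEq B] (hN : (Nat.card B : F) ≠ 0) (S T : Finset B) (h : S ≠ T) :
    pg F S * pg F T = 0 := by
  have h1 : ∃ a, (a ∈ S ∧ a ∉ T) ∨ (a ∉ S ∧ a ∈ T) := by
    by_contra hcon
    push Not at hcon
    apply h
    ext a
    have := hcon a
    tauto
  obtain ⟨a, ⟨h2, h3⟩ | ⟨h2, h3⟩⟩ := h1
  · rw [← eg_mul_pg_mem F hN a S h2]
    have e : eg F a * pg F S * pg F T = pg F S * (eg F a * pg F T) := by ring
    rw [e, eg_mul_pg_not_mem F hN a T h3, mul_zero]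
  · rw [← eg_mul_pg_mem F hN a T h3]
    have e : pg F S * (eg F a * pg F T) = (eg F a * pg F S) * pg F T := by ring
    rw [e, eg_mul_pg_not_mem F hN a S h2, zero_mul]

theorem pg_idem [Fintype B] [DecidableEq B] (hN : (Nat.card B : F) ≠ 0) (S : Finset B) :
    pg F S * pg F S = pg F S := by
  have h := congrArg (fun x => pg F S * x) (sum_pg F (B := B))
  simp only [mul_one] at h
  rw [Finset.mul_sum, Finset.sum_eq_single S] at h
  · exact h
  · intro T _ hT
    exact pg_orth F hN S T (Ne.symm hT)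
  · intro hS
    exact absurd (Finset.mem_univ S) hS

variable {F} {V : Type*} [AddCommGroup V] [Module F V]

/-- the projection of `V` belonging to `S` -/
noncomputable def pj [Fintype B] [DecidableEq B] (ρ : B →* Module.End F V) (S : Finset B) :
    Module.End F V :=
  MonoidAlgebra.lift F (Module.End F V) B ρ (pg F S)

theorem lift_of (ρ : B →* Module.End F V) (a : B) :
    MonoidAlgebra.lift F (Module.End F V) B ρ (MonoidAlgebra.of F B a) = ρ a :=
  MonoidAlgebra.lift_of ρ a

theorem pj_sum [Fintype B] [DecidableEq B] (ρ : B →* Module.End F V) (v : V) :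
    ∑ S : Finset B, pj ρ S v = v := by
  have h := congrArg (fun x => MonoidAlgebra.lift F (Module.End F V) B ρ x v) (sum_pg F (B := B))
  simp only [map_sum, map_one, LinearMap.sum_apply, Module.End.one_apply] at h
  exact h

theorem pj_idem [Fintype B] [DecidableEq B] (hN : (Nat.card B : F) ≠ 0) (ρ : B →* Module.End F V)
    (S : Finset B) (v : V) : pj ρ S (pj ρ S v) = pj ρ S v := by
  unfold pj
  rw [← Module.End.mul_apply, ← map_mul, pg_idem F hN]

theorem pj_orth [Fintype B] [DecidableEq B] (hN : (Nat.card B : F) ≠ 0) (ρ : B →* Module.End F V)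
    (S T : Finset B) (h : S ≠ T) (v : V) : pj ρ S (pj ρ T v) = 0 := by
  unfold pj
  rw [← Module.End.mul_apply, ← map_mul, pg_orth F hN S T h, map_zero, LinearMap.zero_apply]

theorem pj_comm [Fintype B] [DecidableEq B] (ρ : B →* Module.End F V) (S : Finset B) (a : B) (v : V) :
    ρ a (pj ρ S v) = pj ρ S (ρ a v) := by
  unfold pj
  rw [← lift_of ρ a, ← Module.End.mul_apply, ← map_mul, mul_comm, map_mul, Module.End.mul_apply]

theorem pj_mem [Fintype B] [DecidableEq B] (hN : (Nat.card B : F) ≠ 0) (ρ : B →* Module.End F V)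
    (S : Finset B) (a : B) (h : a ∈ S) (v : V) : ρ a (pj ρ S v) = pj ρ S v := by
  unfold pj
  rw [← lift_of ρ a, ← Module.End.mul_apply, ← map_mul, ← eg_mul_pg_mem F hN a S h, ← mul_assoc,
    of_mul_eg]

theorem pj_not_mem [Fintype B] [DecidableEq B] (hN : (Nat.card B : F) ≠ 0) (ρ : B →* Module.End F V)
    (S : Finset B) (a : B) (h : a ∉ S) (v : V) (hv : ρ a (pj ρ S v) = pj ρ S v) : pj ρ S v = 0 := by
  have h1 : MonoidAlgebra.lift F (Module.End F V) B ρ (eg F a) (pj ρ S v) = 0 := by
    unfold pj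
    rw [← Module.End.mul_apply, ← map_mul, eg_mul_pg_not_mem F hN a S h, map_zero,
      LinearMap.zero_apply]
  have h2 : ∀ k : ℕ, ρ (a ^ k) (pj ρ S v) = pj ρ S v := by
    intro k
    induction k with
    | zero => rw [pow_zero, map_one, Module.End.one_apply]
    | succ k ih => rw [pow_succ, map_mul, Module.End.mul_apply, hv, ih]
  have h3 : MonoidAlgebra.lift F (Module.End F V) B ρ (eg F a) (pj ρ S v) = pj ρ S v := by
    unfold eg
    rw [map_smul, map_sum, LinearMap.smul_apply, LinearMap.sum_apply]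
    rw [Finset.sum_congr rfl (fun k _ => by rw [lift_of, h2 k])]
    rw [Finset.sum_const, card_range, ← Nat.cast_smul_eq_nsmul F, smul_smul, inv_mul_cancel₀ hN,
      one_smul]
  rw [h1] at h3
  exact h3.symm

theorem lift_equiv (ρ : B →* Module.End F V) (θ : B ≃* B)
    (T : V →ₗ[F] V) (h : ∀ a v, T (ρ a v) = ρ (θ a) (T v)) (x : MonoidAlgebra F B) (v : V) :
    T (MonoidAlgebra.lift F (Module.End F V) B ρ x v) =
      MonoidAlgebra.lift F (Module.End F V) B ρ
        (MonoidAlgebra.mapDomainAlgHom F F θ.toMonoidHom x) (T v) := by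
  induction x using MonoidAlgebra.induction_on with
  | of a =>
    rw [lift_of, h]
    have : MonoidAlgebra.mapDomainAlgHom F F θ.toMonoidHom (MonoidAlgebra.of F B a) =
        MonoidAlgebra.of F B (θ a) := by
      simp [MonoidAlgebra.mapDomainAlgHom]
    rw [this, lift_of]
  | add x y hx hy =>
    rw [map_add, LinearMap.add_apply, map_add, hx, hy, map_add, map_add, LinearMap.add_apply]
  | smul c x hx =>
    rw [map_smul, LinearMap.smul_apply, map_smul, hx, map_smul, map_smul, LinearMap.smul_apply]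

theorem pj_equiv [Fintype B] [DecidableEq B] (ρ : B →* Module.End F V) (θ : B ≃* B)
    (T : V →ₗ[F] V) (h : ∀ a v, T (ρ a v) = ρ (θ a) (T v)) (S : Finset B) (v : V) :
    T (pj ρ S v) = pj ρ (S.map θ.toEquiv.toEmbedding) (T v) := by
  unfold pj
  rw [lift_equiv ρ θ T h]
  congr 2
  set M := MonoidAlgebra.mapDomainAlgHom F F θ.toMonoidHom with hM
  have e1 : ∀ a, M (MonoidAlgebra.of F B a) = MonoidAlgebra.of F B (θ a) := by
    intro a
    simp [hM, MonoidAlgebra.mapDomainAlgHom]
  have e2 : ∀ a, M (eg F a) = eg F (θ a) := by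
    intro a
    unfold eg
    rw [map_smul, map_sum]
    congr 1
    refine Finset.sum_congr rfl fun k _ => ?_
    rw [e1, map_pow]
  have e3 : (S.map θ.toEquiv.toEmbedding)ᶜ = Sᶜ.map θ.toEquiv.toEmbedding := by
    ext a
    simp only [Finset.mem_compl, Finset.mem_map_equiv]
  unfold pg
  rw [e3, Finset.prod_map, Finset.prod_map, map_mul, map_prod, map_prod]
  congr 1
  · refine Finset.prod_congr rfl fun a _ => ?_
    rw [e2]
    rfl
  · refine Finset.prod_congr rfl fun a _ => ?_
    rw [map_sub, map_one, e2]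
    rfl

end Pool.H45.S2
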