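import Pool.Agent.H45.S2.DE1

/-!
Project MP_e5a1a5_T2, row DE2: the set `S` of a nonzero component behaves like the kernel of a character.

Proofs.
* `pj_char`: let `w = pj ρ S v ≠ 0`, `R = MonoidAlgebra F B` (a commutative ring), and let `I` be the ideal of all
  `x : R` with `MonoidAlgebra.lift F (Module.End F V) B ρ x w = 0`.  It is proper (`1` does not kill `w`).  Choose a
  maximal ideal `M ≥ I` (`Ideal.exists_le_maximal`); `E = R ⧸ M` is a field (`Ideal.Quotient.field M`) and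
  `χ a = Ideal.Quotient.mk M (MonoidAlgebra.of F B a)`.
  If `a ∈ S` then `of a - 1 ∈ I` by `pj_mem`, so `χ a = 1`.
  If `a ∉ S` then `eg F a ∈ I ≤ M` by `eg_mul_pg_not_mem` (`lift (eg a) (lift (pg S) v) = lift (eg a * pg S) v = 0`).
  If `χ a = 1` then modulo `M` the element `eg F a` equals `N⁻¹ • Σ_k (χ a)^k = N⁻¹ • N • 1 = 1`
  (`N = Nat.card B`), so `1 ∈ M`, a contradiction.
* `pj_root`: `χ b` is a root of unity of prime order `q` (`(χ b)^q = 1`, `χ b ≠ 1`), i.e. `IsPrimitiveRoot (χ b) q`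
  (`IsPrimitiveRoot` from `orderOf_eq_prime` and `IsPrimitiveRoot.orderOf`), and `(χ a)^q = 1`, so
  `χ a = (χ b)^j` (`IsPrimitiveRoot.eq_pow_of_pow_eq_one`, needs `[NeZero q]`); hence `χ (b^j * a⁻¹) = 1`.
* `pj_closed`: from `pj_char`.
* `pj_pow`: `(χ a)^m = 1` and `(χ a)^q = 1` with `m`, `q` coprime give `χ a = 1`
  (`orderOf (χ a)` divides both).
* `pj_prime`: if `z ∉ S` then some prime `q` dividing `N = Nat.card B` has
  `z ^ ordCompl[q] N ∉ S`, where `ordCompl[q] N = N / q ^ N.factorization q`.  Let `d = orderOf (χ z)`; `d ∣ N`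
  because `z^N = 1`, and `d ≠ 1`.  Take a prime `q ∣ d`.  If `z ^ ordCompl[q] N ∈ S` then
  `d ∣ ordCompl[q] N`, so `q ∣ ordCompl[q] N`, against `Nat.not_dvd_ordCompl`.
-/

set_option autoImplicit false

namespace Pool.H45.S2

open Finset

universe u v w

variable {F : Type u} [Field F] {B : Type v} [CommGroup B] {V : Type w} [AddCommGroup V] [Module F V]
  [Fintype B] [DecidableEq B]

theorem pj_char (hN : (Nat.card B : F) ≠ 0) (ρ : B →* Module.End F V) (S : Finset B) (v : V)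
    (hv : pj ρ S v ≠ 0) :
    ∃ (E : Type (max u v)) (_ : Field E) (χ : B →* E), ∀ a, χ a = 1 ↔ a ∈ S := by
  set w := pj ρ S v with hw
  let I : Ideal (MonoidAlgebra F B) :=
    { carrier := {x | MonoidAlgebra.lift F (Module.End F V) B ρ x w = 0}
      add_mem' := by
        intro a b ha hb
        simp only [Set.mem_ofPred_eq] at ha hb ⊢
        rw [map_add, LinearMap.add_apply, ha, hb, add_zero]
      zero_mem' := by
        simp only [Set.mem_ofPred_eq]
        rw [map_zero, LinearMap.zero_apply]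
      smul_mem' := by
        intro c x hx
        simp only [Set.mem_ofPred_eq] at hx ⊢
        rw [smul_eq_mul, map_mul, Module.End.mul_apply, hx, map_zero] }
  have hIm : ∀ x, x ∈ I ↔ MonoidAlgebra.lift F (Module.End F V) B ρ x w = 0 := fun x => Iff.rfl
  have hI : I ≠ ⊤ := by
    intro h
    have h1 : (1 : MonoidAlgebra F B) ∈ I := by
      rw [h]
      exact Submodule.mem_top
    rw [hIm, map_one, Module.End.one_apply] at h1
    exact hv h1
  obtain ⟨M, hM, hIM⟩ := Ideal.exists_le_maximal I hI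
  have hm : M.IsMaximal := hM
  refine ⟨MonoidAlgebra F B ⧸ M, Ideal.Quotient.field M,
    ((Ideal.Quotient.mk M).toMonoidHom).comp (MonoidAlgebra.of F B), ?_⟩
  intro a
  change Ideal.Quotient.mk M (MonoidAlgebra.of F B a) = 1 ↔ _
  constructor
  · intro h
    by_contra ha
    have h1 : eg F a ∈ M := by
      apply hIM
      rw [hIm, hw]
      unfold pj
      rw [← Module.End.mul_apply, ← map_mul, eg_mul_pg_not_mem F hN a S ha, map_zero,
        LinearMap.zero_apply]
    have h2 : Ideal.Quotient.mk M (eg F a) = 1 := by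
      unfold eg
      rw [Algebra.smul_def, map_mul, map_sum]
      have h3 : ∀ k ∈ range (Nat.card B), Ideal.Quotient.mk M (MonoidAlgebra.of F B (a ^ k)) = 1 := by
        intro k _
        rw [map_pow, map_pow, h, one_pow]
      rw [Finset.sum_congr rfl h3, Finset.sum_const, card_range, nsmul_eq_mul, mul_one]
      have h4 : ((Nat.card B : ℕ) : MonoidAlgebra F B ⧸ M) =
          Ideal.Quotient.mk M (algebraMap F (MonoidAlgebra F B) (Nat.card B : F)) := by
        rw [map_natCast, map_natCast]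
      rw [h4, ← map_mul, ← map_mul, inv_mul_cancel₀ hN, map_one, map_one]
    rw [Ideal.Quotient.eq_zero_iff_mem.2 h1] at h2
    apply hm.ne_top
    rw [Ideal.eq_top_iff_one]
    rw [← Ideal.Quotient.eq_zero_iff_mem, map_one]
    exact h2.symm
  · intro ha
    have h1 : MonoidAlgebra.of F B a - 1 ∈ M := by
      apply hIM
      rw [hIm, map_sub, map_one, LinearMap.sub_apply, Module.End.one_apply, lift_of, hw,
        pj_mem hN ρ S a ha, sub_self]
    have h2 := Ideal.Quotient.eq_zero_iff_mem.2 h1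
    rw [map_sub, map_one, sub_eq_zero] at h2
    exact h2

theorem pj_closed (hN : (Nat.card B : F) ≠ 0) (ρ : B →* Module.End F V) (S : Finset B) (v : V)
    (hv : pj ρ S v ≠ 0) :
    (1 : B) ∈ S ∧ (∀ a ∈ S, ∀ b ∈ S, a * b ∈ S) ∧ ∀ a ∈ S, a⁻¹ ∈ S := by
  obtain ⟨E, _, χ, h⟩ := pj_char hN ρ S v hv
  refine ⟨(h 1).1 (map_one χ), ?_, ?_⟩
  · intro a ha b hb
    rw [← h] at ha hb ⊢
    rw [map_mul, ha, hb, one_mul]
  · intro a ha
    rw [← h] at ha ⊢
    have := map_mul χ a a⁻¹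
    rw [mul_inv_cancel, map_one, ha, one_mul] at this
    exact this.symm

theorem pj_root (hN : (Nat.card B : F) ≠ 0) (ρ : B →* Module.End F V) (S : Finset B) (v : V)
    (hv : pj ρ S v ≠ 0) (q : ℕ) (hq : q.Prime) (a b : B) (ha : a ^ q = 1) (hb : b ^ q = 1)
    (hbS : b ∉ S) : ∃ j : ℕ, b ^ j * a⁻¹ ∈ S := by
  obtain ⟨E, _, χ, h⟩ := pj_char hN ρ S v hv
  have h1 : (χ b) ^ q = 1 := by rw [← map_pow, hb, map_one]
  have h2 : (χ a) ^ q = 1 := by rw [← map_pow, ha, map_one]
  have h3 : χ b ≠ 1 := fun hc => hbS ((h b).1 hc)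
  have := Fact.mk hq
  have h4 : orderOf (χ b) = q := orderOf_eq_prime h1 h3
  have h5 : IsPrimitiveRoot (χ b) q := by
    rw [← h4]
    exact IsPrimitiveRoot.orderOf _
  have : NeZero q := ⟨hq.ne_zero⟩
  obtain ⟨i, _, hi⟩ := h5.eq_pow_of_pow_eq_one h2
  refine ⟨i, ?_⟩
  rw [← h, map_mul, map_pow, hi, ← map_mul, mul_inv_cancel, map_one]

theorem pj_pow (hN : (Nat.card B : F) ≠ 0) (ρ : B →* Module.End F V) (S : Finset B) (v : V)
    (hv : pj ρ S v ≠ 0) (q m : ℕ) (hqm : Nat.Coprime m q) (a : B) (ha : a ^ q = 1) (ham : a ^ m ∈ S) :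
    a ∈ S := by
  obtain ⟨E, _, χ, h⟩ := pj_char hN ρ S v hv
  have h2 : (χ a) ^ q = 1 := by rw [← map_pow, ha, map_one]
  have h3 : (χ a) ^ m = 1 := by rw [← map_pow, h]; exact ham
  have h4 : orderOf (χ a) ∣ q := orderOf_dvd_of_pow_eq_one h2
  have h5 : orderOf (χ a) ∣ m := orderOf_dvd_of_pow_eq_one h3
  have h6 : orderOf (χ a) = 1 := Nat.eq_one_of_dvd_coprimes hqm h5 h4
  rw [← h]
  exact orderOf_eq_one_iff.1 h6

theorem pj_prime (hN : (Nat.card B : F) ≠ 0) (ρ : B →* Module.End F V) (S : Finset B) (v : V)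
    (hv : pj ρ S v ≠ 0) (z : B) (hz : z ∉ S) :
    ∃ q : ℕ, q.Prime ∧ q ∣ Nat.card B ∧
      z ^ (Nat.card B / q ^ (Nat.card B).factorization q) ∉ S := by
  obtain ⟨E, _, χ, h⟩ := pj_char hN ρ S v hv
  have h1 : orderOf (χ z) ∣ Nat.card B := by
    apply orderOf_dvd_of_pow_eq_one
    rw [← map_pow, pow_card_eq_one', map_one]
  have h2 : orderOf (χ z) ≠ 1 := by
    intro hc
    exact hz ((h z).1 (orderOf_eq_one_iff.1 hc))
  obtain ⟨q, hq, hqd⟩ := Nat.exists_prime_and_dvd h2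
  refine ⟨q, hq, hqd.trans h1, ?_⟩
  intro hc
  rw [← h, map_pow] at hc
  have h3 := hqd.trans (orderOf_dvd_of_pow_eq_one hc)
  exact Nat.not_dvd_ordCompl hq Nat.card_pos.ne' h3

end Pool.H45.S2
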