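import Pool.Agent.H49.SylInd

/-!
Project MP_e5a1a5_T2, row EW: elementary abelian normal subgroups.

Proofs.
* `exists_elem_in`: the derived series of `N` mapped to `G`: let `D n = (derivedSeries N n).map N.subtype`; these are normal in
  `G` (`derivedSeries N n` is characteristic in `N`; or prove by induction that `⁅D n, D n⁆ = D (n+1)` is normal,
  `Subgroup.commutator_normal`).  Take the last nontrivial one, it is abelian; a prime `r` dividing its order; and the
  elements `a` of it with `a^r = 1`.  The proof of `exists_elem_abelian` (Pool/Agent/H49/SylInd.lean) does exactly this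
  for `N = ⊤`: copy it with `A := ` the last nontrivial member of the series `D 0 = N`, `D (n+1) = ⁅D n, D n⁆` of
  subgroups of `G` (`D n ≤ N`, some `D n = ⊥` because `N` is solvable).
* `exists_Z`: if `F ≠ ⊥` take the elements of `F` that commute with all elements of `F` and have `r`-th power `1`, for a
  prime `r` dividing the order of the centre of `F`: this is the construction of `Z` in `Pool.H45.SY.ind_aux`
  (file Pool/Agent/H45/SY/GR2.lean, copy it; the lemma `Group.IsNilpotent.center_ne_bot`).  If `F = ⊥` take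
  `exists_elem_abelian G`.
-/

set_option autoImplicit false

namespace Pool.H45.S2

open Pool.Agent.H49.Syl

open scoped commutatorElement

universe u

/-- the derived series of `N` inside `G` -/
def dser {G : Type u} [Group G] (N : Subgroup G) : ℕ → Subgroup G
  | 0 => N
  | (n + 1) => ⁅dser N n, dser N n⁆

theorem dser_normal {G : Type u} [Group G] (N : Subgroup G) (hN : N.Normal) (n : ℕ) :
    (dser N n).Normal := by
  induction n with
  | zero => exact hN
  | succ n ih =>
    have := ih
    exact Subgroup.commutator_normal _ _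

theorem dser_le {G : Type u} [Group G] (N : Subgroup G) (hN : N.Normal) (n : ℕ) :
    dser N n ≤ N := by
  induction n with
  | zero => exact le_rfl
  | succ n ih =>
    have := dser_normal N hN n
    exact (Subgroup.commutator_le_left _ _).trans ih

theorem dser_eq {G : Type u} [Group G] (N : Subgroup G) (n : ℕ) :
    (derivedSeries N n).map N.subtype = dser N n := by
  induction n with
  | zero =>
    rw [derivedSeries_zero]
    change _ = N
    rw [← MonoidHom.range_eq_map, Subgroup.range_subtype]
  | succ n ih =>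
    rw [derivedSeries_succ, Subgroup.map_commutator, ih]
    rfl

theorem exists_elem_in {G : Type u} [Group G] [Finite G] (N : Subgroup G) [N.Normal]
    (hN : Group.IsSolvable N) (hN0 : N ≠ ⊥) :
    ∃ (r : ℕ) (W : Subgroup G), r.Prime ∧ W.Normal ∧ W ≤ N ∧ W ≠ ⊥ ∧
      (∀ a ∈ W, ∀ b ∈ W, a * b = b * a) ∧ ∀ a ∈ W, a ^ r = 1 := by
  classical
  have hNn : N.Normal := inferInstance
  have hs : ∃ n, dser N n = ⊥ := by
    obtain ⟨n, hn⟩ : ∃ n, derivedSeries N n = ⊥ := hN.solvable
    refine ⟨n, ?_⟩
    rw [← dser_eq, hn, Subgroup.map_bot]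
  obtain ⟨m, hm⟩ : ∃ m, Nat.find hs = m + 1 := by
    rcases Nat.eq_zero_or_eq_succ_pred (Nat.find hs) with h | h
    · exfalso
      have := Nat.find_spec hs
      rw [h] at this
      exact hN0 this
    · exact ⟨_, h⟩
  set A := dser N m with hA
  have hA0 : A ≠ ⊥ := Nat.find_min hs (by omega)
  have hA1 : ⁅A, A⁆ = ⊥ := by
    have := Nat.find_spec hs
    rw [hm] at this
    exact this
  have hAn : A.Normal := dser_normal N hNn m
  have hcomm : ∀ a ∈ A, ∀ b ∈ A, a * b = b * a := by
    intro a ha b hb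
    have h1 : ⁅a, b⁆ ∈ ⁅A, A⁆ := Subgroup.commutator_mem_commutator ha hb
    rw [hA1, Subgroup.mem_bot] at h1
    exact commutatorElement_eq_one_iff_mul_comm.mp h1
  have hcard : Nat.card A ≠ 1 := by
    intro h
    exact hA0 (Subgroup.card_eq_one.mp h)
  obtain ⟨r, hr, hrd⟩ := Nat.exists_prime_and_dvd hcard
  have := Fact.mk hr
  obtain ⟨a, ha⟩ := exists_prime_orderOf_dvd_card' r hrd
  let W : Subgroup G :=
    { carrier := {a | a ∈ A ∧ a ^ r = 1}
      one_mem' := ⟨A.one_mem, one_pow r⟩
      mul_mem' := by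
        rintro a b ⟨ha, ha'⟩ ⟨hb, hb'⟩
        refine ⟨A.mul_mem ha hb, ?_⟩
        have : Commute a b := hcomm a ha b hb
        rw [this.mul_pow, ha', hb', one_mul]
      inv_mem' := by
        rintro a ⟨ha, ha'⟩
        refine ⟨A.inv_mem ha, ?_⟩
        rw [inv_pow, ha', inv_one] }
  refine ⟨r, W, hr, ?_, ?_, ?_, ?_, ?_⟩
  · constructor
    rintro n ⟨hn, hn'⟩ g
    refine ⟨hAn.conj_mem n hn g, ?_⟩
    rw [conj_pow, hn', mul_one, mul_inv_cancel]
  · intro x hx
    exact dser_le N hNn m hx.1
  · intro h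
    have h1 : (a : G) ∈ W := by
      refine ⟨a.2, ?_⟩
      have := pow_orderOf_eq_one a
      rw [ha] at this
      exact_mod_cast congrArg Subtype.val this
    rw [h, Subgroup.mem_bot] at h1
    have h2 : a = 1 := by exact_mod_cast h1
    rw [h2, orderOf_one] at ha
    exact hr.one_lt.ne ha
  · intro a ha b hb
    exact hcomm a ha.1 b hb.1
  · intro a ha
    exact ha.2

theorem exists_Z {G : Type u} [Group G] [Finite G] [Group.IsSolvable G] [Nontrivial G]
    (F : Subgroup G) [F.Normal] (hF : Group.IsNilpotent F) :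
    ∃ (r : ℕ) (Z : Subgroup G), r.Prime ∧ Z.Normal ∧ Z ≠ ⊥ ∧ (F ≠ ⊥ → Z ≤ F) ∧
      (∀ a ∈ Z, ∀ b ∈ Z, a * b = b * a) ∧ (∀ a ∈ Z, a ^ r = 1) ∧
      ∀ a ∈ Z, ∀ b ∈ F, a * b = b * a := by
  classical
  have hFn : F.Normal := inferInstance
  by_cases hF0 : F = ⊥
  · obtain ⟨r, Z, hr, -, h1, h2, h3, h4⟩ := exists_elem_abelian G
    refine ⟨r, Z, hr, h1, h2, fun h => absurd hF0 h, h3, h4, ?_⟩
    intro a _ b hb
    rw [hF0, Subgroup.mem_bot] at hb
    rw [hb, mul_one, one_mul]
  have hnt : Nontrivial F := (Subgroup.nontrivial_iff_ne_bot F).2 hF0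
  have hnil' : Group.IsNilpotent F := hF
  have hcen : Subgroup.center F ≠ ⊥ := Group.IsNilpotent.center_ne_bot F
  have hcard1 : Nat.card (Subgroup.center F) ≠ 1 := fun h => hcen (Subgroup.card_eq_one.1 h)
  obtain ⟨r, hr, hrd⟩ := Nat.exists_prime_and_dvd hcard1
  have := Fact.mk hr
  obtain ⟨c, hc⟩ := exists_prime_orderOf_dvd_card' r hrd
  let Z : Subgroup G :=
    { carrier := {a | a ∈ F ∧ (∀ b ∈ F, a * b = b * a) ∧ a ^ r = 1}
      one_mem' := ⟨F.one_mem, fun b _ => by rw [one_mul, mul_one], one_pow r⟩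
      mul_mem' := by
        rintro a b ⟨ha, ha', ha''⟩ ⟨hb, hb', hb''⟩
        refine ⟨F.mul_mem ha hb, ?_, ?_⟩
        · intro d hd
          rw [mul_assoc, hb' d hd, ← mul_assoc, ha' d hd, mul_assoc]
        · have : Commute a b := ha' b hb
          rw [this.mul_pow, ha'', hb'', one_mul]
      inv_mem' := by
        rintro a ⟨ha, ha', ha''⟩
        refine ⟨F.inv_mem ha, ?_, ?_⟩
        · intro b hb
          have : Commute a b := ha' b hb
          exact this.inv_left
        · rw [inv_pow, ha'', inv_one] }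
  have hZF : Z ≤ F := fun a ha => ha.1
  refine ⟨r, Z, hr, ?_, ?_, fun _ => hZF, fun a ha b hb => ha.2.1 b hb.1, fun a ha => ha.2.2,
    fun a ha => ha.2.1⟩
  · constructor
    rintro a ⟨ha, ha', ha''⟩ g
    refine ⟨hFn.conj_mem a ha g, ?_, ?_⟩
    · intro b hb
      have h1 := ha' (g⁻¹ * b * g) (by
        have := hFn.conj_mem b hb g⁻¹
        simpa using this)
      calc g * a * g⁻¹ * b = g * (a * (g⁻¹ * b * g)) * g⁻¹ := by group
        _ = g * (g⁻¹ * b * g * a) * g⁻¹ := by rw [h1]
        _ = b * (g * a * g⁻¹) := by group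
    · rw [conj_pow, ha'', mul_one, mul_inv_cancel]
  · intro h
    have h1 : ((c : F) : G) ∈ Z := by
      refine ⟨(c : F).2, ?_, ?_⟩
      · intro b hb
        have := (Subgroup.mem_center_iff.1 c.2) ⟨b, hb⟩
        exact (congrArg Subtype.val this).symm
      · have := pow_orderOf_eq_one c
        rw [hc] at this
        have h2 := congrArg Subtype.val (congrArg Subtype.val this)
        simpa using h2
    rw [h, Subgroup.mem_bot] at h1
    have h2 : c = 1 := by
      apply Subtype.ext
      apply Subtype.ext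
      exact h1
    rw [h2, orderOf_one] at hc
    exact hr.one_lt.ne hc

end Pool.H45.S2
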