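import Pool.Agent.H45.S2.LL

/-!
Project MP_e5a1a5_T2, row EX: existence of a good element, and its conjugates.

Proof of `exists_good` (only `Good` and `mq` are used from LL; `DE1`, `DE2` for the projections `Π S = pj ρ S`).
Let `𝒮` be the finite set of all `S : Finset B` with `Π S v ≠ 0` for some `v`.  For `z : B` let
`f z = Σ_{q ∈ N.primeFactors} #{S ∈ 𝒮 | z^(mq q) ∉ S}`, `N = Nat.card B`, and choose `z` with `f z` maximal (`Finite.exists_max`).
Suppose `z` is not good: there are a prime `q` and `a ≠ 1`, `a^q = 1`, such that `ρ a w = w` for all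
`w = ρ (z^(mq q)) v - v`.  Then (*) for all `S ∈ 𝒮` with `z^(mq q) ∉ S` one has `a ∈ S`: otherwise take `v` with
`x = Π S v ≠ 0`; `w = ρ (z^(mq q)) x - x = Π S (..)` is nonzero by `pj_not_mem` and moved by `a` by `pj_not_mem`.
As `a ≠ 1` has order `q`, `q ∣ N`.  Put `z' = z * a`.
* For primes `q' ≠ q`, `q' ∣ N`: `q ∣ mq q'` (`q ∣ N` and `q` is coprime to `q'^k`), so `a^(mq q') = 1` and
  `z'^(mq q') = z^(mq q')`: same summand.
* For `q`: `z'^(mq q) = z^(mq q) * a^(mq q)`.  Let `S ∈ 𝒮`.  If `z^(mq q) ∉ S` then `a ∈ S` by (*), so `a^(mq q) ∈ S` and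
  `z'^(mq q) ∉ S` (`pj_closed`).  So the set for `z'` contains the set for `z`.  It is strictly larger: as `ρ a ≠ 1`
  (`hinj`) there is `v` with `ρ a v ≠ v`, so (`pj_sum`) an `S` with `ρ a (Π S v) ≠ Π S v`; then `S ∈ 𝒮`, `a ∉ S`
  (`pj_mem`), so `z^(mq q) ∈ S` by (*), and `a^(mq q) ∉ S` by `pj_pow` (`mq q` is coprime to `q`), hence
  `z'^(mq q) ∉ S`.
So `f z' > f z`, a contradiction.

`good_conj`: for `q`, `a` apply `Good ρ z` to `θ⁻¹ a` (`θ.symm a`), which gives `v`; then `T v` works for `θ z` and `a`: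
`ρ ((θ z)^m) (T v) - T v = T (ρ (z^m) v - v)` and `ρ a (T w) = T (ρ (θ.symm a) w)`; `T` is injective.
-/

set_option autoImplicit false

namespace Pool.H45.S2

open Finset

theorem mq_coprime {B : Type*} [Finite B] [Nonempty B] {q : ℕ} (hq : q.Prime) :
    Nat.Coprime (mq B q) q := by
  unfold mq
  exact (Nat.coprime_ordCompl hq Nat.card_pos.ne').symm

theorem dvd_mq {B : Type*} {q q' : ℕ} (hq : q.Prime) (hq' : q'.Prime) (hne : q ≠ q')
    (h : q ∣ Nat.card B) : q ∣ mq B q' := by
  unfold mq
  have h1 := Nat.ordProj_mul_ordCompl_eq_self (Nat.card B) q'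
  rw [← h1] at h
  rcases (Nat.Prime.dvd_mul hq).1 h with h2 | h2
  · exfalso
    exact hne ((Nat.prime_dvd_prime_iff_eq hq hq').1 (hq.dvd_of_dvd_pow h2))
  · exact h2

theorem exists_good {F : Type*} [Field F] {B : Type*} [CommGroup B] [Finite B]
    (hN : (Nat.card B : F) ≠ 0) {V : Type*} [AddCommGroup V] [Module F V]
    (ρ : B →* Module.End F V) (hinj : ∀ a, (∀ v, ρ a v = v) → a = 1) : ∃ z, Good ρ z := by
  classical
  have := Fintype.ofFinite B
  let SS : Finset (Finset B) := univ.filter (fun S => ∃ v, pj ρ S v ≠ 0)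
  have hSS : ∀ S, S ∈ SS ↔ ∃ v, pj ρ S v ≠ 0 := by
    intro S
    simp [SS]
  let f : B → ℕ := fun z => ∑ q ∈ (Nat.card B).primeFactors,
    (SS.filter (fun S => z ^ (mq B q) ∉ S)).card
  obtain ⟨z, hz⟩ := Finite.exists_max f
  refine ⟨z, ?_⟩
  by_contra hcon
  unfold Good at hcon
  push Not at hcon
  obtain ⟨q, hq, a, haq, ha1, hw⟩ := hcon
  have hstar : ∀ S ∈ SS, z ^ mq B q ∉ S → a ∈ S := by
    intro S hS hzS
    by_contra haS
    obtain ⟨v, hv⟩ := (hSS S).1 hS
    set x := pj ρ S v with hx
    have e1 : pj ρ S x = x := pj_idem hN ρ S v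
    have hwS : ρ (z ^ mq B q) x - x = pj ρ S (ρ (z ^ mq B q) x - x) := by
      rw [map_sub, ← pj_comm, e1]
    have h1 := hw x
    have h2 : ρ (z ^ mq B q) x - x ≠ 0 := by
      intro h3
      apply hv
      rw [sub_eq_zero] at h3
      rw [hx] at h3
      exact pj_not_mem hN ρ S _ hzS v h3
    apply h2
    rw [hwS]
    apply pj_not_mem hN ρ S a haS
    rw [← hwS]
    exact h1
  have hqN : q ∣ Nat.card B := by
    have := Fact.mk hq
    have h1 : orderOf a = q := orderOf_eq_prime haq ha1
    rw [← h1]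
    exact orderOf_dvd_natCard a
  have hqm : q ∈ (Nat.card B).primeFactors := Nat.mem_primeFactors.2 ⟨hq, hqN, Nat.card_pos.ne'⟩
  have hlt : f z < f (z * a) := by
    apply Finset.sum_lt_sum
    · intro q' hq'
      by_cases h : q' = q
      · rw [h]
        apply Finset.card_le_card
        intro S hS
        rw [Finset.mem_filter] at hS ⊢
        refine ⟨hS.1, ?_⟩
        intro hc
        apply hS.2
        obtain ⟨v, hv⟩ := (hSS S).1 hS.1
        obtain ⟨c1, c2, c3⟩ := pj_closed hN ρ S v hv
        have haS := hstar S hS.1 hS.2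
        have hpow : ∀ k : ℕ, a ^ k ∈ S := by
          intro k
          induction k with
          | zero => rw [pow_zero]; exact c1
          | succ k ih => rw [pow_succ]; exact c2 _ ih _ haS
        rw [mul_pow] at hc
        have := c2 _ hc _ (c3 _ (hpow (mq B q)))
        rwa [mul_inv_cancel_right] at this
      · have hq'p := (Nat.mem_primeFactors.1 hq').1
        have h1 : a ^ mq B q' = 1 := by
          obtain ⟨k, hk⟩ := dvd_mq hq hq'p (Ne.symm h) hqN
          rw [hk, pow_mul, haq, one_pow]
        apply le_of_eq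
        congr 1
        apply Finset.filter_congr
        intro S _
        rw [mul_pow, h1, mul_one]
    · refine ⟨q, hqm, ?_⟩
      apply Finset.card_lt_card
      rw [Finset.ssubset_iff_of_subset]
      · -- the new element
        obtain ⟨v, hv⟩ : ∃ v, ρ a v ≠ v := by
          by_contra hc
          push Not at hc
          exact ha1 (hinj a hc)
        obtain ⟨S, hS⟩ : ∃ S, ρ a (pj ρ S v) ≠ pj ρ S v := by
          by_contra hc
          push Not at hc
          apply hv
          conv_lhs => rw [← pj_sum ρ v]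
          rw [map_sum, Finset.sum_congr rfl (fun S _ => hc S), pj_sum]
        have hv0 : pj ρ S v ≠ 0 := by
          intro h0
          apply hS
          rw [h0, map_zero]
        have hSm : S ∈ SS := (hSS S).2 ⟨v, hv0⟩
        have haS : a ∉ S := fun h => hS (pj_mem hN ρ S a h v)
        have hzS : z ^ mq B q ∈ S := by
          by_contra h
          exact haS (hstar S hSm h)
        obtain ⟨c1, c2, c3⟩ := pj_closed hN ρ S v hv0
        refine ⟨S, ?_, ?_⟩
        · rw [Finset.mem_filter]
          refine ⟨hSm, ?_⟩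
          intro hc
          apply haS
          rw [mul_pow] at hc
          have h1 := c2 _ (c3 _ hzS) _ hc
          rw [inv_mul_cancel_left] at h1
          exact pj_pow hN ρ S v hv0 q (mq B q) (mq_coprime hq) a haq h1
        · rw [Finset.mem_filter]
          rintro ⟨-, h⟩
          exact h hzS
      · intro S hS
        rw [Finset.mem_filter] at hS ⊢
        refine ⟨hS.1, ?_⟩
        intro hc
        apply hS.2
        obtain ⟨v, hv⟩ := (hSS S).1 hS.1
        obtain ⟨c1, c2, c3⟩ := pj_closed hN ρ S v hv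
        have haS := hstar S hS.1 hS.2
        have hpow : ∀ k : ℕ, a ^ k ∈ S := by
          intro k
          induction k with
          | zero => rw [pow_zero]; exact c1
          | succ k ih => rw [pow_succ]; exact c2 _ ih _ haS
        rw [mul_pow] at hc
        have := c2 _ hc _ (c3 _ (hpow (mq B q)))
        rwa [mul_inv_cancel_right] at this
  exact absurd (hz (z * a)) (not_le.2 hlt)

theorem good_conj {F : Type*} [Field F] {B : Type*} [CommGroup B] [Finite B]
    {V : Type*} [AddCommGroup V] [Module F V] (ρ : B →* Module.End F V) (θ : MulAut B)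
    (T : V →+ V) (hT : Function.Injective T) (h : ∀ a v, T (ρ a v) = ρ (θ a) (T v)) (z : B)
    (hz : Good ρ z) : Good ρ (θ z) := by
  intro q hq a haq ha1
  obtain ⟨v, hv⟩ := hz q hq (θ.symm a) (by rw [← map_pow, haq, map_one]) (by
    intro hc
    apply ha1
    have := congrArg θ hc
    rwa [MulEquiv.apply_symm_apply, map_one] at this)
  refine ⟨T v, ?_⟩
  intro hc
  apply hv
  apply hT
  have e1 : ρ ((θ z) ^ mq B q) (T v) - T v = T (ρ (z ^ mq B q) v - v) := by
    rw [map_sub, h, map_pow θ]
  rw [e1] at hc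
  rw [h, MulEquiv.apply_symm_apply]
  exact hc

end Pool.H45.S2
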