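import Pool.Agent.H45.S2.EW
import Pool.Agent.H45.SY.GR1

/-!
Project MP_e5a1a5_T2, row LM: the mixing lemma.

`N` is a solvable normal subgroup, `P` a Sylow `p`-subgroup, `y`, `y₁` any elements.  Some `n ∈ N` is such that the
elements `a ∈ P` with `(y₁ n) a (y₁ n)⁻¹ ∈ P` and `y a y⁻¹ ∈ P N` satisfy `y a y⁻¹ ∈ P`.

Proof.  Induction on `Nat.card G`.  If `N = ⊥` take `n = 1`.  Otherwise `exists_elem_in` gives a prime `r` and an
elementary abelian normal `r`-subgroup `W ≤ N`, `W ≠ ⊥`, of `G`.  Let `π = QuotientGroup.mk' W`, `P̄` the image of `P`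
(`Sylow.mapSurjective`; see the setup at the beginning of `Pool.H45.SY.ind_aux`, file Pool/Agent/H45/SY/GR2.lean),
`N̄ = N.map π` (normal, solvable).  Induction in `G ⧸ W` gives `n₁ ∈ N` such that for `a ∈ P`:
  (I) if `s⁻¹ ((y₁ n₁) a (y₁ n₁)⁻¹) ∈ W` for some `s ∈ P`, and `s⁻¹ (y a y⁻¹) ∈ N` for some `s ∈ P`, then
      `s⁻¹ (y a y⁻¹) ∈ W` for some `s ∈ P`.
If `r = p` then `W ≤ P` (`IsPGroup.le_sylow_of_normal`) and `n = n₁` works.
If `r ≠ p`: put `u = y₁ n₁` and `D = {a ∈ P | (∃ s ∈ P, s⁻¹ (u a u⁻¹) ∈ W) ∧ (∃ s ∈ P, s⁻¹ (y a y⁻¹) ∈ N)}`, a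
subgroup of `P` (intersection of `P` with preimages of the subgroups `P W`, `P N` under conjugations), a `p`-group.
By (I) and `Pool.H45.SY.conj_into` (as in `hcj` in the proof of `Pool.H45.SY.step`, file GR1.lean) there are `w₁, w₂ ∈ W` with
`(u w₁) a (u w₁)⁻¹ ∈ P` and `(y w₂) a (y w₂)⁻¹ ∈ P` for all `a ∈ D`.  Put `w = w₁ w₂`, `n = n₁ w`.
Let `a ∈ P` with `(u w) a (u w)⁻¹ ∈ P` and `s⁻¹ (y a y⁻¹) ∈ N`, `s ∈ P`.  Modulo `W`, `(u w) a (u w)⁻¹` is `u a u⁻¹`, so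
`a ∈ D`; `(u w₁) (w₂ a w₂⁻¹) (u w₁)⁻¹ ∈ P` and `(u w₁) a (u w₁)⁻¹ ∈ P`, so
`(u w₁) (w₂ a w₂⁻¹ a⁻¹) (u w₁)⁻¹ ∈ P ∩ W = 1` (`pow_card_one`, `eq_one_of_coprime`), so `w₂` commutes with `a` and
`y a y⁻¹ = (y w₂) a (y w₂)⁻¹ ∈ P`.
-/

set_option autoImplicit false

namespace Pool.H45.S2

open Pool.Agent.H49.Syl Pool.H45.SY

universe u

/-- the setup for a quotient: images of Sylow subgroups -/
theorem map_sylow {G : Type u} [Group G] [Finite G] {p : ℕ} (hp : p.Prime) (P : Sylow p G)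
    (W : Subgroup G) [W.Normal] :
    ∃ Pb : Sylow p (G ⧸ W), (∀ g : G, QuotientGroup.mk' W g ∈ Pb ↔ ∃ s ∈ P, s⁻¹ * g ∈ W) ∧
      ∀ k ∈ Pb, ∃ a ∈ P, QuotientGroup.mk' W a = k := by
  have := Fact.mk hp
  have hsurj : Function.Surjective (QuotientGroup.mk' W) := QuotientGroup.mk'_surjective W
  have hker : ∀ g : G, QuotientGroup.mk' W g = 1 ↔ g ∈ W := by
    intro g
    rw [QuotientGroup.mk'_apply]
    exact QuotientGroup.eq_one_iff g
  have hcoe : ((P.mapSurjective hsurj : Sylow p (G ⧸ W)) : Subgroup (G ⧸ W)) =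
      (P : Subgroup G).map (QuotientGroup.mk' W) := Sylow.coe_mapSurjective hsurj P
  have hm : ∀ k, k ∈ (P.mapSurjective hsurj : Sylow p (G ⧸ W)) ↔
      ∃ a ∈ P, QuotientGroup.mk' W a = k := by
    intro k
    change k ∈ ((P.mapSurjective hsurj : Sylow p (G ⧸ W)) : Subgroup (G ⧸ W)) ↔ _
    rw [hcoe, Subgroup.mem_map]
    exact Iff.rfl
  refine ⟨P.mapSurjective hsurj, ?_, fun k hk => (hm k).1 hk⟩
  intro g
  rw [hm]
  constructor
  · rintro ⟨s, hs, h⟩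
    refine ⟨s, hs, ?_⟩
    rw [← hker, map_mul, map_inv, inv_mul_eq_one]
    exact h
  · rintro ⟨s, hs, h⟩
    refine ⟨s, hs, ?_⟩
    rw [← hker, map_mul, map_inv, inv_mul_eq_one] at h
    exact h

theorem card_quot_lt {G : Type u} [Group G] [Finite G] (W : Subgroup G) [W.Normal] (hW : W ≠ ⊥) :
    Nat.card (G ⧸ W) < Nat.card G := by
  have hcard : Nat.card G = Nat.card (G ⧸ W) * Nat.card W :=
    Subgroup.card_eq_card_quotient_mul_card_subgroup W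
  have hZcard : 1 < Nat.card W := by
    have : Nontrivial W := (Subgroup.nontrivial_iff_ne_bot W).mpr hW
    exact Finite.one_lt_card
  rw [hcard]
  have : 0 < Nat.card (G ⧸ W) := Nat.card_pos
  nlinarith

/-- `conj_into` for a conjugate -/
theorem conj_into' {G : Type u} [Group G] [Finite G] {p r : ℕ} (hp : p.Prime) (hr : r.Prime)
    (hpr : p ≠ r) (W : Subgroup G) [hW : W.Normal] (hWr : ∀ a ∈ W, a ^ r = 1) (P : Sylow p G)
    (E : Subgroup G) (hE : IsPGroup p E) (u : G) (hu : ∀ a ∈ E, ∃ s ∈ P, s⁻¹ * (u * a * u⁻¹) ∈ W) :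
    ∃ z ∈ W, ∀ a ∈ E, (u * z) * a * (u * z)⁻¹ ∈ P := by
  obtain ⟨z, hz, h⟩ := conj_into hp hr hpr W (P : Subgroup G)
    (E.map (MulAut.conj u).toMonoidHom) hWr P.isPGroup' (hE.map _) (by
      rintro _ ⟨a, ha, rfl⟩
      exact hu a ha)
  refine ⟨u⁻¹ * z * u, ?_, ?_⟩
  · have := hW.conj_mem z hz u⁻¹
    simpa using this
  · intro a ha
    have h1 := h (u * a * u⁻¹) ⟨a, ha, rfl⟩
    have e : u * (u⁻¹ * z * u) * a * (u * (u⁻¹ * z * u))⁻¹ = z * (u * a * u⁻¹) * z⁻¹ := by group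
    rw [e]
    exact h1

/-- an element that is conjugated into `P` in two ways differing by `w ∈ W` commutes with `w` -/
theorem commute_of_conj {G : Type u} [Group G] [Finite G] {p r : ℕ} (hp : p.Prime) (hr : r.Prime)
    (hpr : p ≠ r) (W : Subgroup G) [hW : W.Normal] (hWr : ∀ a ∈ W, a ^ r = 1) (P : Sylow p G)
    (u w a : G) (hw : w ∈ W) (h1 : u * a * u⁻¹ ∈ P) (h2 : (u * w) * a * (u * w)⁻¹ ∈ P) :
    a * w = w * a := by
  have h3 : u * (w * a * w⁻¹ * a⁻¹) * u⁻¹ ∈ P := by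
    have h4 := (P : Subgroup G).mul_mem h2 ((P : Subgroup G).inv_mem h1)
    have e : (u * w) * a * (u * w)⁻¹ * (u * a * u⁻¹)⁻¹ = u * (w * a * w⁻¹ * a⁻¹) * u⁻¹ := by group
    rw [e] at h4
    exact h4
  have h5 : w * a * w⁻¹ * a⁻¹ ∈ W := by
    have h6 : a * w⁻¹ * a⁻¹ ∈ W := hW.conj_mem _ (W.inv_mem hw) a
    have := W.mul_mem hw h6
    have e : w * (a * w⁻¹ * a⁻¹) = w * a * w⁻¹ * a⁻¹ := by group
    rw [e] at this
    exact this
  have h7 : u * (w * a * w⁻¹ * a⁻¹) * u⁻¹ = 1 := by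
    obtain ⟨m, hm⟩ := pow_card_one P.isPGroup' h3
    exact eq_one_of_coprime hp hr hpr hm (hWr _ (hW.conj_mem _ h5 _))
  have h8 : w * a * w⁻¹ * a⁻¹ = 1 := by
    have h9 : w * a * w⁻¹ * a⁻¹ = u⁻¹ * (u * (w * a * w⁻¹ * a⁻¹) * u⁻¹) * u := by group
    rw [h9, h7]
    group
  have h10 : w * a = a * w := by
    have : w * a = (w * a * w⁻¹ * a⁻¹) * (a * w) := by group
    rw [this, h8, one_mul]
  exact h10.symm

/-- the stage group -/
theorem stage_subgroup' {G : Type*} [Group G] (Z : Subgroup G) [Z.Normal] (P : Subgroup G) (x : G) :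
    ∃ D : Subgroup G, ∀ a, a ∈ D ↔ a ∈ P ∧ ∃ s ∈ P, s⁻¹ * (x * a * x⁻¹) ∈ Z := by
  set π : G →* G ⧸ Z := QuotientGroup.mk' Z with hπ
  have hker : ∀ g : G, π g = 1 ↔ g ∈ Z := by
    intro g
    rw [hπ, QuotientGroup.mk'_apply]
    exact QuotientGroup.eq_one_iff g
  refine ⟨P ⊓ ((P.map π).comap (π.comp (MulAut.conj x).toMonoidHom)), ?_⟩
  intro a
  rw [Subgroup.mem_inf, Subgroup.mem_comap]
  change a ∈ P ∧ π (x * a * x⁻¹) ∈ P.map π ↔ _
  rw [Subgroup.mem_map]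
  refine and_congr_right fun _ => ?_
  constructor
  · rintro ⟨s, hs, h⟩
    refine ⟨s, hs, ?_⟩
    rw [← hker, map_mul, map_inv, inv_mul_eq_one]
    exact h
  · rintro ⟨s, hs, h⟩
    refine ⟨s, hs, ?_⟩
    rw [← hker, map_mul, map_inv, inv_mul_eq_one] at h
    exact h

/-- changing `u` by an element of `W` does not change the stage -/
theorem stage_congr {G : Type*} [Group G] (W : Subgroup G) [hW : W.Normal] (u w a s : G)
    (hw : w ∈ W) (h : s⁻¹ * ((u * w) * a * (u * w)⁻¹) ∈ W) : s⁻¹ * (u * a * u⁻¹) ∈ W := by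
  have hker : ∀ g : G, QuotientGroup.mk' W g = 1 ↔ g ∈ W := by
    intro g
    rw [QuotientGroup.mk'_apply]
    exact QuotientGroup.eq_one_iff g
  rw [← hker] at h ⊢
  have hw' : QuotientGroup.mk' W w = 1 := (hker w).2 hw
  simp only [map_mul, map_inv, hw', mul_one] at h ⊢
  exact h

theorem LM {p : ℕ} (hp : p.Prime) : ∀ (n : ℕ) (G : Type u) [Group G] [Finite G], Nat.card G = n →
    ∀ (N : Subgroup G) [N.Normal], Group.IsSolvable N → ∀ (P : Sylow p G) (y y₁ : G),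
      ∃ m ∈ N, ∀ a ∈ P, (y₁ * m) * a * (y₁ * m)⁻¹ ∈ P → (∃ s ∈ P, s⁻¹ * (y * a * y⁻¹) ∈ N) →
        y * a * y⁻¹ ∈ P := by
  intro n
  induction n using Nat.strong_induction_on with
  | _ n ih =>
  intro G _ _ hn N hNn hNs P y y₁
  by_cases hN : N = ⊥
  · refine ⟨1, N.one_mem, ?_⟩
    rintro a _ _ ⟨s, hs, h⟩
    rw [hN, Subgroup.mem_bot, inv_mul_eq_one] at h
    rw [← h]
    exact hs
  obtain ⟨r, W, hr, hWn, hWN, hW0, hWc, hWr⟩ := exists_elem_in N hNs hN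
  have hW : W.Normal := hWn
  obtain ⟨Pb, hPbm, hPbl⟩ := map_sylow hp P W
  set π : G →* G ⧸ W := QuotientGroup.mk' W with hπ
  have hsurj : Function.Surjective π := QuotientGroup.mk'_surjective W
  have hker : ∀ g : G, π g = 1 ↔ g ∈ W := by
    intro g
    rw [hπ, QuotientGroup.mk'_apply]
    exact QuotientGroup.eq_one_iff g
  have hNb : ∀ g : G, π g ∈ N.map π ↔ g ∈ N := by
    intro g
    rw [Subgroup.mem_map]
    constructor
    · rintro ⟨b, hb, hbg⟩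
      have h1 : b⁻¹ * g ∈ W := by
        rw [← hker, map_mul, map_inv, inv_mul_eq_one]
        exact hbg
      have := N.mul_mem hb (hWN h1)
      rwa [mul_inv_cancel_left] at this
    · intro hg
      exact ⟨g, hg, rfl⟩
  have hNbn : (N.map π).Normal := hNn.map π hsurj
  have hNbs : Group.IsSolvable (N.map π) := by
    have : Group.IsSolvable N := hNs
    exact Group.isSolvable_of_surjective (f := π.subgroupMap N) (π.subgroupMap_surjective N)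
  obtain ⟨mb, hmb, hmain⟩ := ih _ (hn ▸ card_quot_lt W hW0) (G ⧸ W) rfl (N.map π) hNbs Pb (π y) (π y₁)
  obtain ⟨n₁, hn₁, rfl⟩ := Subgroup.mem_map.1 hmb
  have hI : ∀ a ∈ P, (∃ s ∈ P, s⁻¹ * ((y₁ * n₁) * a * (y₁ * n₁)⁻¹) ∈ W) →
      (∃ s ∈ P, s⁻¹ * (y * a * y⁻¹) ∈ N) → ∃ s ∈ P, s⁻¹ * (y * a * y⁻¹) ∈ W := by
    rintro a ha h1 ⟨s, hs, h2⟩
    have h3 := hmain (π a) ((hPbm a).2 ⟨a, ha, by rw [inv_mul_cancel]; exact W.one_mem⟩) (by
      have := (hPbm _).2 h1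
      simpa only [map_mul, map_inv] using this) ⟨π s, (hPbm s).2 ⟨s, hs, by
        rw [inv_mul_cancel]; exact W.one_mem⟩, by
        rw [← hNb] at h2
        simpa only [map_mul, map_inv] using h2⟩
    exact (hPbm _).1 (by simpa only [map_mul, map_inv] using h3)
  by_cases hrp : r = p
  · refine ⟨n₁, hn₁, ?_⟩
    intro a ha h1 h2
    obtain ⟨s, hs, h3⟩ := hI a ha ⟨_, h1, by rw [inv_mul_cancel]; exact W.one_mem⟩ h2
    have hWP : W ≤ (P : Subgroup G) := by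
      have hNp : IsPGroup p W := by
        intro a
        refine ⟨1, ?_⟩
        rw [pow_one, ← hrp]
        exact Subtype.ext (by exact_mod_cast hWr a a.2)
      exact hNp.le_sylow_of_normal P
    have := (P : Subgroup G).mul_mem hs (hWP h3)
    rw [mul_inv_cancel_left] at this
    exact this
  have hpr : p ≠ r := fun h => hrp h.symm
  obtain ⟨D₁, hD₁⟩ := stage_subgroup' W (P : Subgroup G) (y₁ * n₁)
  obtain ⟨D₂, hD₂⟩ := stage_subgroup' N (P : Subgroup G) y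
  have hDp : IsPGroup p (D₁ ⊓ D₂ : Subgroup G) :=
    P.isPGroup'.to_le (fun a ha => ((hD₁ a).1 ha.1).1)
  obtain ⟨w₁, hw₁, h1⟩ := conj_into' hp hr hpr W hWr P (D₁ ⊓ D₂) hDp (y₁ * n₁)
    (fun a ha => ((hD₁ a).1 ha.1).2)
  obtain ⟨w₂, hw₂, h2⟩ := conj_into' hp hr hpr W hWr P (D₁ ⊓ D₂) hDp y
    (fun a ha => hI a ((hD₁ a).1 ha.1).1 ((hD₁ a).1 ha.1).2 ((hD₂ a).1 ha.2).2)
  refine ⟨n₁ * (w₁ * w₂), N.mul_mem hn₁ (hWN (W.mul_mem hw₁ hw₂)), ?_⟩
  intro a ha h3 h4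
  have e1 : y₁ * (n₁ * (w₁ * w₂)) = (y₁ * n₁) * (w₁ * w₂) := (mul_assoc _ _ _).symm
  rw [e1] at h3
  have haD : a ∈ D₁ ⊓ D₂ := by
    refine ⟨(hD₁ a).2 ⟨ha, _, h3, ?_⟩, (hD₂ a).2 ⟨ha, h4⟩⟩
    apply stage_congr W (y₁ * n₁) (w₁ * w₂) a _ (W.mul_mem hw₁ hw₂)
    rw [inv_mul_cancel]
    exact W.one_mem
  have h5 : a * w₂ = w₂ * a := by
    apply commute_of_conj hp hr hpr W hWr P (y₁ * n₁ * w₁) w₂ a hw₂ (h1 a haD)
    rw [mul_assoc (y₁ * n₁) w₁ w₂]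
    exact h3
  have h6 := h2 a haD
  have e2 : y * w₂ * a * (y * w₂)⁻¹ = y * (w₂ * a * w₂⁻¹) * y⁻¹ := by group
  rw [e2, ← h5, mul_inv_cancel_right] at h6
  exact h6

end Pool.H45.S2
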