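import Pool.Agent.H45.S2.RV
import Pool.Agent.H45.S2.HQ
import Pool.Agent.H45.S2.LM

/-!
Project MP_e5a1a5_T2, row KR: one element makes the intersection of a Sylow `q`-subgroup with its conjugate as small as
possible, `q` odd.

Proof.  Induction on `Nat.card K`.  If `K` is trivial take `k = 1`.  Otherwise `exists_elem_abelian K` (in
Pool/Agent/H49/SylInd.lean) gives a prime `l` and a normal elementary abelian `l`-subgroup `W ≠ ⊥`.  Let
`π = QuotientGroup.mk' W`, `S̄ = S.mapSurjective` (needs `Fact q.Prime`; `Sylow.coe_mapSurjective`), see the beginning of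
`Pool.H45.SY.ind_aux` (file Pool/Agent/H45/SY/GR2.lean) for the same setup; `HQ (⊥ : Subgroup (K ⧸ W))` by `HQ_map`;
`K ⧸ W` is solvable and smaller.  Induction gives `k₁ ∈ K` such that for `a ∈ S`:
  (I) if `s⁻¹ (k₁ a k₁⁻¹) ∈ W` for some `s ∈ S`, then for every `g ∈ K` there is `s ∈ S` with `s⁻¹ (g a g⁻¹) ∈ W`.
Case `l = q`: `W` is a normal `q`-subgroup so `W ≤ S` (`IsPGroup.le_sylow_of_normal`) and `k = k₁` works.
Case `l ≠ q`: let `D = {a ∈ S | ∃ s ∈ S, s⁻¹ (k₁ a k₁⁻¹) ∈ W}`, a `q`-subgroup (the intersection of `S` with a preimage of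
  `S̄`).  By `Pool.H45.SY.conj_into` (applied to `D.map (MulAut.conj k₁).toMonoidHom`, `H = S`, `Z = W`) there is `w ∈ W`
  with `w k₁ a k₁⁻¹ w⁻¹ ∈ S` for `a ∈ D`; put `k₂ = k₁ w₁`, `w₁ = k₁⁻¹ w k₁ ∈ W`, so `k₂ a k₂⁻¹ ∈ S` for `a ∈ D`.
  Let `L = {a ∈ K | ∀ g, ∃ s ∈ S, s⁻¹ (g a g⁻¹) ∈ W}`: a normal subgroup of `K` containing `W` and `D` (by (I)); each
  `a ∈ L` has a `q`-power in `W`.  (`L` is the preimage of `Subgroup.normalCore S̄`.)
  Apply `RV` with `l`, `q`, `W`, `D := L`, `s = 1`: its `hD` holds because `a^(q^n) ∈ W` and `W` is commutative; its `hDc` is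
  `HQ ⊥` with `N = ` the centraliser of `W` (`Subgroup.centralizer W`, normal) and `L`.  It gives `f ∈ W` such that
  elements of `L` commuting with `f` centralise `W`.  Put `k = k₂ f`.
  Let `a ∈ S` with `k a k⁻¹ ∈ S`.  Modulo `W`, `k a k⁻¹` is `k₁ a k₁⁻¹`, so `a ∈ D`, `k₂ a k₂⁻¹ ∈ S` and
  `k₂ (f a f⁻¹ a⁻¹) k₂⁻¹ ∈ S ∩ W = 1` (an element of `q`-power order with `l`-th power `1`: `pow_card_one`,
  `eq_one_of_coprime` in Pool/Agent/H49/SylInd.lean; compare the end of the proof of `Pool.H45.SY.step`).  So `a`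
  commutes with `f`, hence `a ∈ L` centralises `W`.
  Let `g ∈ K`.  `C = L ∩ S ∩ (centraliser of W)` is a `q`-group, `C' = C.map (conj g)` is a `q`-group contained in
  `L ∩ (centraliser of W)`, and every `d ∈ C'` has `s ∈ S` with `s⁻¹ d ∈ W`.  By `conj_into` there is `w ∈ W` with
  `w d w⁻¹ ∈ S` for `d ∈ C'`; but `w d w⁻¹ = d` because `d` centralises `W`.  With `d = g a g⁻¹` this gives
  `g a g⁻¹ ∈ S`.
-/

set_option autoImplicit false

namespace Pool.H45.S2

open Pool.Agent.H49.Syl Pool.H45.SY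

universe u

theorem KR {q : ℕ} (hq : q.Prime) (hq2 : q ≠ 2) : ∀ (n : ℕ) (K : Type u) [Group K] [Finite K],
    Nat.card K = n → Group.IsSolvable K → HQ (⊥ : Subgroup K) → ∀ S : Sylow q K,
      ∃ k : K, ∀ a ∈ S, k * a * k⁻¹ ∈ S → ∀ g : K, g * a * g⁻¹ ∈ S := by
  intro n
  induction n using Nat.strong_induction_on with
  | _ n ih =>
  intro K _ _ hn hsol hHQ S
  have := Fact.mk hq
  by_cases hnt : Nontrivial K
  swap
  · rw [not_nontrivial_iff_subsingleton] at hnt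
    refine ⟨1, ?_⟩
    intro a ha _ g
    rw [Subsingleton.elim (g * a * g⁻¹) a]
    exact ha
  obtain ⟨l, W, hl, -, hWn, hW0, hWc, hWl⟩ := exists_elem_abelian K
  have hW : W.Normal := hWn
  obtain ⟨Sb, hSbm, hSbl⟩ := map_sylow hq S W
  have hsurj : Function.Surjective (QuotientGroup.mk' W) := QuotientGroup.mk'_surjective W
  have hker : ∀ g : K, QuotientGroup.mk' W g = 1 ↔ g ∈ W := by
    intro g
    rw [QuotientGroup.mk'_apply]
    exact QuotientGroup.eq_one_iff g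
  have hsolb : Group.IsSolvable (K ⧸ W) := inferInstance
  obtain ⟨kb, hkb⟩ := ih _ (hn ▸ card_quot_lt W hW0) (K ⧸ W) rfl hsolb
    (HQ_map ⊥ hHQ (QuotientGroup.mk' W) hsurj ⊥ bot_le) Sb
  obtain ⟨k₁, rfl⟩ := hsurj kb
  have hself : ∀ a ∈ S, QuotientGroup.mk' W a ∈ Sb := fun a ha =>
    (hSbm a).2 ⟨a, ha, by rw [inv_mul_cancel]; exact W.one_mem⟩
  have hI : ∀ a ∈ S, (∃ s ∈ S, s⁻¹ * (k₁ * a * k₁⁻¹) ∈ W) → ∀ g : K,
      ∃ s ∈ S, s⁻¹ * (g * a * g⁻¹) ∈ W := by
    intro a ha h1 g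
    have h2 := hkb (QuotientGroup.mk' W a) (hself a ha) (by
      have := (hSbm _).2 h1
      simpa only [map_mul, map_inv] using this) (QuotientGroup.mk' W g)
    exact (hSbm _).1 (by simpa only [map_mul, map_inv] using h2)
  by_cases hlq : l = q
  · refine ⟨k₁, ?_⟩
    intro a ha h1 g
    obtain ⟨s, hs, h3⟩ := hI a ha ⟨_, h1, by rw [inv_mul_cancel]; exact W.one_mem⟩ g
    have hWP : W ≤ (S : Subgroup K) := by
      have hNp : IsPGroup q W := by
        intro a
        refine ⟨1, ?_⟩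
        rw [pow_one, ← hlq]
        exact Subtype.ext (by exact_mod_cast hWl a a.2)
      exact hNp.le_sylow_of_normal S
    have := (S : Subgroup K).mul_mem hs (hWP h3)
    rw [mul_inv_cancel_left] at this
    exact this
  have hql : q ≠ l := fun h => hlq h.symm
  obtain ⟨D, hDm⟩ := stage_subgroup' W (S : Subgroup K) k₁
  have hDp : IsPGroup q D := S.isPGroup'.to_le (fun a ha => ((hDm a).1 ha).1)
  obtain ⟨w₁, hw₁, hw₁'⟩ := conj_into' hq hl hql W hWl S D hDp k₁ (fun a ha => ((hDm a).1 ha).2)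
  -- the normal subgroup L
  let L : Subgroup K := ((Sb : Subgroup (K ⧸ W)).normalCore).comap (QuotientGroup.mk' W)
  have hLm : ∀ a, a ∈ L ↔ ∀ g : K, ∃ s ∈ S, s⁻¹ * (g * a * g⁻¹) ∈ W := by
    intro a
    constructor
    · intro h g
      have h1 : QuotientGroup.mk' W a ∈ (Sb : Subgroup (K ⧸ W)).normalCore := h
      have h2 : QuotientGroup.mk' W g * QuotientGroup.mk' W a * (QuotientGroup.mk' W g)⁻¹ ∈ Sb :=
        h1 (QuotientGroup.mk' W g)
      exact (hSbm _).1 (by simpa only [map_mul, map_inv] using h2)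
    · intro h
      change QuotientGroup.mk' W a ∈ (Sb : Subgroup (K ⧸ W)).normalCore
      intro gb
      obtain ⟨g, rfl⟩ := hsurj gb
      have h5 := (hSbm _).2 (h g)
      simp only [map_mul, map_inv] at h5
      exact h5
  have hLn : L.Normal := (Subgroup.normalCore_normal _).comap _
  have hLq : ∀ a ∈ L, ∃ n : ℕ, a ^ q ^ n ∈ W := by
    intro a ha
    obtain ⟨s, hs, h1⟩ := (hLm a).1 ha 1
    have h2 : QuotientGroup.mk' W a ∈ (Sb : Subgroup (K ⧸ W)) := by
      apply (hSbm a).2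
      refine ⟨s, hs, ?_⟩
      have e : (1 : K) * a * 1⁻¹ = a := by group
      rw [e] at h1
      exact h1
    obtain ⟨n, hn⟩ := pow_card_one Sb.isPGroup' h2
    refine ⟨n, ?_⟩
    rw [← hker, map_pow]
    exact hn
  let C : Subgroup K := Subgroup.centralizer (W : Set K)
  have hCm : ∀ c, c ∈ C ↔ ∀ w ∈ W, c * w = w * c := by
    intro c
    rw [Subgroup.mem_centralizer_iff]
    constructor
    · intro h w hw
      exact (h w hw).symm
    · intro h w hw
      exact (h w hw).symm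
  have hCn : C.Normal := by
    constructor
    intro c hc g
    rw [hCm] at hc ⊢
    intro w hw
    have h1 := hc (g⁻¹ * w * g) (by
      have := hW.conj_mem w hw g⁻¹
      simpa using this)
    calc g * c * g⁻¹ * w = g * (c * (g⁻¹ * w * g)) * g⁻¹ := by group
      _ = g * (g⁻¹ * w * g * c) * g⁻¹ := by rw [h1]
      _ = w * (g * c * g⁻¹) := by group
  have hWC : W ≤ C := by
    intro w hw
    rw [hCm]
    intro w' hw'
    exact hWc w hw w' hw'
  obtain ⟨f, hfW, hf⟩ := RV hl hq hlq W hWc hWl L (by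
      intro a ha
      obtain ⟨n, hn⟩ := hLq a ha
      exact ⟨n, fun w hw => hWc _ hn w hw⟩) (by
      intro a ha b hb h1 h2
      have h3 := hHQ q hq hq2 C L hCn hLn bot_le (by
        intro c hc
        obtain ⟨n, hn⟩ := hLq c hc
        exact ⟨n, hWC hn⟩) a ha b hb ((hCm _).2 h1) ((hCm _).2 h2)
      exact (hCm _).1 h3) 1 W.one_mem
  refine ⟨k₁ * w₁ * f, ?_⟩
  intro a ha hk g
  have haD : a ∈ D := by
    refine (hDm a).2 ⟨ha, _, hk, ?_⟩
    apply stage_congr W k₁ (w₁ * f) a _ (W.mul_mem hw₁ hfW)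
    rw [← mul_assoc k₁ w₁ f, inv_mul_cancel]
    exact W.one_mem
  have h1 := hw₁' a haD
  have hcom : a * f = f * a := commute_of_conj hq hl hql W hWl S (k₁ * w₁) f a hfW h1 hk
  have haL : a ∈ L := (hLm a).2 (hI a ha ((hDm a).1 haD).2)
  have hcen := hf a haL (by rw [one_mul]; exact hcom)
  let E : Subgroup K := (L ⊓ C) ⊓ (S : Subgroup K)
  have hEp : IsPGroup q (E.map (MulAut.conj g).toMonoidHom) :=
    (S.isPGroup'.to_le inf_le_right : IsPGroup q E).map _
  obtain ⟨z, hz, hzm⟩ := conj_into hq hl hql W (S : Subgroup K)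
    (E.map (MulAut.conj g).toMonoidHom) hWl S.isPGroup' hEp (by
      rintro _ ⟨b, hb, rfl⟩
      exact (hLm b).1 hb.1.1 g)
  have h2 := hzm (g * a * g⁻¹) ⟨a, ⟨⟨haL, (hCm a).2 hcen⟩, ha⟩, rfl⟩
  have h3 : (g * a * g⁻¹) * z = z * (g * a * g⁻¹) :=
    (hCm _).1 (hCn.conj_mem a ((hCm a).2 hcen) g) z hz
  rw [← h3, mul_inv_cancel_right] at h2
  exact h2

end Pool.H45.S2
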