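import Pool.Agent.H45.S2.EX
import Pool.Agent.H49.SylInd

/-!
Project MP_e5a1a5_T2, row LC: `LL` and `EX` for conjugation on an elementary abelian normal subgroup `Z`.

`K` acts faithfully on `Z` by `ψ`, `φ : G →* K` and `ψ (φ g)` is conjugation by `g`.  `A` is an abelian normal subgroup of `K`
of odd order prime to `r`.

Proofs.
* Common setup (as in `Pool.H45.SY.lemmaA_grp`, `Pool.H45.SY.lemmaA_conj`, file Pool/Agent/H45/SY/GR1.lean):
  `let cg : CommGroup Z := { (inferInstance : Group Z) with mul_comm := .. }` from `hZc`, likewise `CommGroup A` from `hAc`;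
  `Fact r.Prime`, `F = ZMod r`, `let inst : Module (ZMod r) (Additive Z) := AddCommGroup.zmodModule (n := r) ..`;
  `V = Additive Z`; `rho0 Z r ψ : K →* Module.End (ZMod r) (Additive Z)` with `rho0_apply`
  (file Pool/Agent/H49/SylInd.lean); `ρ = (rho0 Z r ψ).comp A.subtype : A →* Module.End _ _`.
  `(Nat.card A : ZMod r) ≠ 0` by `ZMod.natCast_eq_zero_iff` and `hAr`; `(2 : ZMod r) ≠ 0` because `r ≠ 2` is prime.
  `GoodK ψ A z` is exactly `Good ρ ⟨z, hz⟩` (unfold; `w = ρ (z^m) v - v` corresponds to `ψ (z^m) v * v⁻¹`).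
* `exists_goodK`: `exists_good` with `hinj`: if `ρ a` is the identity then `ψ a = 1`, so `a = 1` (`hψ`).
* `goodK_conj`: for `q`, `a` use the hypothesis with `k⁻¹ * a * k`; it gives `v`; take `ψ k v`:
  `(k z k⁻¹)^m = k z^m k⁻¹` (`conj_pow`), so `ψ ((k z k⁻¹)^m) (ψ k v) * (ψ k v)⁻¹ = ψ k (ψ (z^m) v * v⁻¹)` and
  `ψ a (ψ k w) = ψ k (ψ (k⁻¹ a k) w)`; `ψ k` is injective.  (No linear algebra here.)
* `LLconj`: apply `LL` with `D` (the group `↥D`), `τ = ((rho0 Z r ψ).comp φ).comp D.subtype`,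
  `θ g = MulAut.conjNormal (φ g) : MulAut A` (`A.Normal`), `t`, and the shifts `σ' q = σ q * s⁻¹` (in `Z`).  It gives `x ∈ Z`;
  put `f = s⁻¹ * x`.  Then `s * f = x` and `σ q * f = σ' q * x = x * σ' q`.  If `g ∈ D` commutes with `s * f` then
  `τ g x = x`, hence `τ g t = t` and `θ g a = a` for `a^q = 1`.  If `φ g ∈ A`, `(φ g)^q = 1` and `g` commutes with
  `σ q * f` then `ρ ⟨φ g, _⟩ (x + σ' q) = x + σ' q`, so `φ g = 1`.
-/

set_option autoImplicit false

namespace Pool.H45.S2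

open Pool.Agent.H49.Syl

universe u

/-- `z` is good for the action of the subgroup `A` of `K` on `Z` -/
def GoodK {K Z : Type*} [Group K] [Group Z] (ψ : K →* MulAut Z) (A : Subgroup K) (z : K) : Prop :=
  ∀ q : ℕ, q.Prime → ∀ a ∈ A, a ^ q = 1 → a ≠ 1 →
    ∃ v : Z, ψ a (ψ (z ^ mq A q) v * v⁻¹) ≠ ψ (z ^ mq A q) v * v⁻¹

/-- the multiplicative form of `Good` -/
def GoodA {B A : Type*} [CommGroup B] [CommGroup A] (ψ : B →* MulAut A) (z : B) : Prop :=
  ∀ q : ℕ, q.Prime → ∀ a : B, a ^ q = 1 → a ≠ 1 →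
    ∃ v : A, ψ a (ψ (z ^ mq B q) v * v⁻¹) ≠ ψ (z ^ mq B q) v * v⁻¹

theorem good_iff {r : ℕ} (B A : Type u) [CommGroup B] [CommGroup A]
    [Module (ZMod r) (Additive A)] [Fact r.Prime] (ψ : B →* MulAut A) (z : B) :
    Good (F := ZMod r) (rho0 A r ψ) z ↔ GoodA ψ z := by
  constructor
  · intro h q hq a haq ha1
    obtain ⟨v, hv⟩ := h q hq a haq ha1
    refine ⟨Additive.toMul v, ?_⟩
    intro hc
    apply hv
    have e : (rho0 A r ψ (z ^ mq B q)) v - v =
        Additive.ofMul (ψ (z ^ mq B q) (Additive.toMul v) * (Additive.toMul v)⁻¹) := by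
      have h1 := rho0_apply A r ψ (z ^ mq B q) (Additive.toMul v)
      rw [ofMul_toMul] at h1
      rw [h1, sub_eq_add_neg]
      rfl
    rw [e, rho0_apply, hc]
  · intro h q hq a haq ha1
    obtain ⟨v, hv⟩ := h q hq a haq ha1
    refine ⟨Additive.ofMul v, ?_⟩
    intro hc
    apply hv
    have e : (rho0 A r ψ (z ^ mq B q)) (Additive.ofMul v) - Additive.ofMul v =
        Additive.ofMul (ψ (z ^ mq B q) v * v⁻¹) := by
      rw [rho0_apply, sub_eq_add_neg]
      rfl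
    rw [e, rho0_apply] at hc
    exact Additive.ofMul.injective hc

theorem exists_goodA {r : ℕ} (hr : r.Prime) (A : Type u) [CommGroup A]
    (hA : ∀ a : A, a ^ r = 1) (B : Type u) [CommGroup B] [Finite B]
    (hBr : ¬ r ∣ Nat.card B) (ψ : B →* MulAut A) (hψ : Function.Injective ψ) :
    ∃ z, GoodA ψ z := by
  have := Fact.mk hr
  have inst : Module (ZMod r) (Additive A) := AddCommGroup.zmodModule (n := r) (by
    intro x
    exact hA (Additive.toMul x))
  have hN : (Nat.card B : ZMod r) ≠ 0 := by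
    intro h0
    rw [ZMod.natCast_eq_zero_iff] at h0
    exact hBr h0
  obtain ⟨z, hz⟩ := exists_good hN (rho0 A r ψ) (by
    intro a ha
    apply hψ
    rw [map_one]
    apply MulEquiv.ext
    intro v
    have := ha (Additive.ofMul v)
    rw [rho0_apply] at this
    exact Additive.ofMul.injective this)
  exact ⟨z, (good_iff B A ψ z).1 hz⟩

theorem LLA {r : ℕ} (hr : r.Prime) (hr2 : r ≠ 2) (A : Type u) [CommGroup A]
    (hA : ∀ a : A, a ^ r = 1) (B : Type u) [CommGroup B] [Finite B] (hodd : Odd (Nat.card B))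
    (hBr : ¬ r ∣ Nat.card B) (ψ : B →* MulAut A) {D : Type u} [Group D] [Finite D]
    (hD : IsPGroup 2 D) (τ : D →* MulAut A) (θ : D →* MulAut B)
    (hθ : ∀ g b v, τ g (ψ b v) = ψ (θ g b) (τ g v)) (z : B) (hz : ∀ g, θ g z = z)
    (hgood : GoodA ψ z) (t : A) (σ : ℕ → A) :
    ∃ x : A, (∀ g : D, τ g x = x → τ g t = t ∧ ∀ q : ℕ, q.Prime → ∀ a : B, a ^ q = 1 → θ g a = a) ∧
      ∀ q : ℕ, q.Prime → ∀ a : B, a ^ q = 1 → ψ a (x * σ q) = x * σ q → a = 1 := by
  have := Fact.mk hr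
  have inst : Module (ZMod r) (Additive A) := AddCommGroup.zmodModule (n := r) (by
    intro x
    exact hA (Additive.toMul x))
  have hN : (Nat.card B : ZMod r) ≠ 0 := by
    intro h0
    rw [ZMod.natCast_eq_zero_iff] at h0
    exact hBr h0
  have h2 : (2 : ZMod r) ≠ 0 := by
    intro h0
    have h1 : ((2 : ℕ) : ZMod r) = 0 := by exact_mod_cast h0
    rw [ZMod.natCast_eq_zero_iff] at h1
    exact hr2 ((Nat.prime_dvd_prime_iff_eq hr Nat.prime_two).1 h1)
  obtain ⟨x, hx1, hx2⟩ := LL h2 hodd hN (rho0 A r ψ) hD (rho0 A r τ) θ (by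
    intro g b v
    have := hθ g b (Additive.toMul v)
    have e1 : v = Additive.ofMul (Additive.toMul v) := rfl
    rw [e1, rho0_apply, rho0_apply, rho0_apply, rho0_apply, this]) z hz
    ((good_iff B A ψ z).2 hgood) (Additive.ofMul t) (fun q => Additive.ofMul (σ q))
  refine ⟨Additive.toMul x, ?_, ?_⟩
  · intro g hg
    obtain ⟨h3, h4⟩ := hx1 g (by
      have e1 : x = Additive.ofMul (Additive.toMul x) := rfl
      rw [e1, rho0_apply, hg])
    refine ⟨?_, h4⟩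
    rw [rho0_apply] at h3
    exact Additive.ofMul.injective h3
  · intro q hq a haq hfix
    apply hx2 q hq a haq
    have e1 : x + Additive.ofMul (σ q) = Additive.ofMul (Additive.toMul x * σ q) := rfl
    rw [e1, rho0_apply, hfix]

theorem exists_goodK {G : Type u} [Group G] [Finite G] {r : ℕ} (hr : r.Prime) (Z : Subgroup G)
    (hZc : ∀ a ∈ Z, ∀ b ∈ Z, a * b = b * a) (hZr : ∀ a ∈ Z, a ^ r = 1)
    {K : Type u} [Group K] [Finite K] (ψ : K →* MulAut Z) (hψ : Function.Injective ψ)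
    (A : Subgroup K) (hAc : ∀ a ∈ A, ∀ b ∈ A, a * b = b * a) (hAr : ¬ r ∣ Nat.card A) :
    ∃ z ∈ A, GoodK ψ A z := by
  let cg : CommGroup Z := { (inferInstance : Group Z) with
    mul_comm := fun a b => Subtype.ext (hZc a a.2 b b.2) }
  let ca : CommGroup A := { (inferInstance : Group A) with
    mul_comm := fun a b => Subtype.ext (hAc a a.2 b b.2) }
  obtain ⟨z, hz⟩ := exists_goodA hr Z (fun a => Subtype.ext (hZr a a.2)) A hAr
    (ψ.comp A.subtype) (hψ.comp A.subtype_injective)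
  refine ⟨z, z.2, ?_⟩
  intro q hq a ha haq ha1
  obtain ⟨v, hv⟩ := hz q hq ⟨a, ha⟩ (Subtype.ext haq) (fun h => ha1 (congrArg Subtype.val h))
  exact ⟨v, hv⟩

theorem goodK_conj {K Z : Type*} [Group K] [Group Z] (ψ : K →* MulAut Z) (A : Subgroup K)
    [hA : A.Normal] (z k : K) (h : GoodK ψ A z) : GoodK ψ A (k * z * k⁻¹) := by
  intro q hq a ha haq ha1
  obtain ⟨v, hv⟩ := h q hq (k⁻¹ * a * k) (by
    have := hA.conj_mem a ha k⁻¹
    simpa using this) (by
    have e : k⁻¹ * a * k = k⁻¹ * a * k⁻¹⁻¹ := by rw [inv_inv]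
    rw [e, conj_pow, haq, mul_one, mul_inv_cancel]) (by
    intro hc
    apply ha1
    have : a = k * (k⁻¹ * a * k) * k⁻¹ := by group
    rw [this, hc, mul_one, mul_inv_cancel])
  refine ⟨ψ k v, ?_⟩
  intro hc
  apply hv
  have e1 : ψ ((k * z * k⁻¹) ^ mq A q) (ψ k v) * (ψ k v)⁻¹ = ψ k (ψ (z ^ mq A q) v * v⁻¹) := by
    rw [conj_pow, map_mul, map_mul, map_mul, map_inv]
    have e2 : ((ψ k * ψ (z ^ mq A q) * (ψ k)⁻¹ : MulAut Z) (ψ k v)) = ψ k (ψ (z ^ mq A q) v) := by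
      have : (ψ k)⁻¹ (ψ k v) = v := MulAut.inv_apply_self Z (ψ k) v
      rw [MulAut.mul_apply, MulAut.mul_apply, this]
    rw [e2, map_inv]
  rw [e1] at hc
  have e3 : ψ a (ψ k (ψ (z ^ mq A q) v * v⁻¹)) =
      ψ k (ψ (k⁻¹ * a * k) (ψ (z ^ mq A q) v * v⁻¹)) := by
    rw [← MulAut.mul_apply, ← MulAut.mul_apply, ← map_mul, ← map_mul]
    congr 2
    group
  rw [e3] at hc
  exact (ψ k).injective hc

theorem LLconj {G : Type u} [Group G] [Finite G] {r : ℕ} (hr : r.Prime) (hr2 : r ≠ 2)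
    (Z : Subgroup G) [Z.Normal]
    (hZc : ∀ a ∈ Z, ∀ b ∈ Z, a * b = b * a) (hZr : ∀ a ∈ Z, a ^ r = 1)
    {K : Type u} [Group K] [Finite K] (φ : G →* K) (ψ : K →* MulAut Z)
    (hψφ : ∀ (g : G) (n : Z), ((ψ (φ g) n : Z) : G) = g * n * g⁻¹)
    (A : Subgroup K) [A.Normal] (hAc : ∀ a ∈ A, ∀ b ∈ A, a * b = b * a)
    (hAodd : Odd (Nat.card A)) (hAr : ¬ r ∣ Nat.card A) (z : K) (hz : z ∈ A) (hgood : GoodK ψ A z)
    (D : Subgroup G) (hD : IsPGroup 2 D) (hDz : ∀ g ∈ D, φ g * z = z * φ g)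
    (s t : G) (hs : s ∈ Z) (ht : t ∈ Z) (σ : ℕ → G) (hσ : ∀ q, σ q ∈ Z) :
    ∃ f ∈ Z, (∀ g ∈ D, g * (s * f) = (s * f) * g → g * t = t * g ∧
        ∀ q : ℕ, q.Prime → ∀ a ∈ A, a ^ q = 1 → φ g * a = a * φ g) ∧
      ∀ q : ℕ, q.Prime → ∀ g : G, φ g ∈ A → (φ g) ^ q = 1 →
        g * (σ q * f) = (σ q * f) * g → φ g = 1 := by
  let cg : CommGroup Z := { (inferInstance : Group Z) with
    mul_comm := fun a b => Subtype.ext (hZc a a.2 b b.2) }
  let ca : CommGroup A := { (inferInstance : Group A) with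
    mul_comm := fun a b => Subtype.ext (hAc a a.2 b b.2) }
  obtain ⟨x, hx1, hx2⟩ := LLA hr hr2 Z (fun a => Subtype.ext (hZr a a.2)) A hAodd hAr
    (ψ.comp A.subtype) (D := D) hD ((ψ.comp φ).comp D.subtype)
    ((MulAut.conjNormal : K →* MulAut A).comp (φ.comp D.subtype)) (by
      intro g b v
      change ψ (φ g) (ψ (b : K) v) = ψ ((MulAut.conjNormal (φ g) b : A) : K) (ψ (φ g) v)
      rw [MulAut.conjNormal_apply, ← MulAut.mul_apply, ← MulAut.mul_apply, ← map_mul, ← map_mul,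
        inv_mul_cancel_right]) ⟨z, hz⟩ (by
      intro g
      apply Subtype.ext
      change ((MulAut.conjNormal (φ g) (⟨z, hz⟩ : A) : A) : K) = z
      rw [MulAut.conjNormal_apply]
      change φ g * z * (φ g)⁻¹ = z
      rw [hDz g g.2, mul_inv_cancel_right]) (by
      intro q hq a haq ha1
      exact hgood q hq a a.2 (congrArg Subtype.val haq) (fun h => ha1 (Subtype.ext h)))
    ⟨t, ht⟩ (fun q => ⟨σ q * s⁻¹, Z.mul_mem (hσ q) (Z.inv_mem hs)⟩)
  have hcx : ∀ (g : G) (n : Z), g * (n : G) = n * g ↔ ψ (φ g) n = n := by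
    intro g n
    constructor
    · intro h
      apply Subtype.ext
      rw [hψφ, h, mul_inv_cancel_right]
    · intro h
      have := hψφ g n
      rw [h, eq_mul_inv_iff_mul_eq] at this
      exact this.symm
  refine ⟨s⁻¹ * (x : G), Z.mul_mem (Z.inv_mem hs) x.2, ?_, ?_⟩
  · intro g hg hc
    rw [mul_inv_cancel_left] at hc
    obtain ⟨h1, h2⟩ := hx1 ⟨g, hg⟩ ((hcx g x).1 hc)
    refine ⟨(hcx g ⟨t, ht⟩).2 h1, ?_⟩
    intro q hq a ha haq
    have h3 := h2 q hq ⟨a, ha⟩ (Subtype.ext haq)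
    have h4 := congrArg Subtype.val h3
    change ((MulAut.conjNormal (φ g) (⟨a, ha⟩ : A) : A) : K) = a at h4
    rw [MulAut.conjNormal_apply] at h4
    change φ g * a * (φ g)⁻¹ = a at h4
    rw [mul_inv_eq_iff_eq_mul] at h4
    exact h4
  · intro q hq g hgA hgq hc
    have h1 := hx2 q hq ⟨φ g, hgA⟩ (Subtype.ext hgq) (by
      change ψ (φ g) (x * ⟨σ q * s⁻¹, _⟩) = x * ⟨σ q * s⁻¹, _⟩
      rw [← hcx]
      change g * ((x : G) * (σ q * s⁻¹)) = ((x : G) * (σ q * s⁻¹)) * g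
      have e : (x : G) * (σ q * s⁻¹) = σ q * (s⁻¹ * (x : G)) := by
        rw [hZc x x.2 _ (Z.mul_mem (hσ q) (Z.inv_mem hs)), mul_assoc]
      rw [e]
      exact hc)
    exact congrArg Subtype.val h1

end Pool.H45.S2
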