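import Mathlib

/-!
Project MP_e5a1a5_T2, row LD: list distinguishing for 2-groups.

A finite 2-group `D` acts on `I` and on `X`.  Every `i` in the finite set `O` has a set `L i` of allowed colours in `X`
such that any two `D`-orbits of `X` can be avoided inside `L i`.  Then there is a choice of colours `c` on `O` such that
every `g` preserving the colouring (`c (g i) = g (c i)` for all `i` in `O`) fixes every point of `O`.

Proof.  For a subgroup `D₁`, functions `c, φ : I → X` and `O` say `c ~ φ` if for some `g ∈ D₁` one has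
`c (g i) = g (φ i)` for all `i ∈ O`.  We show by strong induction on `O.card`:
CLAIM.  For every subgroup `D₁`, every nonempty `D₁`-invariant `O` (with `hL` for the points of `O`) and all
`φ₁ φ₂ : I → X` there is `c` with `c i ∈ L i` on `O`, which is distinguishing for `D₁` on `O`, and with `c ≁ φ₁`,
`c ≁ φ₂` (on `O`, for `D₁`).
Case 1: `O` is not a single `D₁`-orbit.  Take `i₀ ∈ O`, `O' = ` orbit of `i₀` (a `Finset.filter`), `O'' = O \ O'`, both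
  nonempty, invariant, smaller.  Apply the claim to `O'` with `φ₁, φ₂` and to `O''` with `φ₁, φ₂`, and glue
  (`c i = if i ∈ O' then c' i else c'' i`).  A relation `c ~ φ₁` on `O` restricts to `O'`.
Case 2: `O = {i₀}`: choose `c i₀ ∈ L i₀` avoiding the `D`-orbits of `φ₁ i₀`, `φ₂ i₀`.
Case 3: `O` is one orbit of `D₁` and has at least two points.  The stabiliser `T` of `i₀` in `D₁` is proper.  As `D₁` is a
  2-group there is `D₂` with `T ≤ D₂ ≤ D₁` of index 2 in `D₁` (`Sylow.exists_subgroup_card_pow_prime_le` applied in the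
  group `↥D₁`), so `D₂` is normalised by `D₁`, and for `g₀ ∈ D₁ \ D₂` every element of `D₁ \ D₂` is `h * g₀` and also
  `h * g₀⁻¹` with `h ∈ D₂`.  Let `O₁ = D₂ i₀` and `O₂ = O \ O₁`; since `T ≤ D₂`, elements of `D₂` preserve `O₁` and `O₂`
  and elements of `D₁ \ D₂` exchange them (if `g i₁ = i₂` with `i₁, i₂ ∈ O₁`, `i₁ = h₁ i₀`, `i₂ = h₂ i₀`, then
  `h₂⁻¹ g h₁ ∈ T`, so `g ∈ D₂`).  Both are nonempty, so smaller than `O`.
  Write `(g₀⁻¹ φ) i = g₀⁻¹ (φ (g₀ i))` and `(g₀ α) i = g₀ (α (g₀⁻¹ i))`.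
  By the claim for `(D₂, O₁)` choose `α` avoiding `φ₁` and `g₀⁻¹ φ₁`.  By the claim for `(D₂, O₂)` choose `β` avoiding
  `g₀ α` and `ψ`, where `ψ = φ₂` if `α ~ φ₂` on `O₁` (for `D₂`) and `ψ = g₀⁻¹ φ₂` otherwise.  Let `c = α` on `O₁` and
  `c = β` on `O₂`.
  - `c ≁ φ₁` for `D₁`: if `g ∈ D₂` then `α ~ φ₁` on `O₁`; if `g = h g₀⁻¹` then `α ~ g₀⁻¹ φ₁` on `O₁` via `h`
    (for `i ∈ O₁`: `c (g (g₀ i)) = g (φ₁ (g₀ i))`, i.e. `α (h i) = h (g₀⁻¹ (φ₁ (g₀ i)))`).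
  - `c ≁ φ₂`: suppose `c (g i) = g (φ₂ i)` on `O`.  If `g ∈ D₂`, then `α ~ φ₂` on `O₁`, so `ψ = φ₂`, but `β ~ φ₂` on
    `O₂`, a contradiction.  If `g = h g₀⁻¹`, then `α ~ g₀⁻¹ φ₂` on `O₁` and `β ~ g₀⁻¹ φ₂` on `O₂`, both via `h`.  If
    `α ≁ φ₂` then `ψ = g₀⁻¹ φ₂`, contradiction.  If `α ~ φ₂` on `O₁` via `k ∈ D₂` (`α (k i) = k (φ₂ i)` for `i ∈ O₁`), then
    on `O₂` we get `g₀⁻¹ φ₂ ~ g₀ α`: for `j ∈ O₂`, `i = g₀ j ∈ O₁`,
    `(g₀⁻¹ φ₂) j = g₀⁻¹ (φ₂ i) = g₀⁻¹ (k⁻¹ (α (k i))) = m ((g₀ α) (m⁻¹ j))` with `m = g₀⁻¹ k⁻¹ g₀⁻¹ ∈ D₂`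
    (`m⁻¹ j = g₀ k g₀ j = g₀ k i`, `(g₀ α) (g₀ k i) = g₀ (α (k i))`), so `β ~ g₀ α`, a contradiction.
  - distinguishing: let `g ∈ D₁` preserve `c`.  If `g ∈ D₂`, it preserves `α` and `β`, so it fixes `O₁` and `O₂`
    pointwise.  If `g = h g₀` with `h ∈ D₂`, then for `i ∈ O₁`: `β (h g₀ i) = c (g i) = g (α i) = h (g₀ (α i))
    = h ((g₀ α) (g₀ i))`, i.e. `β ~ g₀ α` on `O₂` via `h`, a contradiction.
-/

set_option autoImplicit false

namespace Pool.H45.S2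

/-- a subgroup of index two between `T` and `D₁` -/
theorem ld_index {D : Type*} [Group D] [Finite D] (hD : IsPGroup 2 D) (D₁ T : Subgroup D)
    (hT : T < D₁) : ∃ D₂ : Subgroup D, T ≤ D₂ ∧ D₂ ≤ D₁ ∧ ∃ g₀ ∈ D₁, g₀ ∉ D₂ ∧
      (∀ g ∈ D₁, g ∉ D₂ → ∃ h ∈ D₂, g = h * g₀) ∧ (∀ g ∈ D₁, g ∉ D₂ → ∃ h ∈ D₂, g = h * g₀⁻¹) ∧
      (∀ g ∈ D₁, ∀ g' ∈ D₁, g ∉ D₂ → g' ∉ D₂ → g * g' ∈ D₂) ∧
      (∀ g ∈ D₁, ∀ k ∈ D₂, g * k * g⁻¹ ∈ D₂) := by
  have hfact : Fact (Nat.Prime 2) := ⟨Nat.prime_two⟩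
  have hD1 : IsPGroup 2 D₁ := hD.to_subgroup D₁
  obtain ⟨n, hn⟩ := IsPGroup.iff_card.1 hD1
  have hTp : IsPGroup 2 (T.subgroupOf D₁) := hD1.to_subgroup _
  obtain ⟨m, hm⟩ := IsPGroup.iff_card.1 hTp
  have hlt : Nat.card (T.subgroupOf D₁) < Nat.card D₁ := by
    have h1 : Nat.card (T.subgroupOf D₁) = Nat.card T :=
      Nat.card_congr (Subgroup.subgroupOfEquivOfLe hT.le).toEquiv
    rw [h1]
    exact Set.Finite.card_lt_card (Set.toFinite _) hT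
  have hmn : m < n := by
    rw [hm, hn] at hlt
    exact (Nat.pow_lt_pow_iff_right (by norm_num)).1 hlt
  obtain ⟨n', rfl⟩ : ∃ n', n = n' + 1 := ⟨n - 1, by omega⟩
  have hdvd : 2 ^ n' ∣ Nat.card D₁ := by
    rw [hn, pow_succ]
    exact dvd_mul_right _ _
  obtain ⟨K, hK, hTK⟩ := Sylow.exists_subgroup_card_pow_prime_le (G := D₁) 2 hdvd (T.subgroupOf D₁) hm
    (by omega)
  have hKi : K.index = 2 := by
    have h1 := K.card_mul_index
    rw [hK, hn, pow_succ] at h1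
    exact Nat.eq_of_mul_eq_mul_left (by positivity) h1
  have hmem : ∀ (g : D) (hg : g ∈ D₁), g ∈ K.map D₁.subtype ↔ (⟨g, hg⟩ : D₁) ∈ K := by
    intro g hg
    rw [Subgroup.mem_map]
    constructor
    · rintro ⟨x, hx, rfl⟩
      exact hx
    · intro h
      exact ⟨_, h, rfl⟩
  have hmul : ∀ a b : D₁, (a * b ∈ K ↔ (a ∈ K ↔ b ∈ K)) := fun a b =>
    Subgroup.mul_mem_iff_of_index_two hKi
  obtain ⟨g₀, hg₀⟩ : ∃ g : D₁, g ∉ K := by
    by_contra hcon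
    push Not at hcon
    have : K = ⊤ := (Subgroup.eq_top_iff' K).2 hcon
    rw [this, Subgroup.index_top] at hKi
    norm_num at hKi
  have hle : K.map D₁.subtype ≤ D₁ := by
    intro x hx
    obtain ⟨y, -, rfl⟩ := Subgroup.mem_map.1 hx
    exact y.2
  have hg₀' : (g₀ : D) ∉ K.map D₁.subtype := by
    rw [hmem _ g₀.2]
    exact hg₀
  have key : ∀ g ∈ D₁, ∀ g' ∈ D₁, g ∉ K.map D₁.subtype → g' ∉ K.map D₁.subtype →
      g * g' ∈ K.map D₁.subtype := by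
    intro g hg g' hg' h1 h2
    rw [hmem _ hg] at h1
    rw [hmem _ hg'] at h2
    rw [hmem _ (D₁.mul_mem hg hg')]
    have := (hmul ⟨g, hg⟩ ⟨g', hg'⟩).2 (by tauto)
    exact this
  have hinv : (g₀ : D)⁻¹ ∉ K.map D₁.subtype := fun h => hg₀' (by simpa using Subgroup.inv_mem _ h)
  refine ⟨K.map D₁.subtype, ?_, hle, g₀, g₀.2, hg₀', ?_, ?_, key, ?_⟩
  · intro t ht
    rw [hmem t (hT.le ht)]
    exact hTK (Subgroup.mem_subgroupOf.2 ht)
  · intro g hg hgn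
    exact ⟨g * (g₀ : D)⁻¹, key g hg _ (D₁.inv_mem g₀.2) hgn hinv, by group⟩
  · intro g hg hgn
    exact ⟨g * (g₀ : D), key g hg _ g₀.2 hgn hg₀', by group⟩
  · intro g hg k hk
    have hk1 := hle hk
    rw [hmem _ hk1] at hk
    rw [hmem _ (D₁.mul_mem (D₁.mul_mem hg hk1) (D₁.inv_mem hg))]
    have hKn : K.Normal := Subgroup.normal_of_index_eq_two hKi
    have := hKn.conj_mem _ hk ⟨g, hg⟩
    exact this

theorem ld_claim {D I X : Type*} [Group D] [Finite D] (hD : IsPGroup 2 D) [MulAction D I]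
    [MulAction D X] (L : I → Set X) : ∀ (n : ℕ) (D₁ : Subgroup D) (O : Finset I), O.card = n →
    O.Nonempty → (∀ g ∈ D₁, ∀ i ∈ O, g • i ∈ O) →
    (∀ i ∈ O, ∀ w₁ w₂ : X, ∃ x ∈ L i, (∀ g : D, x ≠ g • w₁) ∧ ∀ g : D, x ≠ g • w₂) →
    ∀ φ₁ φ₂ : I → X, ∃ c : I → X, (∀ i ∈ O, c i ∈ L i) ∧
      (∀ g ∈ D₁, (∀ i ∈ O, c (g • i) = g • c i) → ∀ i ∈ O, g • i = i) ∧
      (∀ g ∈ D₁, ¬ ∀ i ∈ O, c (g • i) = g • φ₁ i) ∧
      ∀ g ∈ D₁, ¬ ∀ i ∈ O, c (g • i) = g • φ₂ i := by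
  classical
  intro n
  induction n using Nat.strong_induction_on with
  | _ n ih =>
  intro D₁ O hn hO hinv hL φ₁ φ₂
  obtain ⟨i₀, hi₀⟩ := hO
  let O' : Finset I := O.filter (fun i => ∃ g ∈ D₁, i = g • i₀)
  have hO'm : ∀ i, i ∈ O' ↔ i ∈ O ∧ ∃ g ∈ D₁, i = g • i₀ := by
    intro i
    exact Finset.mem_filter
  have hi₀' : i₀ ∈ O' := (hO'm i₀).2 ⟨hi₀, 1, D₁.one_mem, (one_smul D i₀).symm⟩
  have hO'O : O' ⊆ O := Finset.filter_subset _ _
  by_cases hc1 : O' = O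
  swap
  · -- case 1
    have hO''m : ∀ i, i ∈ O \ O' ↔ i ∈ O ∧ i ∉ O' := fun i => Finset.mem_sdiff
    have hne : (O \ O').Nonempty := by
      rw [Finset.sdiff_nonempty]
      intro h
      exact hc1 (Finset.Subset.antisymm hO'O h)
    have hinv' : ∀ g ∈ D₁, ∀ i ∈ O', g • i ∈ O' := by
      intro g hg i hi
      obtain ⟨h1, k, hk, h2⟩ := (hO'm i).1 hi
      refine (hO'm _).2 ⟨hinv g hg i h1, g * k, D₁.mul_mem hg hk, ?_⟩
      rw [h2, mul_smul]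
    have hinv'' : ∀ g ∈ D₁, ∀ i ∈ O \ O', g • i ∈ O \ O' := by
      intro g hg i hi
      obtain ⟨h1, h2⟩ := (hO''m i).1 hi
      refine (hO''m _).2 ⟨hinv g hg i h1, ?_⟩
      intro h3
      apply h2
      have := hinv' g⁻¹ (D₁.inv_mem hg) _ h3
      rwa [inv_smul_smul] at this
    have hlt1 : O'.card < n := by
      rw [← hn]
      apply Finset.card_lt_card
      exact ⟨hO'O, fun h => hc1 (Finset.Subset.antisymm hO'O h)⟩
    have hlt2 : (O \ O').card < n := by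
      rw [← hn]
      apply Finset.card_lt_card
      refine ⟨Finset.sdiff_subset, fun h => ?_⟩
      exact ((hO''m i₀).1 (h hi₀)).2 hi₀'
    obtain ⟨c', h1, h2, h3, h4⟩ := ih _ hlt1 D₁ O' rfl ⟨i₀, hi₀'⟩ hinv'
      (fun i hi => hL i (hO'O hi)) φ₁ φ₂
    obtain ⟨c'', k1, k2, k3, k4⟩ := ih _ hlt2 D₁ (O \ O') rfl hne hinv''
      (fun i hi => hL i ((hO''m i).1 hi).1) φ₁ φ₂
    let c : I → X := fun i => if i ∈ O' then c' i else c'' i
    have hcO' : ∀ i ∈ O', c i = c' i := fun i hi => if_pos hi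
    have hcO'' : ∀ i ∈ O \ O', c i = c'' i := fun i hi => if_neg ((hO''m i).1 hi).2
    refine ⟨c, ?_, ?_, ?_, ?_⟩
    · intro i hi
      by_cases h : i ∈ O'
      · rw [hcO' i h]
        exact h1 i h
      · rw [hcO'' i ((hO''m i).2 ⟨hi, h⟩)]
        exact k1 i ((hO''m i).2 ⟨hi, h⟩)
    · intro g hg h i hi
      by_cases h' : i ∈ O'
      · refine h2 g hg ?_ i h'
        intro j hj
        rw [← hcO' j hj, ← hcO' _ (hinv' g hg j hj)]
        exact h j (hO'O hj)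
      · refine k2 g hg ?_ i ((hO''m i).2 ⟨hi, h'⟩)
        intro j hj
        rw [← hcO'' j hj, ← hcO'' _ (hinv'' g hg j hj)]
        exact h j ((hO''m j).1 hj).1
    · intro g hg h
      refine h3 g hg ?_
      intro j hj
      rw [← hcO' _ (hinv' g hg j hj)]
      exact h j (hO'O hj)
    · intro g hg h
      refine h4 g hg ?_
      intro j hj
      rw [← hcO' _ (hinv' g hg j hj)]
      exact h j (hO'O hj)
  have horb : ∀ i ∈ O, ∃ g ∈ D₁, i = g • i₀ := by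
    intro i hi
    rw [← hc1] at hi
    exact ((hO'm i).1 hi).2
  let T : Subgroup D := D₁ ⊓ MulAction.stabilizer D i₀
  have hTm : ∀ g, g ∈ T ↔ g ∈ D₁ ∧ g • i₀ = i₀ := fun g => Iff.rfl
  by_cases hT : T = D₁
  · -- case 2
    have hsing : ∀ i ∈ O, i = i₀ := by
      intro i hi
      obtain ⟨g, hg, h⟩ := horb i hi
      rw [← hT] at hg
      rw [h]
      exact ((hTm g).1 hg).2
    obtain ⟨x, hx, hx1, hx2⟩ := hL i₀ hi₀ (φ₁ i₀) (φ₂ i₀)
    refine ⟨fun _ => x, ?_, ?_, ?_, ?_⟩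
    · intro i hi
      rw [hsing i hi]
      exact hx
    · intro g hg _ i hi
      rw [hsing (g • i) (hinv g hg i hi), hsing i hi]
    · intro g _ h
      exact hx1 g (h i₀ hi₀)
    · intro g _ h
      exact hx2 g (h i₀ hi₀)
  -- case 3
  obtain ⟨D₂, hTD, hDD, g₀, hg₀, hg₀n, hr1, hr2, hmul, hnorm⟩ :=
    ld_index hD D₁ T (lt_of_le_of_ne inf_le_left hT)
  have hg₀i : g₀⁻¹ ∈ D₁ := D₁.inv_mem hg₀
  have hg₀in : g₀⁻¹ ∉ D₂ := fun h => hg₀n (by simpa using D₂.inv_mem h)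
  let O₁ : Finset I := O.filter (fun i => ∃ g ∈ D₂, i = g • i₀)
  have hO1m : ∀ i, i ∈ O₁ ↔ i ∈ O ∧ ∃ g ∈ D₂, i = g • i₀ := fun i => Finset.mem_filter
  have hO2m : ∀ i, i ∈ O \ O₁ ↔ i ∈ O ∧ i ∉ O₁ := fun i => Finset.mem_sdiff
  have h0O1 : i₀ ∈ O₁ := (hO1m i₀).2 ⟨hi₀, 1, D₂.one_mem, (one_smul D i₀).symm⟩
  have i1 : ∀ g ∈ D₂, ∀ i ∈ O₁, g • i ∈ O₁ := by
    intro g hg i hi
    obtain ⟨h1, k, hk, h2⟩ := (hO1m i).1 hi
    refine (hO1m _).2 ⟨hinv g (hDD hg) i h1, g * k, D₂.mul_mem hg hk, ?_⟩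
    rw [h2, mul_smul]
  have i2 : ∀ g ∈ D₂, ∀ i ∈ O \ O₁, g • i ∈ O \ O₁ := by
    intro g hg i hi
    obtain ⟨h1, h2⟩ := (hO2m i).1 hi
    refine (hO2m _).2 ⟨hinv g (hDD hg) i h1, ?_⟩
    intro h3
    apply h2
    have := i1 g⁻¹ (D₂.inv_mem hg) _ h3
    rwa [inv_smul_smul] at this
  have i3 : ∀ g ∈ D₁, g ∉ D₂ → ∀ i ∈ O₁, g • i ∈ O \ O₁ := by
    intro g hg hgn i hi
    obtain ⟨h1, k, hk, h2⟩ := (hO1m i).1 hi
    refine (hO2m _).2 ⟨hinv g hg i h1, ?_⟩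
    intro h3
    obtain ⟨-, m, hm, h4⟩ := (hO1m _).1 h3
    apply hgn
    have h5 : m⁻¹ * g * k ∈ T := by
      rw [hTm]
      refine ⟨D₁.mul_mem (D₁.mul_mem (D₁.inv_mem (hDD hm)) hg) (hDD hk), ?_⟩
      rw [mul_smul, mul_smul, ← h2, h4, inv_smul_smul]
    have h6 := D₂.mul_mem (D₂.mul_mem hm (hTD h5)) (D₂.inv_mem hk)
    have e : m * (m⁻¹ * g * k) * k⁻¹ = g := by group
    rwa [e] at h6
  have i4 : ∀ g ∈ D₁, g ∉ D₂ → ∀ i ∈ O \ O₁, g • i ∈ O₁ := by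
    intro g hg hgn i hi
    obtain ⟨h1, h2⟩ := (hO2m i).1 hi
    obtain ⟨k, hk, h3⟩ := horb i h1
    have hkn : k ∉ D₂ := fun h => h2 ((hO1m i).2 ⟨h1, k, h, h3⟩)
    refine (hO1m _).2 ⟨hinv g hg i h1, g * k, hmul g hg k hk hgn hkn, ?_⟩
    rw [h3, mul_smul]
  have hlt1 : O₁.card < n := by
    rw [← hn]
    apply Finset.card_lt_card
    refine ⟨Finset.filter_subset _ _, fun h => ?_⟩
    have h1 := i3 g₀ hg₀ hg₀n i₀ h0O1
    exact ((hO2m _).1 h1).2 (h ((hO2m _).1 h1).1)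
  have hlt2 : (O \ O₁).card < n := by
    rw [← hn]
    apply Finset.card_lt_card
    refine ⟨Finset.sdiff_subset, fun h => ?_⟩
    exact ((hO2m i₀).1 (h hi₀)).2 h0O1
  have hne2 : (O \ O₁).Nonempty := ⟨_, i3 g₀ hg₀ hg₀n i₀ h0O1⟩
  obtain ⟨α, a1, a2, a3, a4⟩ := ih _ hlt1 D₂ O₁ rfl ⟨i₀, h0O1⟩ i1
    (fun i hi => hL i ((hO1m i).1 hi).1) φ₁ (fun i => g₀⁻¹ • φ₁ (g₀ • i))
  let ψ : I → X := if (∃ k ∈ D₂, ∀ i ∈ O₁, α (k • i) = k • φ₂ i) then φ₂ else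
    fun i => g₀⁻¹ • φ₂ (g₀ • i)
  obtain ⟨β, b1, b2, b3, b4⟩ := ih _ hlt2 D₂ (O \ O₁) rfl hne2 i2
    (fun i hi => hL i ((hO2m i).1 hi).1) (fun i => g₀ • α (g₀⁻¹ • i)) ψ
  let c : I → X := fun i => if i ∈ O₁ then α i else β i
  have hc1' : ∀ i ∈ O₁, c i = α i := fun i hi => if_pos hi
  have hc2' : ∀ i ∈ O \ O₁, c i = β i := fun i hi => if_neg ((hO2m i).1 hi).2
  have hO1O : ∀ i ∈ O₁, i ∈ O := fun i hi => ((hO1m i).1 hi).1
  have hO2O : ∀ i ∈ O \ O₁, i ∈ O := fun i hi => ((hO2m i).1 hi).1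
  refine ⟨c, ?_, ?_, ?_, ?_⟩
  · intro i hi
    by_cases h : i ∈ O₁
    · rw [hc1' i h]
      exact a1 i h
    · rw [hc2' i ((hO2m i).2 ⟨hi, h⟩)]
      exact b1 i ((hO2m i).2 ⟨hi, h⟩)
  · -- distinguishing
    intro g hg h
    by_cases hgD : g ∈ D₂
    · intro i hi
      by_cases h' : i ∈ O₁
      · refine a2 g hgD ?_ i h'
        intro j hj
        rw [← hc1' j hj, ← hc1' _ (i1 g hgD j hj)]
        exact h j (hO1O j hj)
      · refine b2 g hgD ?_ i ((hO2m i).2 ⟨hi, h'⟩)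
        intro j hj
        rw [← hc2' j hj, ← hc2' _ (i2 g hgD j hj)]
        exact h j (hO2O j hj)
    · exfalso
      obtain ⟨k, hk, hgk⟩ := hr1 g hg hgD
      refine b3 k hk ?_
      intro j hj
      have hj' := i4 g₀⁻¹ hg₀i hg₀in j hj
      have h1 := h (g₀⁻¹ • j) (hO1O _ hj')
      have e1 : g • g₀⁻¹ • j = k • j := by
        rw [hgk, ← mul_smul, mul_inv_cancel_right]
      rw [e1, hc2' _ (i2 k hk j hj), hc1' _ hj', hgk, mul_smul] at h1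
      exact h1
  · -- not φ₁
    intro g hg h
    by_cases hgD : g ∈ D₂
    · refine a3 g hgD ?_
      intro j hj
      rw [← hc1' _ (i1 g hgD j hj)]
      exact h j (hO1O j hj)
    · obtain ⟨k, hk, hgk⟩ := hr2 g hg hgD
      refine a4 k hk ?_
      intro j hj
      have hj' := i3 g₀ hg₀ hg₀n j hj
      have h1 := h (g₀ • j) (hO2O _ hj')
      have e1 : g • g₀ • j = k • j := by
        rw [hgk, ← mul_smul, inv_mul_cancel_right]
      rw [e1, hc1' _ (i1 k hk j hj), hgk, mul_smul] at h1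
      exact h1
  · -- not φ₂
    intro g hg h
    by_cases hgD : g ∈ D₂
    · have hα : ∃ k ∈ D₂, ∀ i ∈ O₁, α (k • i) = k • φ₂ i := by
        refine ⟨g, hgD, ?_⟩
        intro j hj
        rw [← hc1' _ (i1 g hgD j hj)]
        exact h j (hO1O j hj)
      refine b4 g hgD ?_
      intro j hj
      have hψ : ψ = φ₂ := if_pos hα
      rw [hψ, ← hc2' _ (i2 g hgD j hj)]
      exact h j (hO2O j hj)
    · obtain ⟨k, hk, hgk⟩ := hr2 g hg hgD
      have hα' : ∀ j ∈ O₁, α (k • j) = k • g₀⁻¹ • φ₂ (g₀ • j) := by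
        intro j hj
        have hj' := i3 g₀ hg₀ hg₀n j hj
        have h1 := h (g₀ • j) (hO2O _ hj')
        have e1 : g • g₀ • j = k • j := by
          rw [hgk, ← mul_smul, inv_mul_cancel_right]
        rw [e1, hc1' _ (i1 k hk j hj), hgk, mul_smul] at h1
        exact h1
      have hβ' : ∀ j ∈ O \ O₁, β (k • j) = k • g₀⁻¹ • φ₂ (g₀ • j) := by
        intro j hj
        have hj' := i4 g₀ hg₀ hg₀n j hj
        have h1 := h (g₀ • j) (hO1O _ hj')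
        have e1 : g • g₀ • j = k • j := by
          rw [hgk, ← mul_smul, inv_mul_cancel_right]
        rw [e1, hc2' _ (i2 k hk j hj), hgk, mul_smul] at h1
        exact h1
      by_cases hα : ∃ k ∈ D₂, ∀ i ∈ O₁, α (k • i) = k • φ₂ i
      · obtain ⟨m, hm, hαm⟩ := hα
        -- β ~ g₀ α
        have hq : g₀ * m * g₀ ∈ D₂ := by
          have h1 := hnorm g₀ hg₀ m hm
          have h2 := hmul g₀ hg₀ g₀ hg₀ hg₀n hg₀n
          have := D₂.mul_mem h1 h2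
          have e : g₀ * m * g₀⁻¹ * (g₀ * g₀) = g₀ * m * g₀ := by group
          rwa [e] at this
        refine b3 (k * (g₀ * m * g₀)⁻¹) (D₂.mul_mem hk (D₂.inv_mem hq)) ?_
        intro j' hj'
        -- j = (g₀ m g₀)⁻¹ j'
        have hj := i2 _ (D₂.inv_mem hq) j' hj'
        set j := (g₀ * m * g₀)⁻¹ • j' with hjdef
        have hjj : j' = (g₀ * m * g₀) • j := by rw [hjdef, smul_inv_smul]
        have h1 := hβ' j hj
        have h2 := hαm (g₀ • j) (i4 g₀ hg₀ hg₀n j hj)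
        have e1 : (k * (g₀ * m * g₀)⁻¹) • j' = k • j := by rw [hjdef, mul_smul]
        have e2 : g₀⁻¹ • j' = m • g₀ • j := by
          rw [← mul_smul m g₀ j, hjdef, ← mul_smul]
          congr 1
          group
        rw [e1, h1, e2, h2, ← mul_smul, ← mul_smul, ← mul_smul, ← mul_smul]
        congr 1
        group
      · refine b4 k hk ?_
        intro j hj
        have hψ : ψ = fun i => g₀⁻¹ • φ₂ (g₀ • i) := if_neg hα
        rw [hψ]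
        exact hβ' j hj

/-- list distinguishing for 2-groups -/
theorem ld {D I X : Type*} [Group D] [Finite D] (hD : IsPGroup 2 D) [MulAction D I]
    [MulAction D X] [Nonempty X] (L : I → Set X) (O : Finset I) (hO : ∀ (g : D), ∀ i ∈ O, g • i ∈ O)
    (hL : ∀ i ∈ O, ∀ w₁ w₂ : X, ∃ x ∈ L i, (∀ g : D, x ≠ g • w₁) ∧ ∀ g : D, x ≠ g • w₂) :
    ∃ c : I → X, (∀ i ∈ O, c i ∈ L i) ∧
      ∀ g : D, (∀ i ∈ O, c (g • i) = g • c i) → ∀ i ∈ O, g • i = i := by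
  obtain ⟨x₀⟩ := (inferInstance : Nonempty X)
  rcases O.eq_empty_or_nonempty with h | h
  · refine ⟨fun _ => x₀, ?_, ?_⟩
    · intro i hi
      rw [h] at hi
      exact absurd hi (Finset.notMem_empty i)
    · intro g _ i hi
      rw [h] at hi
      exact absurd hi (Finset.notMem_empty i)
  · obtain ⟨c, h1, h2, -, -⟩ := ld_claim hD L _ ⊤ O rfl h (fun g _ => hO g) hL (fun _ => x₀)
      (fun _ => x₀)
    exact ⟨c, h1, fun g hg => h2 g (Subgroup.mem_top g) hg⟩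

end Pool.H45.S2
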