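import Pool.Agent.H45.S2.DE2
import Pool.Agent.H45.S2.LD
import Pool.Agent.H45.S2.AV

/-!
Project MP_e5a1a5_T2, row LL: the module lemma with a 2-group that need not commute with the odd part.

`mq B q = N / q^(v_q N)` with `N = Nat.card B` (the `q'`-part of `N`).  `Good ρ z`: for every prime `q` and every
`a ≠ 1` with `a^q = 1` some vector `w = ρ (z^(mq q)) v - v` is moved by `a`.

Proof of `LL`.  Let `Π S = pj ρ S`.  `D` acts on `B` by `θ`, on `Finset B` by `g • S = S.map (θ g)` and on `V` by `τ`; by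
`pj_equiv`, `τ g (Π S v) = Π (g • S) (τ g v)` (E).  (Define the two `MulAction D _` instances with `letI`, e.g.
`MulAction.compHom`, or explicitly.)  Let `O` be the finite set of all `S` with `z ∉ S` and `Π S v ≠ 0` for some `v`
(`Finset.univ.filter`).  `O` is `D`-invariant by (E) applied with `g` and `g⁻¹`, and `θ g z = z`.
For `S ∈ O` let `b_S = Π S t` if this is nonzero, and otherwise some nonzero vector `Π S v`.  Always `b_S ≠ 0`,
`Π S b_S = b_S`.  Let `Q_S` be the set of primes `q ∣ N` with `z^(mq q) ∉ S`; nonempty by `pj_prime`; all are odd as `N` is odd.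
Let `Zd = {ζ | ∀ g, θ g ζ = ζ}` (a subgroup containing `z`, so all powers of `z`).  For `q ∈ Q_S` the element
`ζ = z^(mq q)` satisfies `ζ^(q^(v_q N)) = z^N = 1`, and `ρ ζ b_S ≠ b_S` by `pj_not_mem` (with `v = b_S`).
`L S = {x | (∃ ζ ∈ Zd, x = ρ ζ b_S ∨ x = -(ρ ζ b_S)) ∧ ∀ q ∈ Q_S, x ≠ -Π S (σ q)}`.
By `avoid`, `L S` avoids any two `D`-orbits, so `ld` gives `c` on `O`, distinguishing.
Put `u = Σ_S e_S`, with `e_S = c S` for `S ∈ O` and `e_S = Π S t` for `S ∉ O`.  Then `Π S u = e_S` for all `S`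
(`Π S (e_S) = e_S`: for `S ∈ O`, `Π S (ρ ζ b_S) = ρ ζ (Π S b_S)` by `pj_comm`; `pj_orth`).
(a) Let `τ g u = u`.  By (E), `e_(g•S) = Π (g•S) u = Π (g•S) (τ g u) = τ g (Π S u) = τ g e_S` for all `S`.  So `g` preserves
    the colouring `c` on `O` and hence `g • S = S` and `τ g (c S) = c S` for `S ∈ O`.  As `τ g` commutes with `ρ ζ`
    (`ζ ∈ Zd`) and `ρ ζ` is injective, `τ g b_S = b_S`, hence `τ g (Π S t) = Π S t` for `S ∈ O` (if `Π S t = 0` trivially).
    Finally `τ g t = Σ_S τ g (Π S t)`, where for `S ∈ O` the summand is `Π S t` and for `S ∉ O` it is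
    `τ g e_S = e_(g•S) = Π (g•S) t`; reindexing the complement of `O` by `S ↦ g•S` gives `τ g t = Σ_S Π S t = t`
    (`pj_sum`).
(b) In (a) let moreover `q` be prime and `a^q = 1`; we claim `θ g a = a`.  Let `c' = θ g a * a⁻¹`, `c'^q = 1`.  If `c' ≠ 1`,
    `Good` gives `v` with `w = ρ (z^(mq q)) v - v` and `ρ c' w ≠ w`.  By `pj_sum` some `S` has
    `ρ c' (Π S w) ≠ Π S w`; so `Π S w ≠ 0` and `c' ∉ S` (`pj_mem`); and `z^(mq q) ∉ S`, because otherwise
    `Π S w = ρ (z^(mq q)) (Π S v) - Π S v = 0`.  Then `z ∉ S` (closed under powers, `pj_closed`), so `S ∈ O` and `g • S = S`.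
    If `q ∤ N`, then `a = 1`, `c' = 1`, a contradiction; so `q ∣ N`.  Put `y = z^(mq q)`; it is a `q`-element outside `S`;
    let `y' = y^(q^i)` with `i` maximal such that `y' ∉ S` (so `y'^q ∈ S`).  Both `a` and `y'` have `q`-th power in `S`.
    Use the character `χ` of `pj_char`: `(χ a)^q = 1`, `(χ y')^q = 1`, `χ y' ≠ 1`, so `χ a = (χ y')^j` for some `j`,
    i.e. `a * y'^(-j) ∈ S`, and applying `θ g` (`g • S = S`, `θ g y' = y'`): `θ g a * y'^(-j) ∈ S`; hence `c' ∈ S`, a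
    contradiction.
(c) Let `q` be prime, `a^q = 1`, `ρ a (u + σ q) = u + σ q` and `a ≠ 1`.  By `Good` as in (b) there is `S ∈ O` with
    `a ∉ S`, `z^(mq q) ∉ S`, and `q ∣ N` (as `a ≠ 1`), so `q ∈ Q_S`.  Then `x = Π S (u + σ q) = c S + Π S (σ q) ≠ 0` by the
    choice of `L S`, but `ρ a x = x` and `a ∉ S`, against `pj_not_mem`.
-/

set_option autoImplicit false

namespace Pool.H45.S2

open Finset

universe u v w

/-- the `q'`-part of the order of `B` -/
noncomputable def mq (B : Type*) (q : ℕ) : ℕ := Nat.card B / q ^ (Nat.card B).factorization q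

/-- `z` is good for the action `ρ` -/
def Good {F : Type*} [Field F] {B : Type*} [CommGroup B] {V : Type*} [AddCommGroup V] [Module F V]
    (ρ : B →* Module.End F V) (z : B) : Prop :=
  ∀ q : ℕ, q.Prime → ∀ a : B, a ^ q = 1 → a ≠ 1 →
    ∃ v : V, ρ a (ρ (z ^ mq B q) v - v) ≠ ρ (z ^ mq B q) v - v

theorem LL {F : Type u} [Field F] (h2 : (2 : F) ≠ 0) {B : Type v} [CommGroup B] [Finite B]
    (hodd : Odd (Nat.card B)) (hN : (Nat.card B : F) ≠ 0)
    {V : Type w} [AddCommGroup V] [Module F V] (ρ : B →* Module.End F V)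
    {D : Type*} [Group D] [Finite D] (hD : IsPGroup 2 D) (τ : D →* Module.End F V)
    (θ : D →* MulAut B) (hθ : ∀ g a v, τ g (ρ a v) = ρ (θ g a) (τ g v))
    (z : B) (hz : ∀ g, θ g z = z) (hgood : Good ρ z) (t : V) (σ : ℕ → V) :
    ∃ x : V, (∀ g : D, τ g x = x → τ g t = t ∧ ∀ q : ℕ, q.Prime → ∀ a : B, a ^ q = 1 → θ g a = a) ∧
      ∀ q : ℕ, q.Prime → ∀ a : B, a ^ q = 1 → ρ a (x + σ q) = x + σ q → a = 1 := by
  classical
  have := Fintype.ofFinite B
  have hρinj : ∀ (a : B) (v w : V), ρ a v = ρ a w → v = w := by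
    intro a v w h
    have h1 := congrArg (ρ a⁻¹) h
    rw [← Module.End.mul_apply, ← Module.End.mul_apply, ← map_mul, inv_mul_cancel, map_one] at h1
    exact h1
  have hτinj : ∀ (a : D) (v w : V), τ a v = τ a w → v = w := by
    intro a v w h
    have h1 := congrArg (τ a⁻¹) h
    rw [← Module.End.mul_apply, ← Module.End.mul_apply, ← map_mul, inv_mul_cancel, map_one] at h1
    exact h1
  let actS : MulAction D (Finset B) :=
    { smul := fun g S => S.map (θ g).toEquiv.toEmbedding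
      one_smul := by
        intro S
        change S.map (θ 1).toEquiv.toEmbedding = S
        ext a
        simp only [Finset.mem_map_equiv]
        rw [map_one]
        exact Iff.rfl
      mul_smul := by
        intro g h S
        change S.map (θ (g * h)).toEquiv.toEmbedding =
          (S.map (θ h).toEquiv.toEmbedding).map (θ g).toEquiv.toEmbedding
        ext a
        simp only [Finset.mem_map_equiv]
        rw [map_mul]
        exact Iff.rfl }
  let actV : MulAction D V :=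
    { smul := fun g v => τ g v
      one_smul := by
        intro v
        change τ 1 v = v
        rw [map_one, Module.End.one_apply]
      mul_smul := by
        intro g h v
        change τ (g * h) v = τ g (τ h v)
        rw [map_mul, Module.End.mul_apply] }
  have hsS : ∀ (g : D) (S : Finset B), g • S = S.map (θ g).toEquiv.toEmbedding := fun _ _ => rfl
  have hsV : ∀ (g : D) (v : V), g • v = τ g v := fun _ _ => rfl
  have hmemS : ∀ (g : D) (S : Finset B) (a : B), θ g a ∈ g • S ↔ a ∈ S := by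
    intro g S a
    rw [hsS, Finset.mem_map_equiv]
    change (θ g).symm (θ g a) ∈ S ↔ a ∈ S
    rw [MulEquiv.symm_apply_apply]
  have hE : ∀ (g : D) (S : Finset B) (v : V), τ g (pj ρ S v) = pj ρ (g • S) (τ g v) := fun g S v =>
    pj_equiv ρ (θ g) (τ g) (hθ g) S v
  let O : Finset (Finset B) := univ.filter (fun S => z ∉ S ∧ ∃ v, pj ρ S v ≠ 0)
  have hOm : ∀ S, S ∈ O ↔ z ∉ S ∧ ∃ v, pj ρ S v ≠ 0 := by
    intro S
    simp [O]
  have hOinv : ∀ (g : D), ∀ S ∈ O, g • S ∈ O := by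
    intro g S hS
    obtain ⟨h1, v, hv⟩ := (hOm S).1 hS
    refine (hOm _).2 ⟨?_, τ g v, ?_⟩
    · intro h
      apply h1
      rw [← hmemS g S z, hz g]
      exact h
    · rw [← hE]
      intro h
      apply hv
      apply hτinj g
      rw [h, map_zero]
  have hOinv' : ∀ (g : D) (S : Finset B), g • S ∈ O → S ∈ O := by
    intro g S h
    have := hOinv g⁻¹ _ h
    rwa [inv_smul_smul] at this
  have hbex : ∀ S, ∃ b : V, S ∈ O → b ≠ 0 ∧ pj ρ S b = b ∧ (pj ρ S t ≠ 0 → b = pj ρ S t) := by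
    intro S
    by_cases hS : S ∈ O
    · by_cases ht : pj ρ S t = 0
      · obtain ⟨-, v, hv⟩ := (hOm S).1 hS
        exact ⟨pj ρ S v, fun _ => ⟨hv, pj_idem hN ρ S v, fun h => absurd ht h⟩⟩
      · exact ⟨pj ρ S t, fun _ => ⟨ht, pj_idem hN ρ S t, fun _ => rfl⟩⟩
    · exact ⟨0, fun h => absurd h hS⟩
  choose b hb using hbex
  let Q : Finset B → Finset ℕ := fun S =>
    (Nat.card B).primeFactors.filter (fun q => z ^ mq B q ∉ S)
  have hQm : ∀ S q, q ∈ Q S ↔ (q.Prime ∧ q ∣ Nat.card B) ∧ z ^ mq B q ∉ S := by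
    intro S q
    simp only [Q, Finset.mem_filter, Nat.mem_primeFactors]
    constructor
    · rintro ⟨⟨h1, h2, -⟩, h3⟩
      exact ⟨⟨h1, h2⟩, h3⟩
    · rintro ⟨⟨h1, h2⟩, h3⟩
      exact ⟨⟨h1, h2, Nat.card_pos.ne'⟩, h3⟩
  let Zd : Subgroup B :=
    { carrier := {ζ | ∀ g, θ g ζ = ζ}
      one_mem' := fun g => map_one (θ g)
      mul_mem' := by
        intro a c ha hc g
        rw [map_mul, ha g, hc g]
      inv_mem' := by
        intro a ha g
        rw [map_inv, ha g] }
  have hZd : ∀ ζ, ζ ∈ Zd ↔ ∀ g, θ g ζ = ζ := fun ζ => Iff.rfl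
  have hcom : ∀ (g : D), ∀ ζ ∈ Zd, ∀ v : V, τ g (ρ ζ v) = ρ ζ (τ g v) := by
    intro g ζ hζ v
    rw [hθ, (hZd ζ).1 hζ g]
  have hzZd : z ∈ Zd := hz
  have hqpow : ∀ q, (z ^ mq B q) ^ q ^ (Nat.card B).factorization q = 1 := by
    intro q
    rw [← pow_mul]
    have : mq B q * q ^ (Nat.card B).factorization q = Nat.card B := by
      unfold mq
      rw [mul_comm]
      exact Nat.ordProj_mul_ordCompl_eq_self _ _
    rw [this, pow_card_eq_one']
  let L : Finset B → Set V := fun S =>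
    {x | (∃ ζ ∈ Zd, x = ρ ζ (b S) ∨ x = -(ρ ζ (b S))) ∧ ∀ q ∈ Q S, x ≠ -(pj ρ S (σ q))}
  have hLm : ∀ S x, x ∈ L S ↔ (∃ ζ ∈ Zd, x = ρ ζ (b S) ∨ x = -(ρ ζ (b S))) ∧
    ∀ q ∈ Q S, x ≠ -(pj ρ S (σ q)) := fun S x => Iff.rfl
  have hL : ∀ S ∈ O, ∀ w₁ w₂ : V, ∃ x ∈ L S, (∀ g : D, x ≠ g • w₁) ∧ ∀ g : D, x ≠ g • w₂ := by
    intro S hS w₁ w₂
    obtain ⟨hb0, hb1, -⟩ := hb S hS
    have hne : (Q S).Nonempty := by
      obtain ⟨q, hq, hqd, hzq⟩ := pj_prime hN ρ S (b S) (by rw [hb1]; exact hb0) z ((hOm S).1 hS).1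
      exact ⟨q, (hQm S q).2 ⟨⟨hq, hqd⟩, hzq⟩⟩
    obtain ⟨x, h3, h4, h5, h6⟩ := avoid h2 hodd ρ hD τ Zd hcom (b S) hb0 (Q S) hne (by
      intro q hq
      obtain ⟨⟨hqp, hqd⟩, hzq⟩ := (hQm S q).1 hq
      refine ⟨hqp, ?_, z ^ mq B q, Zd.pow_mem hzZd _, ⟨_, hqpow q⟩, ?_⟩
      · rintro rfl
        exact (Nat.not_even_iff_odd.2 hodd) (even_iff_two_dvd.2 hqd)
      · intro h
        apply hb0
        rw [← hb1]
        apply pj_not_mem hN ρ S _ hzq
        rw [hb1]
        exact h) (fun q => -(pj ρ S (σ q))) w₁ w₂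
    exact ⟨x, (hLm S x).2 ⟨h3, h4⟩, h5, h6⟩
  have : Nonempty V := ⟨0⟩
  obtain ⟨c, hcL, hcd⟩ := ld hD L O hOinv hL
  let e : Finset B → V := fun S => if S ∈ O then c S else pj ρ S t
  have heO : ∀ S ∈ O, e S = c S := fun S hS => if_pos hS
  have henO : ∀ S, S ∉ O → e S = pj ρ S t := fun S hS => if_neg hS
  have hpjρ : ∀ S ζ, pj ρ S (ρ ζ (b S)) = ρ ζ (pj ρ S (b S)) := fun S ζ => (pj_comm ρ S ζ (b S)).symm
  have hee : ∀ S, pj ρ S (e S) = e S := by
    intro S
    by_cases hS : S ∈ O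
    · rw [heO S hS]
      obtain ⟨⟨ζ, -, h | h⟩, -⟩ := (hLm S _).1 (hcL S hS)
      · rw [h, hpjρ, (hb S hS).2.1]
      · rw [h, map_neg, hpjρ, (hb S hS).2.1]
    · rw [henO S hS, pj_idem hN]
  let u : V := ∑ S, e S
  have hu : ∀ S, pj ρ S u = e S := by
    intro S
    change pj ρ S (∑ T, e T) = e S
    rw [map_sum, Finset.sum_eq_single S]
    · exact hee S
    · intro T _ hT
      rw [← hee T]
      exact pj_orth hN ρ S T (Ne.symm hT) _
    · intro h
      exact absurd (Finset.mem_univ S) h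
  have key : ∀ q : ℕ, q.Prime → ∀ a : B, a ^ q = 1 → a ≠ 1 → ∃ S ∈ O, a ∉ S ∧ q ∈ Q S := by
    intro q hq a haq ha1
    obtain ⟨v, hv⟩ := hgood q hq a haq ha1
    obtain ⟨S, hS⟩ : ∃ S, ρ a (pj ρ S (ρ (z ^ mq B q) v - v)) ≠ pj ρ S (ρ (z ^ mq B q) v - v) := by
      by_contra hc
      push Not at hc
      apply hv
      conv_lhs => rw [← pj_sum ρ (ρ (z ^ mq B q) v - v)]
      rw [map_sum, Finset.sum_congr rfl (fun S _ => hc S), pj_sum]
    have hw0 : pj ρ S (ρ (z ^ mq B q) v - v) ≠ 0 := by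
      intro h0
      apply hS
      rw [h0, map_zero]
    have haS : a ∉ S := fun h => hS (pj_mem hN ρ S a h _)
    have hzS : z ^ mq B q ∉ S := by
      intro h
      apply hw0
      rw [map_sub, ← pj_comm, pj_mem hN ρ S _ h, sub_self]
    obtain ⟨c1, c2, c3⟩ := pj_closed hN ρ S _ hw0
    have hzS' : z ∉ S := by
      intro h
      apply hzS
      generalize mq B q = k
      induction k with
      | zero => rw [pow_zero]; exact c1
      | succ k ih => rw [pow_succ]; exact c2 _ ih _ h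
    have hqN : q ∣ Nat.card B := by
      have := Fact.mk hq
      have h1 : orderOf a = q := orderOf_eq_prime haq ha1
      rw [← h1]
      exact orderOf_dvd_natCard a
    exact ⟨S, (hOm S).2 ⟨hzS', _, hw0⟩, haS, (hQm S q).2 ⟨⟨hq, hqN⟩, hzS⟩⟩
  refine ⟨u, ?_, ?_⟩
  · intro g hg
    have hge : ∀ S, e (g • S) = τ g (e S) := by
      intro S
      rw [← hu (g • S), ← hu S, hE, hg]
    have hfix : ∀ S ∈ O, g • S = S := by
      apply hcd g
      intro S hS
      rw [← heO S hS, ← heO _ (hOinv g S hS), hge]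
      rfl
    have hcS : ∀ S ∈ O, τ g (c S) = c S := by
      intro S hS
      have := hge S
      rw [hfix S hS, heO S hS] at this
      exact this.symm
    have hbS : ∀ S ∈ O, τ g (b S) = b S := by
      intro S hS
      obtain ⟨⟨ζ, hζ, h | h⟩, -⟩ := (hLm S _).1 (hcL S hS)
      · have h1 := hcS S hS
        rw [h, hcom g ζ hζ] at h1
        exact hρinj ζ _ _ h1
      · have h1 := hcS S hS
        rw [h, map_neg, hcom g ζ hζ, neg_inj] at h1
        exact hρinj ζ _ _ h1
    constructor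
    · have h1 : ∀ S, τ g (pj ρ S t) = pj ρ (g • S) t := by
        intro S
        by_cases hS : S ∈ O
        · rw [hfix S hS]
          by_cases h0 : pj ρ S t = 0
          · rw [h0, map_zero]
          · rw [← (hb S hS).2.2 h0]
            exact hbS S hS
        · have h2 : g • S ∉ O := fun h => hS (hOinv' g S h)
          rw [← henO S hS, ← hge, henO _ h2]
      conv_lhs => rw [← pj_sum ρ t]
      rw [map_sum, Finset.sum_congr rfl (fun S _ => h1 S)]
      have h2 := Equiv.sum_comp (MulAction.toPerm g : Equiv.Perm (Finset B)) (fun S => pj ρ S t)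
      simp only [MulAction.toPerm_apply] at h2
      rw [h2, pj_sum]
    · intro q hq a haq
      by_contra hne
      set c' := θ g a * a⁻¹ with hc'
      have hc'1 : c' ≠ 1 := by
        intro h
        apply hne
        rw [hc', mul_inv_eq_one] at h
        exact h
      have hc'q : c' ^ q = 1 := by
        rw [hc', mul_pow, inv_pow, ← map_pow, haq, map_one, inv_one, one_mul]
      obtain ⟨S, hS, hcS', hqS⟩ := key q hq c' hc'q hc'1
      obtain ⟨⟨-, hqN⟩, hzS⟩ := (hQm S q).1 hqS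
      obtain ⟨-, v, hv⟩ := (hOm S).1 hS
      obtain ⟨E, _, χ, hχ⟩ := pj_char hN ρ S v hv
      set y := z ^ mq B q with hy
      have hyfix : θ g y = y := by rw [hy, map_pow, hz]
      have hex : ∃ n : ℕ, y ^ q ^ n ∈ S := by
        refine ⟨(Nat.card B).factorization q, ?_⟩
        rw [hy, hqpow, ← hχ, map_one]
      obtain ⟨i, hi⟩ : ∃ i, Nat.find hex = i + 1 := by
        rcases Nat.eq_zero_or_eq_succ_pred (Nat.find hex) with h | h
        · exfalso
          have := Nat.find_spec hex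
          rw [h, pow_zero, pow_one] at this
          exact hzS this
        · exact ⟨_, h⟩
      have hi1 : y ^ q ^ i ∉ S := Nat.find_min hex (by omega)
      have hi2 : y ^ q ^ (i + 1) ∈ S := by
        rw [← hi]
        exact Nat.find_spec hex
      set y' := y ^ q ^ i with hy'
      have hy'fix : θ g y' = y' := by rw [hy', map_pow, hyfix]
      have hχy : (χ y') ^ q = 1 := by
        rw [← map_pow, hχ, hy', ← pow_mul, ← pow_succ]
        exact hi2
      have hχy1 : χ y' ≠ 1 := fun h => hi1 ((hχ _).1 h)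
      have hχa : (χ a) ^ q = 1 := by rw [← map_pow, haq, map_one]
      have := Fact.mk hq
      have h5 : IsPrimitiveRoot (χ y') q := by
        rw [← orderOf_eq_prime hχy hχy1]
        exact IsPrimitiveRoot.orderOf _
      have : NeZero q := ⟨hq.ne_zero⟩
      obtain ⟨j, -, hj⟩ := h5.eq_pow_of_pow_eq_one hχa
      have h6 : a * (y' ^ j)⁻¹ ∈ S := by
        rw [← hχ, map_mul, ← hj, ← map_pow, ← map_mul, mul_inv_cancel, map_one]
      have h7 : θ g a * (y' ^ j)⁻¹ ∈ S := by
        have h8 := (hmemS g S (a * (y' ^ j)⁻¹)).2 h6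
        rw [hfix S hS, map_mul, map_inv, map_pow, hy'fix] at h8
        exact h8
      apply hcS'
      rw [← hχ] at h6 h7 ⊢
      have h9 : c' = (θ g a * (y' ^ j)⁻¹) * (a * (y' ^ j)⁻¹)⁻¹ := by
        rw [hc']
        group
      have h10 : χ ((a * (y' ^ j)⁻¹)⁻¹) = 1 := by
        have h11 := map_mul χ (a * (y' ^ j)⁻¹) (a * (y' ^ j)⁻¹)⁻¹
        rw [mul_inv_cancel, map_one, h6, one_mul] at h11
        exact h11.symm
      rw [h9, map_mul, h7, h10, one_mul]
  · intro q hq a haq hfixa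
    by_contra ha1
    obtain ⟨S, hS, haS, hqS⟩ := key q hq a haq ha1
    have h1 : pj ρ S (u + σ q) = 0 := by
      apply pj_not_mem hN ρ S a haS
      rw [pj_comm, hfixa]
    rw [map_add, hu, heO S hS] at h1
    exact ((hLm S _).1 (hcL S hS)).2 q hqS (eq_neg_of_add_eq_zero_left h1)

end Pool.H45.S2
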