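import Pool.Agent.H45.SY.GR1

/-!
Project MP_e5a1a5_T2, row SG: one elementary abelian step, general form.

This is `Pool.H45.SY.step` (file Pool/Agent/H45/SY/GR1.lean, 200 lines) with the module lemma as a hypothesis `hML` and an
additional predicate `X`.  Copy its proof with these changes:
* `D p = {a ∈ H p | ∃ s ∈ H p, s⁻¹ (x₁ a x₁⁻¹) ∈ Z}` as before and
  `D' p = {a ∈ D p | ∃ s ∈ H p, s⁻¹ (y p a (y p)⁻¹) ∈ Z}`, also a subgroup (intersect with another preimage of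
  `(H p).map π`).
* `z₁ p ∈ Z` with `(x₁ z₁) a (x₁ z₁)⁻¹ ∈ H p` for `a ∈ D p` as before (`ex1`), but `z₂ p ∈ Z` with
  `(y p z₂) a (y p z₂)⁻¹ ∈ H p` only for `a ∈ D' p` (`ex2`; `hcj` should be stated for a general subgroup `E ≤ H p`).
* `f` comes from `hML` with `s p = (z₁ p)⁻¹`, `t p = z₂ p`.
* at the end, for `a ∈ H p` with `(x₁ f) a (x₁ f)⁻¹ ∈ H p`, `p ≠ r`, `p ∣ Nat.card G`: `a ∈ D p`, `a` commutes with
  `(z₁ p)⁻¹ f` as before, so `hML` gives that `a` commutes with `z₂ p` and `X p a`; by `hsub` then `a ∈ D' p`, so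
  `(y p z₂) a (y p z₂)⁻¹ ∈ H p`, i.e. `y p a (y p)⁻¹ ∈ H p`.
* for `p = r` use `hsubr`; for `p ∤ Nat.card G` the Sylow subgroup is trivial.
-/

set_option autoImplicit false

namespace Pool.H45.S2

open Pool.Agent.H49.Syl Pool.H45.SY

universe u

/-- the stage group -/
theorem stage_subgroup {G : Type*} [Group G] (Z : Subgroup G) [Z.Normal] (P : Subgroup G) (x : G) :
    ∃ D : Subgroup G, ∀ a, a ∈ D ↔ a ∈ P ∧ ∃ s ∈ P, s⁻¹ * (x * a * x⁻¹) ∈ Z := by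
  set π : G →* G ⧸ Z := QuotientGroup.mk' Z with hπ
  have hker : ∀ g : G, π g = 1 ↔ g ∈ Z := by
    intro g
    rw [hπ, QuotientGroup.mk'_apply]
    exact QuotientGroup.eq_one_iff g
  refine ⟨P ⊓ ((P.map π).comap (π.comp (MulAut.conj x).toMonoidHom)), ?_⟩
  intro a
  rw [Subgroup.mem_inf, Subgroup.mem_comap]
  change a ∈ P ∧ π (x * a * x⁻¹) ∈ P.map π ↔ _
  rw [Subgroup.mem_map]
  refine and_congr_right fun _ => ?_
  constructor
  · rintro ⟨s, hs, h⟩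
    refine ⟨s, hs, ?_⟩
    rw [← hker, map_mul, map_inv, inv_mul_eq_one]
    exact h
  · rintro ⟨s, hs, h⟩
    refine ⟨s, hs, ?_⟩
    rw [← hker, map_mul, map_inv, inv_mul_eq_one] at h
    exact h

theorem step_gen {G : Type u} [Group G] [Finite G] {r : ℕ} (hr : r.Prime) (Z : Subgroup G)
    [hZ : Z.Normal] (hZr : ∀ a ∈ Z, a ^ r = 1)
    (H : ∀ p : Nat.Primes, Sylow (p : ℕ) G) (x₁ : G) (y : Nat.Primes → G)
    (X : Nat.Primes → G → Prop)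
    (hML : ∀ s t : Nat.Primes → G, (∀ p, s p ∈ Z) → (∀ p, t p ∈ Z) → ∃ f ∈ Z,
      ∀ p : Nat.Primes, (p : ℕ) ≠ r → (p : ℕ) ∣ Nat.card G → ∀ g ∈ H p,
        (∃ s ∈ H p, s⁻¹ * (x₁ * g * x₁⁻¹) ∈ Z) → g * (s p * f) = (s p * f) * g →
          g * t p = t p * g ∧ X p g)
    (hsub : ∀ p : Nat.Primes, (p : ℕ) ≠ r → ∀ a ∈ H p, (∃ s ∈ H p, s⁻¹ * (x₁ * a * x₁⁻¹) ∈ Z) →
      X p a → ∃ s ∈ H p, s⁻¹ * (y p * a * (y p)⁻¹) ∈ Z)
    (hsubr : ∀ p : Nat.Primes, (p : ℕ) = r → ∀ a ∈ H p, (∃ s ∈ H p, s⁻¹ * (x₁ * a * x₁⁻¹) ∈ Z) →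
      ∃ s ∈ H p, s⁻¹ * (y p * a * (y p)⁻¹) ∈ Z) :
    ∃ z ∈ Z, ∀ p : Nat.Primes, ∀ a ∈ H p, (x₁ * z) * a * (x₁ * z)⁻¹ ∈ H p →
      y p * a * (y p)⁻¹ ∈ H p := by
  classical
  set π : G →* G ⧸ Z := QuotientGroup.mk' Z with hπ
  have hker : ∀ g : G, π g = 1 ↔ g ∈ Z := by
    intro g
    rw [hπ, QuotientGroup.mk'_apply]
    exact QuotientGroup.eq_one_iff g
  choose D hDm using fun p : Nat.Primes => stage_subgroup Z (H p : Subgroup G) x₁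
  choose D'' hDm'' using fun p : Nat.Primes => stage_subgroup Z (H p : Subgroup G) (y p)
  have hDp : ∀ p : Nat.Primes, IsPGroup (p : ℕ) (D p) := fun p =>
    (H p).isPGroup'.to_le (fun a ha => ((hDm p a).1 ha).1)
  have hcj : ∀ p : Nat.Primes, (p : ℕ) ≠ r → ∀ (E : Subgroup G), IsPGroup (p : ℕ) E → ∀ u : G,
      (∀ a ∈ E, ∃ s ∈ H p, s⁻¹ * (u * a * u⁻¹) ∈ Z) →
      ∃ z ∈ Z, ∀ a ∈ E, (u * z) * a * (u * z)⁻¹ ∈ H p := by
    intro p hpr E hE u hu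
    obtain ⟨z, hz, h⟩ := conj_into p.2 hr hpr Z (H p : Subgroup G)
      (E.map (MulAut.conj u).toMonoidHom) hZr (H p).isPGroup' (hE.map _) (by
        rintro _ ⟨a, ha, rfl⟩
        exact hu a ha)
    refine ⟨u⁻¹ * z * u, ?_, ?_⟩
    · have := hZ.conj_mem z hz u⁻¹
      simpa using this
    · intro a ha
      have h1 := h (u * a * u⁻¹) ⟨a, ha, rfl⟩
      have e : u * (u⁻¹ * z * u) * a * (u * (u⁻¹ * z * u))⁻¹ = z * (u * a * u⁻¹) * z⁻¹ := by group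
      rw [e]
      exact h1
  have ex1 : ∀ p : Nat.Primes, ∃ z ∈ Z, (p : ℕ) ≠ r → ∀ a ∈ D p, (x₁ * z) * a * (x₁ * z)⁻¹ ∈ H p := by
    intro p
    by_cases hpr : (p : ℕ) = r
    · exact ⟨1, Z.one_mem, fun h => absurd hpr h⟩
    · obtain ⟨z, hz, h⟩ := hcj p hpr (D p) (hDp p) x₁ (fun a ha => ((hDm p a).1 ha).2)
      exact ⟨z, hz, fun _ => h⟩
  have ex2 : ∀ p : Nat.Primes, ∃ z ∈ Z, (p : ℕ) ≠ r → ∀ a ∈ D p ⊓ D'' p,
      (y p * z) * a * (y p * z)⁻¹ ∈ H p := by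
    intro p
    by_cases hpr : (p : ℕ) = r
    · exact ⟨1, Z.one_mem, fun h => absurd hpr h⟩
    · obtain ⟨z, hz, h⟩ := hcj p hpr (D p ⊓ D'' p) ((hDp p).to_le inf_le_left) (y p)
        (fun a ha => ((hDm'' p a).1 ha.2).2)
      exact ⟨z, hz, fun _ => h⟩
  choose z₁ hz₁ hz₁' using ex1
  choose z₂ hz₂ hz₂' using ex2
  have hDN : ∀ p : Nat.Primes, (p : ℕ) ≠ r → ∀ g ∈ H p, g ∈ Z → g = 1 := by
    intro p hpr g hg hgZ
    obtain ⟨m, hm⟩ := pow_card_one (H p).isPGroup' hg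
    exact eq_one_of_coprime p.2 hr hpr hm (hZr g hgZ)
  obtain ⟨f, hfZ, hf⟩ := hML (fun p => (z₁ p)⁻¹) z₂ (fun p => Z.inv_mem (hz₁ p)) hz₂
  refine ⟨f, hfZ, ?_⟩
  intro p a ha hxa
  have hπf : π f = 1 := (hker f).2 hfZ
  have haD : a ∈ D p := by
    rw [hDm]
    refine ⟨ha, _, hxa, ?_⟩
    rw [← hker]
    simp only [map_mul, map_inv, hπf]
    group
  by_cases hpr : (p : ℕ) = r
  · have hZH : Z ≤ (H p : Subgroup G) := by
      have hNp : IsPGroup (p : ℕ) Z := by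
        intro a
        refine ⟨1, ?_⟩
        rw [pow_one, hpr]
        exact Subtype.ext (by exact_mod_cast hZr a a.2)
      exact hNp.le_sylow_of_normal (H p)
    obtain ⟨s, hs, hsy⟩ := hsubr p hpr a ha ((hDm p a).1 haD).2
    have := (H p : Subgroup G).mul_mem hs (hZH hsy)
    have e : s * (s⁻¹ * (y p * a * (y p)⁻¹)) = y p * a * (y p)⁻¹ := by group
    rw [e] at this
    exact this
  by_cases hpd : (p : ℕ) ∣ Nat.card G
  swap
  · have hbot : (H p : Subgroup G) = ⊥ := by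
      have := Fact.mk p.2
      rw [← Subgroup.card_eq_one]
      obtain ⟨m, hm⟩ := IsPGroup.iff_card.mp (H p).isPGroup'
      rw [hm]
      rcases Nat.eq_zero_or_pos m with h0 | h0
      · rw [h0, pow_zero]
      · exfalso
        apply hpd
        have h1 : Nat.card (H p : Subgroup G) ∣ Nat.card G := Subgroup.card_subgroup_dvd_card _
        rw [hm] at h1
        exact dvd_trans (dvd_pow_self _ h0.ne') h1
    have ha1 : a = 1 := by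
      have : a ∈ (H p : Subgroup G) := ha
      rw [hbot, Subgroup.mem_bot] at this
      exact this
    rw [ha1, mul_one, mul_inv_cancel]
    exact (H p : Subgroup G).one_mem
  have hw : a * ((z₁ p)⁻¹ * f) = ((z₁ p)⁻¹ * f) * a := by
    set w := (z₁ p)⁻¹ * f with hwdef
    have hwZ : w ∈ Z := Z.mul_mem (Z.inv_mem (hz₁ p)) hfZ
    have h1 := hz₁' p hpr a haD
    have h2 : (x₁ * z₁ p) * (w * a * w⁻¹) * (x₁ * z₁ p)⁻¹ ∈ H p := by
      have e : (x₁ * z₁ p) * (w * a * w⁻¹) * (x₁ * z₁ p)⁻¹ = (x₁ * f) * a * (x₁ * f)⁻¹ := by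
        rw [hwdef]; group
      rw [e]
      exact hxa
    have h3 : (x₁ * z₁ p) * (w * a * w⁻¹ * a⁻¹) * (x₁ * z₁ p)⁻¹ ∈ H p := by
      have h4 := (H p : Subgroup G).mul_mem h2 ((H p : Subgroup G).inv_mem h1)
      have e : (x₁ * z₁ p) * (w * a * w⁻¹) * (x₁ * z₁ p)⁻¹ * ((x₁ * z₁ p) * a * (x₁ * z₁ p)⁻¹)⁻¹ =
        (x₁ * z₁ p) * (w * a * w⁻¹ * a⁻¹) * (x₁ * z₁ p)⁻¹ := by group
      rw [e] at h4
      exact h4
    have h5 : w * a * w⁻¹ * a⁻¹ ∈ Z := by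
      have h6 : a * w⁻¹ * a⁻¹ ∈ Z := hZ.conj_mem _ (Z.inv_mem hwZ) a
      have := Z.mul_mem hwZ h6
      have e : w * (a * w⁻¹ * a⁻¹) = w * a * w⁻¹ * a⁻¹ := by group
      rw [e] at this
      exact this
    have h7 := hDN p hpr _ h3 (hZ.conj_mem _ h5 _)
    have h8 : w * a * w⁻¹ * a⁻¹ = 1 := by
      have h9 : w * a * w⁻¹ * a⁻¹ = (x₁ * z₁ p)⁻¹ * ((x₁ * z₁ p) * (w * a * w⁻¹ * a⁻¹) * (x₁ * z₁ p)⁻¹) * (x₁ * z₁ p) := by
        group
      rw [h9, h7]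
      group
    have h10 : w * a = a * w := by
      have : w * a = (w * a * w⁻¹ * a⁻¹) * (a * w) := by group
      rw [this, h8, one_mul]
    exact h10.symm
  obtain ⟨h11, hX⟩ := hf p hpr hpd a ha ((hDm p a).1 haD).2 hw
  have haD'' : a ∈ D'' p := (hDm'' p a).2 ⟨ha, hsub p hpr a ha ((hDm p a).1 haD).2 hX⟩
  have h12 := hz₂' p hpr a ⟨haD, haD''⟩
  have e : (y p * z₂ p) * a * (y p * z₂ p)⁻¹ = y p * (z₂ p * a * (z₂ p)⁻¹) * (y p)⁻¹ := by group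
  rw [e, ← h11] at h12
  have e2 : a * z₂ p * (z₂ p)⁻¹ = a := by group
  rw [e2] at h12
  exact h12

end Pool.H45.S2
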