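import Mathlib

/-!
Project MP_e5a1a5_T2, row TK: changing the target by an element of a normal subgroup of order prime to `p`.

Proof.  Let `L = P ⊔ A` (`p`-subgroup `P`, `A` normal, so every element of `L` is `x * b` and also `b * x`, `x ∈ P`, `b ∈ A`,
`Subgroup.mem_sup_of_normal_right`), and `E = {e ∈ L | k * e * k⁻¹ ∈ P}`, a `p`-subgroup of `L`
(`L ⊓ P.comap (conj k)`; it embeds in `P`).  `P' = P.subtype le_sup_left : Sylow p L` is a Sylow `p`-subgroup of `L`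
(`Sylow.subtype`).  By Sylow (`IsPGroup.exists_le_sylow` for `E.subgroupOf L`, `MulAction.exists_smul_eq L`) there is
`x ∈ L` with `x E x⁻¹ ≤ P`; write `x = y * l⁻¹` with `y ∈ P`, `l ∈ A`; then `l⁻¹ E l ≤ P`.  (Compare `exists_conj` in
Pool/Agent/H49/SylInd.lean.)  Put `k₁ = k * l * z`.
Let `a ∈ P` with `k₁ a k₁⁻¹ ∈ P`.  Put `e = z a z⁻¹`.  Then `k (l e l⁻¹) k⁻¹ ∈ P` and `l e l⁻¹ ∈ L` (as `A ≤ L`, `a ∈ L`), so
`l e l⁻¹ ∈ E`, hence `e = l⁻¹ (l e l⁻¹) l ∈ P`, and `e * a⁻¹ = z (a z⁻¹ a⁻¹) ∈ A ∩ P`, which is trivial: an element of `A`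
of `p`-power order is `1` since `p ∤ Nat.card A`.  So `z a = a z`.
If moreover `a` commutes with all elements of `A`, then `k₁ a k₁⁻¹ = k a k⁻¹`.
-/

set_option autoImplicit false

namespace Pool.H45.S2

theorem TK {K : Type*} [Group K] [Finite K] {p : ℕ} (hp : p.Prime) (P : Sylow p K)
    (A : Subgroup K) [A.Normal] (hA : ¬ p ∣ Nat.card A) (z k : K) (hz : z ∈ A) :
    ∃ k₁ : K, (∀ a ∈ P, k₁ * a * k₁⁻¹ ∈ P → a * z = z * a) ∧
      ∀ a ∈ P, k₁ * a * k₁⁻¹ ∈ P → (∀ b ∈ A, a * b = b * a) → k * a * k⁻¹ ∈ P := by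
  have := Fact.mk hp
  have hAn : A.Normal := inferInstance
  set L : Subgroup K := (P : Subgroup K) ⊔ A with hL
  have hPL : (P : Subgroup K) ≤ L := le_sup_left
  have hAL : A ≤ L := le_sup_right
  let E : Subgroup K := L ⊓ (P : Subgroup K).comap (MulAut.conj k).toMonoidHom
  have hEm : ∀ e, e ∈ E ↔ e ∈ L ∧ k * e * k⁻¹ ∈ P := fun e => Iff.rfl
  have hEp : IsPGroup p E := by
    have h1 : IsPGroup p ((P : Subgroup K).comap (MulAut.conj k).toMonoidHom) :=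
      P.isPGroup'.comap_of_injective _ (MulAut.conj k).injective
    exact h1.to_le inf_le_right
  let P' : Sylow p L := P.subtype hPL
  have hP' : ∀ x : L, x ∈ P' ↔ (x : K) ∈ P := by
    intro x
    change x ∈ (P' : Subgroup L) ↔ _
    rw [Sylow.coe_subtype, Subgroup.mem_subgroupOf]
    rfl
  have hE' : IsPGroup p (E.subgroupOf L) := hEp.comap_of_injective _ L.subtype_injective
  obtain ⟨Q, hQ⟩ := hE'.exists_le_sylow
  obtain ⟨x, hx⟩ := MulAction.exists_smul_eq L Q P'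
  have hxE : ∀ e ∈ E, (x : K) * e * (x : K)⁻¹ ∈ P := by
    intro e he
    have h1 : (⟨e, he.1⟩ : L) ∈ (Q : Subgroup L) := hQ (Subgroup.mem_subgroupOf.2 he)
    have h2 : x * ⟨e, he.1⟩ * x⁻¹ ∈ ((x • Q : Sylow p L) : Subgroup L) := by
      rw [Sylow.coe_subgroup_smul, Subgroup.mem_pointwise_smul_iff_inv_smul_mem]
      have : (MulAut.conj x)⁻¹ • (x * ⟨e, he.1⟩ * x⁻¹) = (⟨e, he.1⟩ : L) := by
        rw [← map_inv, MulAut.smul_def, MulAut.conj_apply]
        group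
      rw [this]
      exact h1
    rw [hx] at h2
    exact (hP' _).1 h2
  obtain ⟨y, hy, l', hl', hyl⟩ : ∃ y ∈ (P : Subgroup K), ∃ l' ∈ A, y * l' = (x : K) := by
    have h1 : (x : K) ∈ (P : Subgroup K) ⊔ A := x.2
    exact Subgroup.mem_sup_of_normal_right.1 h1
  have hlE : ∀ e ∈ E, l' * e * l'⁻¹ ∈ P := by
    intro e he
    have h1 := hxE e he
    rw [← hyl] at h1
    have h2 := (P : Subgroup K).mul_mem ((P : Subgroup K).mul_mem ((P : Subgroup K).inv_mem hy) h1) hy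
    have e1 : y⁻¹ * (y * l' * e * (y * l')⁻¹) * y = l' * e * l'⁻¹ := by group
    rw [e1] at h2
    exact h2
  -- l = l'⁻¹
  refine ⟨k * l'⁻¹ * z, ?_, ?_⟩
  · intro a ha hk
    have haL : a ∈ L := hPL ha
    set e := z * a * z⁻¹ with he
    have heL : e ∈ L := L.mul_mem (L.mul_mem (hAL hz) haL) (L.inv_mem (hAL hz))
    have hle : l'⁻¹ * e * l' ∈ E := by
      refine (hEm _).2 ⟨?_, ?_⟩
      · exact L.mul_mem (L.mul_mem (L.inv_mem (hAL hl')) heL) (hAL hl')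
      · have e1 : k * (l'⁻¹ * e * l') * k⁻¹ = k * l'⁻¹ * z * a * (k * l'⁻¹ * z)⁻¹ := by
          rw [he]
          group
        rw [e1]
        exact hk
    have heP : e ∈ P := by
      have h1 := hlE _ hle
      have e1 : l' * (l'⁻¹ * e * l') * l'⁻¹ = e := by group
      rw [e1] at h1
      exact h1
    have h1 : e * a⁻¹ ∈ (P : Subgroup K) := (P : Subgroup K).mul_mem heP ((P : Subgroup K).inv_mem ha)
    have h2 : e * a⁻¹ ∈ A := by
      have h3 : a * z⁻¹ * a⁻¹ ∈ A := hAn.conj_mem _ (A.inv_mem hz) a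
      have h4 := A.mul_mem hz h3
      have e1 : z * (a * z⁻¹ * a⁻¹) = e * a⁻¹ := by rw [he]; group
      rw [e1] at h4
      exact h4
    have h3 : e * a⁻¹ = 1 := by
      obtain ⟨n, hn⟩ := P.isPGroup' ⟨e * a⁻¹, h1⟩
      have hn' : (e * a⁻¹) ^ p ^ n = 1 := congrArg Subtype.val hn
      have h4 : orderOf (e * a⁻¹) ∣ p ^ n := orderOf_dvd_of_pow_eq_one hn'
      have h5 : orderOf (e * a⁻¹) ∣ Nat.card A := by
        have := orderOf_dvd_natCard (⟨e * a⁻¹, h2⟩ : A)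
        rwa [Subgroup.orderOf_mk] at this
      have h6 : Nat.Coprime (p ^ n) (Nat.card A) :=
        Nat.Coprime.pow_left n ((Nat.Prime.coprime_iff_not_dvd hp).2 hA)
      exact orderOf_eq_one_iff.1 (Nat.eq_one_of_dvd_coprimes h6 h4 h5)
    rw [mul_inv_eq_one, he, mul_inv_eq_iff_eq_mul] at h3
    exact h3.symm
  · intro a ha hk hcen
    have e1 : k * l'⁻¹ * z * a * (k * l'⁻¹ * z)⁻¹ = k * a * k⁻¹ := by
      have h1 := hcen (l'⁻¹ * z) (A.mul_mem (A.inv_mem hl') hz)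
      have e2 : k * l'⁻¹ * z * a * (k * l'⁻¹ * z)⁻¹ = k * (l'⁻¹ * z * a) * (l'⁻¹ * z)⁻¹ * k⁻¹ := by
        group
      rw [e2, ← h1]
      group
    rw [e1] at hk
    exact hk

end Pool.H45.S2
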