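import Pool.Agent.H45.S2.KR
import Pool.Agent.H45.S2.TK
import Pool.Agent.H45.S2.LM

/-!
Project MP_e5a1a5_T2, row TM: modified targets.

`φ : G →* K` is surjective with solvable `G` and `HQ (⊥ : Subgroup K)`; `N = φ.ker`; `P` is a Sylow subgroup of `G`, `P̄` its
image in `K`, a Sylow subgroup (`P.mapSurjective hφ`, `Sylow.coe_mapSurjective`).

Proofs.
* `tm_odd` (`q` odd): `KR` for `K` (solvable as a quotient: `Group.IsSolvable` of `G` and `hφ`) and `P̄` gives `k`;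
  let `φ y₁ = k`.  `LM` with `N = φ.ker`, `y`, `y₁` gives `m`; take `y' = y₁ m`; `φ y' = k`.  Let `a ∈ P`, `y' a y'⁻¹ ∈ P`.
  Then `φ a ∈ P̄`, `k (φ a) k⁻¹ ∈ P̄`, so `g (φ a) g⁻¹ ∈ P̄` for all `g : K`: the first claim.  With `g = φ y`:
  `φ (y a y⁻¹) = φ s` with `s ∈ P`, i.e. `s⁻¹ (y a y⁻¹) ∈ N`, and `LM` gives `y a y⁻¹ ∈ P`.
* `tm_two`: `TK` for `K`, `P̄`, `A`, `z`, `k = φ y` gives `k₁`; let `φ y₁ = k₁`, `m` from `LM` with `y`, `y₁`, `y' = y₁ m`.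
  Let `a ∈ P`, `y' a y'⁻¹ ∈ P`.  Then `φ a ∈ P̄`, `k₁ (φ a) k₁⁻¹ ∈ P̄`, so `φ a` commutes with `z`.  If `φ a` commutes with
  all elements of `A`, then `(φ y) (φ a) (φ y)⁻¹ ∈ P̄`, so `s⁻¹ (y a y⁻¹) ∈ N` for some `s ∈ P`, and `LM` gives
  `y a y⁻¹ ∈ P`.
-/

set_option autoImplicit false

namespace Pool.H45.S2

universe u

/-- image of a Sylow subgroup under a surjective homomorphism -/
theorem image_sylow {G : Type u} [Group G] [Finite G] {K : Type u} [Group K] [Finite K]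
    (φ : G →* K) (hφ : Function.Surjective φ) {p : ℕ} (hp : p.Prime) (P : Sylow p G) :
    ∃ Pb : Sylow p K, ∀ k, k ∈ Pb ↔ ∃ a ∈ P, φ a = k := by
  have := Fact.mk hp
  refine ⟨P.mapSurjective hφ, ?_⟩
  intro k
  change k ∈ ((P.mapSurjective hφ : Sylow p K) : Subgroup K) ↔ _
  rw [Sylow.coe_mapSurjective hφ P, Subgroup.mem_map]
  exact Iff.rfl

theorem tm_odd {G : Type u} [Group G] [Finite G] [Group.IsSolvable G] {K : Type u} [Group K] [Finite K]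
    (φ : G →* K) (hφ : Function.Surjective φ) (hK : HQ (⊥ : Subgroup K)) {q : ℕ} (hq : q.Prime)
    (hq2 : q ≠ 2) (P : Sylow q G) (y : G) :
    ∃ y' : G, (∀ a ∈ P, y' * a * y'⁻¹ ∈ P → ∃ S : Sylow q K, ∀ g : K, g * φ a * g⁻¹ ∈ S) ∧
      ∀ a ∈ P, y' * a * y'⁻¹ ∈ P → y * a * y⁻¹ ∈ P := by
  obtain ⟨Pb, hPb⟩ := image_sylow φ hφ hq P
  have hsol : Group.IsSolvable K := Group.isSolvable_of_surjective hφ
  obtain ⟨k, hk⟩ := KR hq hq2 (Nat.card K) K rfl hsol hK Pb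
  obtain ⟨y₁, hy₁⟩ := hφ k
  obtain ⟨m, hm, hmain⟩ := LM hq (Nat.card G) G rfl φ.ker inferInstance P y y₁
  have hm1 : φ m = 1 := hm
  have key : ∀ a ∈ P, (y₁ * m) * a * (y₁ * m)⁻¹ ∈ P → ∀ g : K, g * φ a * g⁻¹ ∈ Pb := by
    intro a ha h1
    apply hk (φ a) ((hPb _).2 ⟨a, ha, rfl⟩)
    refine (hPb _).2 ⟨_, h1, ?_⟩
    simp only [map_mul, map_inv, hm1, mul_one, hy₁]
  refine ⟨y₁ * m, fun a ha h1 => ⟨Pb, key a ha h1⟩, ?_⟩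
  intro a ha h1
  apply hmain a ha h1
  obtain ⟨s, hs, h2⟩ := (hPb _).1 (key a ha h1 (φ y))
  refine ⟨s, hs, ?_⟩
  rw [MonoidHom.mem_ker]
  simp only [map_mul, map_inv]
  rw [h2, inv_mul_cancel]

theorem tm_two {G : Type u} [Group G] [Finite G] [Group.IsSolvable G] {K : Type u} [Group K] [Finite K]
    (φ : G →* K) (hφ : Function.Surjective φ) {p : ℕ} (hp : p.Prime) (A : Subgroup K) [A.Normal]
    (hA : ¬ p ∣ Nat.card A) (z : K) (hz : z ∈ A) (P : Sylow p G) (y : G) :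
    ∃ y' : G, (∀ a ∈ P, y' * a * y'⁻¹ ∈ P → φ a * z = z * φ a) ∧
      ∀ a ∈ P, y' * a * y'⁻¹ ∈ P → (∀ b ∈ A, φ a * b = b * φ a) → y * a * y⁻¹ ∈ P := by
  obtain ⟨Pb, hPb⟩ := image_sylow φ hφ hp P
  obtain ⟨k₁, hk₁, hk₂⟩ := TK hp Pb A hA z (φ y) hz
  obtain ⟨y₁, hy₁⟩ := hφ k₁
  obtain ⟨m, hm, hmain⟩ := LM hp (Nat.card G) G rfl φ.ker inferInstance P y y₁
  have hm1 : φ m = 1 := hm
  have key : ∀ a ∈ P, (y₁ * m) * a * (y₁ * m)⁻¹ ∈ P → k₁ * φ a * k₁⁻¹ ∈ Pb := by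
    intro a ha h1
    refine (hPb _).2 ⟨_, h1, ?_⟩
    simp only [map_mul, map_inv, hm1, mul_one, hy₁]
  refine ⟨y₁ * m, fun a ha h1 => hk₁ (φ a) ((hPb _).2 ⟨a, ha, rfl⟩) (key a ha h1), ?_⟩
  intro a ha h1 h2
  apply hmain a ha h1
  obtain ⟨s, hs, h3⟩ := (hPb _).1 (hk₂ (φ a) ((hPb _).2 ⟨a, ha, rfl⟩) (key a ha h1) h2)
  refine ⟨s, hs, ?_⟩
  rw [MonoidHom.mem_ker]
  simp only [map_mul, map_inv]
  rw [h3, inv_mul_cancel]

end Pool.H45.S2
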