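import Pool.Agent.H45.S2.CAB
import Pool.Agent.H45.S2.SG
import Pool.Agent.H45.S2.TM

/-!
Project MP_e5a1a5_T2, row MN: the main induction.

Proof.  Strong induction on `n`.  If `G` is trivial take `x = 1`, `h = 1`.  Otherwise `exists_Z` (EW) gives `r`, `Z ≠ ⊥`,
elementary abelian, normal, commuting with `F`.  Use the setup of `Pool.H45.SY.ind_aux` (file Pool/Agent/H45/SY/GR2.lean, whose
structure this proof follows closely): `π : G →* G ⧸ Z`, `H̄ p = (H p).mapSurjective` with `hHbm : π g ∈ H̄ p ↔ ∃ s ∈ H p, s⁻¹ g ∈ Z`,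
`hHbl`, `Nat.card (G ⧸ Z) < n`.  `F.map π` is normal, nilpotent, `HQ (F.map π)` by `HQ_map`; `G ⧸ Z` is solvable.
Let `φ = (MulAut.conjNormal : G →* MulAut Z).rangeRestrict`, `K = (MulAut.conjNormal : G →* MulAut Z).range`,
`ψ = K.subtype`; `hψφ` by `MulAut.conjNormal_apply`; `φ g = 1` iff `g` commutes with all of `Z`; `HQ (⊥ : Subgroup K)` by
`HQ_map F hF φ` (`F ≤ φ.ker`).  `φ̄ : G ⧸ Z →* K` is `QuotientGroup.lift Z φ _`, surjective, `φ̄ (π g) = φ g`.
`GA` gives `A` for `r`, `exists_goodK` gives a good `z ∈ A` (both also for `r = 2`).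
Targets in `G ⧸ Z`: `y' p = π (y p)` if `p = r`; if `p ≠ r`, `p ≠ 2`: `y' p` from `tm_odd φ̄ .. (H̄ p) (π (y p))`; if `p = 2 ≠ r`:
`y' p` from `tm_two φ̄ .. A z (H̄ p) (π (y p))` (`¬ 2 ∣ Nat.card A`).
Induction gives `x̄₁ = π x₁` and `h̄ p = π (h p)`, `h p ∈ H p`.  For `a ∈ H p` with `s⁻¹ (x₁ a x₁⁻¹) ∈ Z` for some `s ∈ H p`
(stage of `x₁`) the element `b = π (h p) (π a) (π (h p))⁻¹ ∈ H̄ p` satisfies `y' p * b * (y' p)⁻¹ ∈ H̄ p`.  Therefore
 (1) `p = r`: `π (y p * h p) (π a) (..)⁻¹ ∈ H̄ p`, i.e. `s⁻¹ ((y p * h p) a (y p * h p)⁻¹) ∈ Z` for some `s ∈ H p`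
     (stage of `y p * h p`);
 (2) `p ≠ 2`, `p ≠ r`: the same, and some Sylow `p`-subgroup `S` of `K` contains all `g (φ a) g⁻¹` (the conjugates of
     `φ̄ b = (φ (h p)) (φ a) (φ (h p))⁻¹` are the conjugates of `φ a`);
 (3) `p = 2 ≠ r`: `φ̄ b` commutes with `z`, so `φ a` commutes with `z' = (φ (h 2))⁻¹ z (φ (h 2))`; `z' ∈ A` and `z'` is
     good by `goodK_conj`; if `φ a` commutes with all of `A` then so does `φ̄ b`, and `a` is in the stage of `y p * h p`.
Let `D p` be the stage group of `x₁` (`stage_subgroup`), `D p ≤ H p` a `p`-group.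
Apply `step_gen` with `x₁`, targets `y p * h p` and
`X p g := (p : ℕ) = 2 → r ≠ 2 → ∀ a ∈ A, φ g * a = a * φ g`.  `hML` is `CA` if `r = 2` and `CB` (with `z'`) if `r ≠ 2`; `hsub` is
(2), (3), `hsubr` is (1).  It gives `z₀ ∈ Z`; take `x = x₁ * z₀`.
-/

set_option autoImplicit false

namespace Pool.H45.S2

open Pool.Agent.H49.Syl Pool.H45.SY

universe u

theorem MN : ∀ (n : ℕ) (G : Type u) [Group G] [Finite G], Nat.card G = n → Group.IsSolvable G →
    ∀ (F : Subgroup G) [F.Normal], Group.IsNilpotent F → HQ F →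
    ∀ (H : ∀ p : Nat.Primes, Sylow (p : ℕ) G) (y : Nat.Primes → G),
      ∃ (x : G) (h : Nat.Primes → G), (∀ p, h p ∈ H p) ∧
        ∀ p : Nat.Primes, ∀ a ∈ H p, x * a * x⁻¹ ∈ H p →
          (y p * h p) * a * (y p * h p)⁻¹ ∈ H p := by
  intro n
  induction n using Nat.strong_induction_on with
  | _ n ih =>
  intro G _ _ hn hsol F hFn hFnil hHQ H y
  classical
  by_cases hnt : Nontrivial G
  swap
  · rw [not_nontrivial_iff_subsingleton] at hnt
    refine ⟨1, fun _ => 1, fun p => (H p).one_mem, ?_⟩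
    intro p a ha _
    rw [Subsingleton.elim ((y p * 1) * a * (y p * 1)⁻¹) a]
    exact ha
  obtain ⟨r, Z, hr, hZn, hZ0, hZF, hZc, hZr, hZcen⟩ := exists_Z F hFnil
  have hZ : Z.Normal := hZn
  -- the quotient
  have hsurj : Function.Surjective (QuotientGroup.mk' Z) := QuotientGroup.mk'_surjective Z
  set π : G →* G ⧸ Z := QuotientGroup.mk' Z with hπ
  have hker : ∀ g : G, π g = 1 ↔ g ∈ Z := by
    intro g
    rw [hπ, QuotientGroup.mk'_apply]
    exact QuotientGroup.eq_one_iff g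
  choose Hb hHbm hHbl using fun p : Nat.Primes => map_sylow p.2 (H p) Z
  have hself : ∀ p, ∀ a ∈ H p, π a ∈ Hb p := fun p a ha =>
    (hHbm p a).2 ⟨a, ha, by rw [inv_mul_cancel]; exact Z.one_mem⟩
  have hFbn : (F.map π).Normal := hFn.map π hsurj
  have hFbnil : Group.IsNilpotent (F.map π) := by
    have : Group.IsNilpotent F := hFnil
    exact Group.nilpotent_of_surjective (π.subgroupMap F) (π.subgroupMap_surjective F)
  have hFbHQ : HQ (F.map π) := HQ_map F hHQ π hsurj (F.map π) (Subgroup.le_comap_map π F)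
  -- the action
  let φ₀ : G →* MulAut Z := MulAut.conjNormal
  have hφ₀ : ∀ (g : G) (w : Z), ((φ₀ g w : Z) : G) = g * w * g⁻¹ := fun g w =>
    MulAut.conjNormal_apply g w
  have hφ₀1 : ∀ g : G, φ₀ g = 1 ↔ ∀ w ∈ Z, g * w = w * g := by
    intro g
    constructor
    · intro h w hw
      have h1 := hφ₀ g ⟨w, hw⟩
      rw [h] at h1
      have h2 : w = g * w * g⁻¹ := h1
      rw [eq_mul_inv_iff_mul_eq] at h2
      exact h2.symm
    · intro h
      apply MulEquiv.ext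
      intro w
      apply Subtype.ext
      rw [hφ₀, h w w.2, mul_inv_cancel_right]
      rfl
  let φ : G →* φ₀.range := φ₀.rangeRestrict
  have hφsurj : Function.Surjective φ := φ₀.rangeRestrict_surjective
  have hφ1 : ∀ g : G, φ g = 1 ↔ ∀ w ∈ Z, g * w = w * g := by
    intro g
    rw [← hφ₀1]
    constructor
    · intro h
      exact congrArg Subtype.val h
    · intro h
      exact Subtype.ext h
  let ψ : φ₀.range →* MulAut Z := φ₀.range.subtype
  have hψ : Function.Injective ψ := φ₀.range.subtype_injective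
  have hψφ : ∀ (g : G) (n : Z), ((ψ (φ g) n : Z) : G) = g * n * g⁻¹ := hφ₀
  have hKfin : Finite φ₀.range := Finite.of_surjective φ hφsurj
  have hKHQ : HQ (⊥ : Subgroup φ₀.range) := by
    apply HQ_map F hHQ φ hφsurj
    intro b hb
    rw [Subgroup.mem_comap, Subgroup.mem_bot, hφ1]
    intro w hw
    exact (hZcen w hw b hb).symm
  have hφZ : ∀ w ∈ Z, φ w = 1 := by
    intro w hw
    rw [hφ1]
    intro w' hw'
    exact hZc w hw w' hw'
  let φb : G ⧸ Z →* φ₀.range := QuotientGroup.lift Z φ hφZ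
  have hφb : ∀ g, φb (π g) = φ g := fun g => rfl
  have hφbsurj : Function.Surjective φb := by
    intro k
    obtain ⟨g, hg⟩ := hφsurj k
    exact ⟨π g, hg⟩
  obtain ⟨A, hAn, hAc, hAodd, hAr, hAq, hAcent⟩ := GA hKHQ r hr
  have hAn' : A.Normal := hAn
  obtain ⟨z, hz, hgood⟩ := exists_goodK hr Z hZc hZr ψ hψ A hAc hAr
  -- the targets in the quotient
  have htar : ∀ p : Nat.Primes, ∃ y' : G ⧸ Z,
      ((p : ℕ) = r → y' = π (y p)) ∧
      ((p : ℕ) ≠ r → (p : ℕ) ≠ 2 →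
        (∀ a ∈ Hb p, y' * a * y'⁻¹ ∈ Hb p → ∃ S : Sylow (p : ℕ) φ₀.range, ∀ g, g * φb a * g⁻¹ ∈ S) ∧
        ∀ a ∈ Hb p, y' * a * y'⁻¹ ∈ Hb p → π (y p) * a * (π (y p))⁻¹ ∈ Hb p) ∧
      ((p : ℕ) ≠ r → (p : ℕ) = 2 →
        (∀ a ∈ Hb p, y' * a * y'⁻¹ ∈ Hb p → φb a * z = z * φb a) ∧
        ∀ a ∈ Hb p, y' * a * y'⁻¹ ∈ Hb p → (∀ b ∈ A, φb a * b = b * φb a) →
          π (y p) * a * (π (y p))⁻¹ ∈ Hb p) := by
    intro p
    by_cases hpr : (p : ℕ) = r
    · exact ⟨π (y p), fun _ => rfl, fun h => absurd hpr h, fun h => absurd hpr h⟩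
    · by_cases hp2 : (p : ℕ) = 2
      · have hA2 : ¬ (p : ℕ) ∣ Nat.card A := by
          rw [hp2, ← even_iff_two_dvd, Nat.not_even_iff_odd]
          exact hAodd
        obtain ⟨y', h1, h2⟩ := tm_two φb hφbsurj p.2 A hA2 z hz (Hb p) (π (y p))
        exact ⟨y', fun h => absurd h hpr, fun _ h => absurd hp2 h, fun _ _ => ⟨h1, h2⟩⟩
      · obtain ⟨y', h1, h2⟩ := tm_odd φb hφbsurj hKHQ p.2 hp2 (Hb p) (π (y p))
        exact ⟨y', fun h => absurd h hpr, fun _ _ => ⟨h1, h2⟩, fun _ h => absurd h hp2⟩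
  choose y' hy1 hy2 hy3 using htar
  have hsolb : Group.IsSolvable (G ⧸ Z) := inferInstance
  obtain ⟨xb, hb, hhb, hmain⟩ := ih _ (hn ▸ card_quot_lt Z hZ0) (G ⧸ Z) rfl hsolb (F.map π) hFbnil
    hFbHQ Hb y'
  obtain ⟨x₁, rfl⟩ := hsurj xb
  choose h hh hh' using fun p => hHbl p _ (hhb p)
  -- the stage element
  have hst : ∀ p, ∀ a ∈ H p, (∃ s ∈ H p, s⁻¹ * (x₁ * a * x₁⁻¹) ∈ Z) →
      π (h p * a * (h p)⁻¹) ∈ Hb p ∧ y' p * π (h p * a * (h p)⁻¹) * (y' p)⁻¹ ∈ Hb p := by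
    intro p a ha h1
    constructor
    · exact hself p _ ((H p : Subgroup G).mul_mem ((H p : Subgroup G).mul_mem (hh p) ha)
        ((H p : Subgroup G).inv_mem (hh p)))
    · have h2 := hmain p (π a) (hself p a ha) (by
        have := (hHbm p _).2 h1
        simpa only [map_mul, map_inv] using this)
      rw [← hh' p] at h2
      have e : y' p * π (h p * a * (h p)⁻¹) * (y' p)⁻¹ =
          y' p * π (h p) * π a * (y' p * π (h p))⁻¹ := by
        simp only [map_mul, map_inv]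
        group
      rw [e]
      exact h2
  have hback : ∀ p, ∀ a, π (y p) * π (h p * a * (h p)⁻¹) * (π (y p))⁻¹ ∈ Hb p →
      ∃ s ∈ H p, s⁻¹ * ((y p * h p) * a * (y p * h p)⁻¹) ∈ Z := by
    intro p a h1
    apply (hHbm p _).1
    have e : QuotientGroup.mk' Z (y p * h p * a * (y p * h p)⁻¹) =
        π (y p) * π (h p * a * (h p)⁻¹) * (π (y p))⁻¹ := by
      rw [← hπ]
      simp only [map_mul, map_inv]
      group
    rw [e]
    exact h1
  have hconjφ : ∀ p a, φb (π (h p * a * (h p)⁻¹)) = φ (h p) * φ a * (φ (h p))⁻¹ := by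
    intro p a
    rw [hφb, map_mul, map_mul, map_inv]
  have fact1 : ∀ p : Nat.Primes, (p : ℕ) = r → ∀ a ∈ H p,
      (∃ s ∈ H p, s⁻¹ * (x₁ * a * x₁⁻¹) ∈ Z) →
      ∃ s ∈ H p, s⁻¹ * ((y p * h p) * a * (y p * h p)⁻¹) ∈ Z := by
    intro p hpr a ha h1
    apply hback
    have h2 := (hst p a ha h1).2
    rw [hy1 p hpr] at h2
    exact h2
  have fact2 : ∀ p : Nat.Primes, (p : ℕ) ≠ r → (p : ℕ) ≠ 2 → ∀ a ∈ H p,
      (∃ s ∈ H p, s⁻¹ * (x₁ * a * x₁⁻¹) ∈ Z) →
      (∃ S : Sylow (p : ℕ) φ₀.range, ∀ g, g * φ a * g⁻¹ ∈ S) ∧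
      ∃ s ∈ H p, s⁻¹ * ((y p * h p) * a * (y p * h p)⁻¹) ∈ Z := by
    intro p hpr hp2 a ha h1
    obtain ⟨h2, h3⟩ := hst p a ha h1
    constructor
    · obtain ⟨S, hS⟩ := (hy2 p hpr hp2).1 _ h2 h3
      refine ⟨S, ?_⟩
      intro g
      have h4 := hS (g * (φ (h p))⁻¹)
      rw [hconjφ] at h4
      have e : g * (φ (h p))⁻¹ * (φ (h p) * φ a * (φ (h p))⁻¹) * (g * (φ (h p))⁻¹)⁻¹ =
          g * φ a * g⁻¹ := by group
      rw [e] at h4
      exact h4
    · exact hback p a ((hy2 p hpr hp2).2 _ h2 h3)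
  have fact3 : ∀ p : Nat.Primes, (p : ℕ) ≠ r → (p : ℕ) = 2 → ∀ a ∈ H p,
      (∃ s ∈ H p, s⁻¹ * (x₁ * a * x₁⁻¹) ∈ Z) →
      φ a * ((φ (h p))⁻¹ * z * φ (h p)) = ((φ (h p))⁻¹ * z * φ (h p)) * φ a ∧
      ((∀ b ∈ A, φ a * b = b * φ a) →
        ∃ s ∈ H p, s⁻¹ * ((y p * h p) * a * (y p * h p)⁻¹) ∈ Z) := by
    intro p hpr hp2 a ha h1
    obtain ⟨h2, h3⟩ := hst p a ha h1
    constructor
    · have h4 := (hy3 p hpr hp2).1 _ h2 h3
      rw [hconjφ] at h4
      have e1 : φ a * ((φ (h p))⁻¹ * z * φ (h p)) =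
          (φ (h p))⁻¹ * (φ (h p) * φ a * (φ (h p))⁻¹ * z) * φ (h p) := by group
      have e2 : ((φ (h p))⁻¹ * z * φ (h p)) * φ a =
          (φ (h p))⁻¹ * (z * (φ (h p) * φ a * (φ (h p))⁻¹)) * φ (h p) := by group
      rw [e1, e2, h4]
    · intro hcen
      apply hback p a
      apply (hy3 p hpr hp2).2 _ h2 h3
      intro b hb
      rw [hconjφ]
      have h5 : (φ (h p))⁻¹ * b * φ (h p) ∈ A := by
        have := hAn.conj_mem b hb (φ (h p))⁻¹
        simpa using this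
      have h6 := hcen _ h5
      calc φ (h p) * φ a * (φ (h p))⁻¹ * b
          = φ (h p) * (φ a * ((φ (h p))⁻¹ * b * φ (h p))) * (φ (h p))⁻¹ := by group
        _ = φ (h p) * (((φ (h p))⁻¹ * b * φ (h p)) * φ a) * (φ (h p))⁻¹ := by rw [h6]
        _ = b * (φ (h p) * φ a * (φ (h p))⁻¹) := by group
  -- stage groups
  choose D hDm using fun p : Nat.Primes => stage_subgroup Z (H p : Subgroup G) x₁
  have hDp : ∀ p : Nat.Primes, IsPGroup (p : ℕ) (D p) := fun p =>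
    (H p).isPGroup'.to_le (fun a ha => ((hDm p a).1 ha).1)
  obtain ⟨z₀, hz₀, hfin⟩ := step_gen hr Z hZr H x₁ (fun p => y p * h p)
    (fun p g => (p : ℕ) = 2 → r ≠ 2 → ∀ a ∈ A, φ g * a = a * φ g) (by
      intro s t hs ht
      by_cases hr2 : r = 2
      · obtain ⟨f, hf, hf'⟩ := CA Z hZc (by rw [← hr2]; exact hZr) φ (fun g hg => (hφ1 g).1 hg)
          D hDp (by
            intro p hp2 a ha
            have h1 := (hDm p a).1 ha
            exact (fact2 p (by rw [hr2]; exact hp2) hp2 a h1.1 h1.2).1) s t hs ht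
        refine ⟨f, hf, ?_⟩
        intro p hpr hpd g hg hstage hc
        have hp2 : (p : ℕ) ≠ 2 := by rw [← hr2]; exact hpr
        refine ⟨?_, fun h => absurd h hp2⟩
        exact hf' p hp2 hpd g ((hDm p g).2 ⟨hg, hstage⟩) hc
      · let two : Nat.Primes := ⟨2, Nat.prime_two⟩
        have htwor : (two : ℕ) ≠ r := fun h => hr2 h.symm
        have hz' : (φ (h two))⁻¹ * z * φ (h two) ∈ A := by
          have := hAn.conj_mem z hz (φ (h two))⁻¹
          simpa using this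
        have hgood' : GoodK ψ A ((φ (h two))⁻¹ * z * φ (h two)) := by
          have := goodK_conj ψ A z (φ (h two))⁻¹ hgood
          rw [inv_inv] at this
          exact this
        obtain ⟨f, hf, hf'⟩ := CB hr hr2 Z hZc hZr φ ψ hψφ A hAc hAodd hAr hAq hAcent
          _ hz' hgood' D hDp (by
            intro p hp2 hpr a ha
            have h1 := (hDm p a).1 ha
            exact (fact2 p hpr hp2 a h1.1 h1.2).1) (by
            intro p hp2 g hg
            have hp : p = two := Subtype.ext hp2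
            rw [hp] at hg
            have h1 := (hDm two g).1 hg
            exact (fact3 two htwor rfl g h1.1 h1.2).1) s t hs ht
        refine ⟨f, hf, ?_⟩
        intro p hpr hpd g hg hstage hc
        obtain ⟨h1, h2⟩ := hf' p hpr g ((hDm p g).2 ⟨hg, hstage⟩) hc
        exact ⟨h1, fun hp2 _ => h2 hp2⟩) (by
      intro p hpr a ha hstage hX
      by_cases hp2 : (p : ℕ) = 2
      · apply (fact3 p hpr hp2 a ha hstage).2
        apply hX hp2
        intro hr2
        exact hpr (by rw [hp2, hr2])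
      · exact (fact2 p hpr hp2 a ha hstage).2) fact1
  refine ⟨x₁ * z₀, h, hh, ?_⟩
  exact hfin

end Pool.H45.S2
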