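import Pool.Agent.H45.S2.DE1
import Pool.Agent.H49.SylInd

/-!
Project MP_e5a1a5_T2, row RV: a `q`-group with commuting elements of order `q` acting on an elementary abelian `l`-group.

`D ≤ G` acts on `W` by conjugation as a `q`-group in which the elements of order dividing `q` commute.  For every shift `s`
there is `f ∈ W` such that the elements of `D` commuting with `s f` centralise `W`.

Proof.  Let `φ = (MulAut.conjNormal : G →* MulAut W)`; `φ g = 1` iff `g` commutes with all elements of `W`.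
`CommGroup W`, `Module (ZMod l) (Additive W)` and `rho0 W l (MonoidHom.id (MulAut W)) : MulAut W →* Module.End ..` as in
`Pool.H45.SY.lemmaA_grp` (file Pool/Agent/H45/SY/GR1.lean) and Pool/Agent/H49/SylInd.lean.
Let `B` be the subgroup of `MulAut W` with carrier `{x | x ∈ D.map φ ∧ x^q = 1}`: closed under products because its
elements commute by `hDc`.  It is abelian, `Nat.card B` is a power of `q` (or use `IsPGroup`), so it is nonzero in
`F = ZMod l`.  `ρ = (rho0 ..).comp B.subtype : B →* Module.End F V`, `V = Additive W`.  (`B` is finite; get `Fintype`,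
`DecidableEq` from `classical` / `Fintype.ofFinite`.)
For every `S : Finset B` choose `v S : V` such that `pj ρ S (v S) ≠ 0` if there is such a vector.  Let
`x = Σ_S pj ρ S (v S)`; `pj ρ S x = pj ρ S (v S)` by `pj_idem`, `pj_orth`.  Put `f = s⁻¹ x`, so `s f = x`.
Let `g ∈ D` commute with `x` and suppose `φ g ≠ 1`.  By `hD` some `q`-power of `φ g` is `1`; so with a suitable `n`
the element `b = (φ g)^(q^n) = φ (g^(q^n))` satisfies `b ≠ 1`, `b^q = 1`, and `b ∈ B`; `ρ b x = x`.
`b ≠ 1` as an automorphism of `W`, so `ρ b v ≠ v` for some `v`, and by `pj_sum` (and `pj_comm`) there is `S` with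
`ρ b (pj ρ S v) ≠ pj ρ S v`; so `b ∉ S` (`pj_mem`) and `pj ρ S v ≠ 0`, hence `pj ρ S x = pj ρ S (v S) ≠ 0`.
But `ρ b (pj ρ S x) = pj ρ S (ρ b x) = pj ρ S x`, against `pj_not_mem`.
-/

set_option autoImplicit false

namespace Pool.H45.S2

open Pool.Agent.H49.Syl

universe u

theorem RV0 {l q : ℕ} (hl : l.Prime) (hq : q.Prime) (hlq : l ≠ q) (A : Type u) [CommGroup A]
    (hA : ∀ a : A, a ^ l = 1) (B : Type u) [CommGroup B] [Finite B]
    (hB : ∀ b : B, b ^ q = 1) (ψ : B →* MulAut A) (hψ : Function.Injective ψ) :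
    ∃ x : A, ∀ b : B, ψ b x = x → b = 1 := by
  classical
  have := Fact.mk hl
  have := Fact.mk hq
  have := Fintype.ofFinite B
  have inst : Module (ZMod l) (Additive A) := AddCommGroup.zmodModule (n := l) (by
    intro x
    exact hA (Additive.toMul x))
  let ρ : B →* Module.End (ZMod l) (Additive A) := rho0 A l ψ
  have hρ : ∀ (b : B) (a : A), ρ b (Additive.ofMul a) = Additive.ofMul (ψ b a) := fun b a =>
    rho0_apply A l ψ b a
  have hN : (Nat.card B : ZMod l) ≠ 0 := by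
    have hBp : IsPGroup q B := fun b => ⟨1, by rw [pow_one]; exact hB b⟩
    obtain ⟨n, hn⟩ := IsPGroup.iff_card.1 hBp
    rw [hn]
    intro h0
    rw [ZMod.natCast_eq_zero_iff] at h0
    exact hlq ((Nat.prime_dvd_prime_iff_eq hl hq).1 (hl.dvd_of_dvd_pow h0))
  have hex : ∀ S : Finset B, ∃ v : Additive A, (∃ w, pj ρ S w ≠ 0) → pj ρ S v ≠ 0 := by
    intro S
    by_cases h : ∃ w, pj ρ S w ≠ 0
    · obtain ⟨w, hw⟩ := h
      exact ⟨w, fun _ => hw⟩
    · exact ⟨0, fun h' => absurd h' h⟩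
  choose v hv using hex
  let x : Additive A := ∑ S : Finset B, pj ρ S (v S)
  have hx : ∀ S, pj ρ S x = pj ρ S (v S) := by
    intro S
    change pj ρ S (∑ T : Finset B, pj ρ T (v T)) = _
    rw [map_sum, Finset.sum_eq_single S]
    · exact pj_idem hN ρ S _
    · intro T _ hT
      exact pj_orth hN ρ S T (Ne.symm hT) _
    · intro h
      exact absurd (Finset.mem_univ S) h
  refine ⟨Additive.toMul x, ?_⟩
  intro b hb
  by_contra hb1
  have hbx : ρ b x = x := by
    have := hρ b (Additive.toMul x)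
    rw [hb] at this
    exact this
  obtain ⟨w, hw⟩ : ∃ w, ρ b w ≠ w := by
    by_contra hc
    push Not at hc
    apply hb1
    apply hψ
    rw [map_one]
    apply MulEquiv.ext
    intro a
    have := hc (Additive.ofMul a)
    rw [hρ] at this
    exact Additive.ofMul.injective this
  obtain ⟨S, hS⟩ : ∃ S, ρ b (pj ρ S w) ≠ pj ρ S w := by
    by_contra hc
    push Not at hc
    apply hw
    conv_lhs => rw [← pj_sum ρ w]
    rw [map_sum, Finset.sum_congr rfl (fun S _ => hc S), pj_sum]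
  have hw0 : pj ρ S w ≠ 0 := by
    intro h0
    apply hS
    rw [h0, map_zero]
  have hbS : b ∉ S := fun h => hS (pj_mem hN ρ S b h _)
  have h1 : pj ρ S x ≠ 0 := by
    rw [hx]
    exact hv S ⟨w, hw0⟩
  apply h1
  apply pj_not_mem hN ρ S b hbS
  rw [pj_comm, hbx]

theorem RV {G : Type*} [Group G] [Finite G] {l q : ℕ} (hl : l.Prime) (hq : q.Prime) (hlq : l ≠ q)
    (W : Subgroup G) [W.Normal] (hWc : ∀ a ∈ W, ∀ b ∈ W, a * b = b * a) (hWl : ∀ a ∈ W, a ^ l = 1)
    (D : Subgroup G) (hD : ∀ a ∈ D, ∃ n : ℕ, ∀ w ∈ W, a ^ q ^ n * w = w * a ^ q ^ n)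
    (hDc : ∀ a ∈ D, ∀ b ∈ D, (∀ w ∈ W, a ^ q * w = w * a ^ q) → (∀ w ∈ W, b ^ q * w = w * b ^ q) →
      ∀ w ∈ W, ((b * a)⁻¹ * (a * b)) * w = w * ((b * a)⁻¹ * (a * b)))
    (s : G) (hs : s ∈ W) :
    ∃ f ∈ W, ∀ g ∈ D, g * (s * f) = (s * f) * g → ∀ w ∈ W, g * w = w * g := by
  classical
  let cg : CommGroup W := { (inferInstance : Group W) with
    mul_comm := fun a b => Subtype.ext (hWc a a.2 b b.2) }
  let φ : G →* MulAut W := MulAut.conjNormal
  have hφ : ∀ (g : G) (w : W), ((φ g w : W) : G) = g * w * g⁻¹ := fun g w =>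
    MulAut.conjNormal_apply g w
  have hφ1 : ∀ g : G, φ g = 1 ↔ ∀ w ∈ W, g * w = w * g := by
    intro g
    constructor
    · intro h w hw
      have h1 := hφ g ⟨w, hw⟩
      rw [h] at h1
      have h2 : w = g * w * g⁻¹ := h1
      rw [eq_mul_inv_iff_mul_eq] at h2
      exact h2.symm
    · intro h
      apply MulEquiv.ext
      intro w
      apply Subtype.ext
      rw [hφ, h w w.2, mul_inv_cancel_right]
      rfl
  have hcomm : ∀ x ∈ D.map φ, ∀ y ∈ D.map φ, x ^ q = 1 → y ^ q = 1 → x * y = y * x := by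
    rintro _ ⟨a, ha, rfl⟩ _ ⟨b, hb, rfl⟩ h1 h2
    have h3 := hDc a ha b hb ((hφ1 _).1 (by rw [map_pow]; exact h1))
      ((hφ1 _).1 (by rw [map_pow]; exact h2))
    have h4 := (hφ1 _).2 h3
    rw [map_mul, map_inv, map_mul, map_mul, inv_mul_eq_one] at h4
    exact h4.symm
  let B : Subgroup (MulAut W) :=
    { carrier := {x | x ∈ D.map φ ∧ x ^ q = 1}
      one_mem' := ⟨Subgroup.one_mem _, one_pow q⟩
      mul_mem' := by
        rintro a b ⟨ha, ha'⟩ ⟨hb, hb'⟩
        refine ⟨Subgroup.mul_mem _ ha hb, ?_⟩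
        have : Commute a b := hcomm a ha b hb ha' hb'
        rw [this.mul_pow, ha', hb', one_mul]
      inv_mem' := by
        rintro a ⟨ha, ha'⟩
        refine ⟨Subgroup.inv_mem _ ha, ?_⟩
        rw [inv_pow, ha', inv_one] }
  have hBm : ∀ x, x ∈ B ↔ x ∈ D.map φ ∧ x ^ q = 1 := fun x => Iff.rfl
  let cb : CommGroup B := { (inferInstance : Group B) with
    mul_comm := fun a b => Subtype.ext (hcomm a a.2.1 b b.2.1 a.2.2 b.2.2) }
  obtain ⟨x, hx⟩ := RV0 hl hq hlq W (fun a => Subtype.ext (hWl a a.2)) B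
    (fun b => Subtype.ext b.2.2) B.subtype B.subtype_injective
  refine ⟨s⁻¹ * (x : G), W.mul_mem (W.inv_mem hs) x.2, ?_⟩
  intro g hg hcx
  rw [mul_inv_cancel_left] at hcx
  rw [← hφ1]
  by_contra hne
  obtain ⟨n, hn⟩ := hD g hg
  have hex : ∃ n : ℕ, (φ g) ^ q ^ n = 1 := ⟨n, by rw [← map_pow, hφ1]; exact hn⟩
  obtain ⟨i, hi⟩ : ∃ i, Nat.find hex = i + 1 := by
    rcases Nat.eq_zero_or_eq_succ_pred (Nat.find hex) with h | h
    · exfalso
      have := Nat.find_spec hex
      rw [h, pow_zero, pow_one] at this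
      exact hne this
    · exact ⟨_, h⟩
  have hi1 : (φ g) ^ q ^ i ≠ 1 := Nat.find_min hex (by omega)
  have hi2 : (φ g) ^ q ^ (i + 1) = 1 := by
    rw [← hi]
    exact Nat.find_spec hex
  have hmem : φ (g ^ q ^ i) ∈ B := by
    rw [hBm]
    refine ⟨⟨_, D.pow_mem hg _, rfl⟩, ?_⟩
    rw [map_pow, ← pow_mul, ← pow_succ]
    exact hi2
  have h1 := hx ⟨φ (g ^ q ^ i), hmem⟩ (by
    apply Subtype.ext
    change ((φ (g ^ q ^ i) x : W) : G) = x
    rw [hφ]
    have : Commute g (x : G) := hcx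
    have h2 : Commute (g ^ q ^ i) (x : G) := this.pow_left _
    rw [h2.eq, mul_inv_cancel_right])
  apply hi1
  rw [← map_pow]
  exact congrArg Subtype.val h1

end Pool.H45.S2
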